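import Pool.Agent.KS6_69.WS.SobDefs

/-!
# Sobolev tools (adapted from the library module `Helper795.Wild`)

Absolute continuity on almost every loop, closed logarithms of loops, weak convergence of uniformly
Lipschitz maps.
-/

set_option autoImplicit false

open MeasureTheory Set Filter Topology Metric
open scoped ENNReal NNReal InnerProductSpace
open Pool.Agent.KS6_69.WS.SobDefs

namespace Pool.Agent.KS6_69.WS.Base

noncomputable section

section base



/-- two continuous logarithms on an interval differ by a constant -/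
lemma log_diff_const {a b : ℝ} (hab : a ≤ b) {f g : ℝ → ℂ} (hf : ContinuousOn f (Icc a b))
    (hg : ContinuousOn g (Icc a b))
    (h : ∀ s ∈ Icc a b, Complex.exp (f s) = Complex.exp (g s)) :
    f b - f a = g b - g a := by
  have hd : ContinuousOn (fun s => ((f s - g s) / (2 * Real.pi * Complex.I)).re) (Icc a b) := by
    have : ContinuousOn (fun s => (f s - g s) / (2 * Real.pi * Complex.I)) (Icc a b) :=
      (hf.sub hg).div_const _
    exact Complex.continuous_re.comp_continuousOn this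
  have hne : (2 * (Real.pi : ℂ) * Complex.I) ≠ 0 := Complex.two_pi_I_ne_zero
  have hint : ∀ s ∈ Icc a b, ∃ n : ℤ, f s - g s = n * (2 * Real.pi * Complex.I) := by
    intro s hs
    have : Complex.exp (f s - g s) = 1 := by
      rw [Complex.exp_sub, h s hs, div_self (Complex.exp_ne_zero _)]
    exact Complex.exp_eq_one_iff.mp this
  have hval : ∀ s ∈ Icc a b, ∀ n : ℤ, f s - g s = n * (2 * Real.pi * Complex.I) →
      ((f s - g s) / (2 * Real.pi * Complex.I)).re = n := by
    intro s hs n hn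
    rw [hn, mul_div_assoc, div_self hne, mul_one]; simp
  obtain ⟨na, hna⟩ := hint a (left_mem_Icc.mpr hab)
  obtain ⟨nb, hnb⟩ := hint b (right_mem_Icc.mpr hab)
  have key : na = nb := by
    by_contra hne'
    -- intermediate value takes a half integer value
    set F := fun s => ((f s - g s) / (2 * Real.pi * Complex.I)).re with hF
    have hFa : F a = na := hval a (left_mem_Icc.mpr hab) na hna
    have hFb : F b = nb := hval b (right_mem_Icc.mpr hab) nb hnb
    rcases lt_or_gt_of_ne hne' with hlt | hlt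
    · have := intermediate_value_Icc hab hd
      have hmem : (na : ℝ) + 1 / 2 ∈ Icc (F a) (F b) := by
        rw [hFa, hFb]
        have : (na : ℝ) + 1 ≤ nb := by exact_mod_cast hlt
        constructor <;> linarith
      obtain ⟨s, hs, hse⟩ := this hmem
      obtain ⟨n, hn⟩ := hint s hs
      have h1 : F s = n := hval s hs n hn
      have h2 : F s = (na : ℝ) + 1 / 2 := hse
      rw [h1] at h2
      have h3 : (2 * n : ℝ) = 2 * na + 1 := by linarith
      have h4 : 2 * n = 2 * na + 1 := by exact_mod_cast h3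
      omega
    · have := intermediate_value_Icc' hab hd
      have hmem : (nb : ℝ) + 1 / 2 ∈ Icc (F b) (F a) := by
        rw [hFa, hFb]
        have : (nb : ℝ) + 1 ≤ na := by exact_mod_cast hlt
        constructor <;> linarith
      obtain ⟨s, hs, hse⟩ := this hmem
      obtain ⟨n, hn⟩ := hint s hs
      have h1 : F s = n := hval s hs n hn
      have h2 : F s = (nb : ℝ) + 1 / 2 := hse
      rw [h1] at h2
      have h3 : (2 * n : ℝ) = 2 * nb + 1 := by linarith
      have h4 : 2 * n = 2 * nb + 1 := by exact_mod_cast h3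
      omega
  have : f a - g a = f b - g b := by rw [hna, hnb, key]
  linear_combination -this

/-- a loop in the punctured plane, parametrised by `[0,4]`, has a closed logarithm -/
def ClosedLog (P : ℝ → ℂ) : Prop :=
  ∃ l : ℝ → ℂ, ContinuousOn l (Icc 0 4) ∧ (∀ s ∈ Icc (0 : ℝ) 4, Complex.exp (l s) = P s) ∧ l 0 = l 4

/-- homotopy invariance of having a closed logarithm -/
lemma closedLog_of_homotopy (K : ℝ × ℝ → ℂ) (hK : ContinuousOn K (Icc 0 4 ×ˢ Icc 0 1))
    (h0 : ∀ p ∈ (Icc (0 : ℝ) 4) ×ˢ (Icc (0 : ℝ) 1), K p ≠ 0)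
    (hper : ∀ u ∈ Icc (0 : ℝ) 1, K (0, u) = K (4, u))
    (h1 : ClosedLog fun s => K (s, 1)) : ClosedLog fun s => K (s, 0) := by
  -- extend by clamping
  set c : ℝ × ℝ → ℝ × ℝ := fun p => (max 0 (min p.1 4), max 0 (min p.2 1)) with hc
  have hcc : Continuous c := by fun_prop
  have hcm : ∀ p, c p ∈ (Icc (0 : ℝ) 4) ×ˢ (Icc (0 : ℝ) 1) := by
    intro p
    refine ⟨⟨le_max_left _ _, ?_⟩, ⟨le_max_left _ _, ?_⟩⟩
    · exact max_le (by norm_num) (min_le_right _ _)
    · exact max_le (by norm_num) (min_le_right _ _)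
  have hcid : ∀ s ∈ Icc (0 : ℝ) 4, ∀ u ∈ Icc (0 : ℝ) 1, c (s, u) = (s, u) := by
    intro s hs u hu
    simp only [hc]
    rw [min_eq_left hs.2, max_eq_right hs.1, min_eq_left hu.2, max_eq_right hu.1]
  have hKc : ContinuousOn (fun p => K (c p)) (univ : Set (ℝ × ℝ)) := by
    apply hK.comp hcc.continuousOn
    intro p _; exact hcm p
  have hsc : IsSimplyConnected (univ : Set (ℝ × ℝ)) := by
    have : ContractibleSpace (univ : Set (ℝ × ℝ)) := convex_univ.contractibleSpace ⟨0, mem_univ _⟩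
    exact (inferInstance : SimplyConnectedSpace (univ : Set (ℝ × ℝ)))
  obtain ⟨f, hf, hfe⟩ := Complex.exists_continuousOn_eqOn_exp_comp hsc isOpen_univ hKc (by
    rintro ⟨p, -, hp⟩; exact h0 _ (hcm p) hp)
  have hfc : Continuous f := continuousOn_univ.mp hf
  have hfexp : ∀ s ∈ Icc (0 : ℝ) 4, ∀ u ∈ Icc (0 : ℝ) 1, Complex.exp (f (s, u)) = K (s, u) := by
    intro s hs u hu
    have := hfe (mem_univ (s, u))
    simp only [Function.comp] at this
    rw [this, hcid s hs u hu]
  obtain ⟨l, hl, hle, hl0⟩ := h1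
  have hi0 : (0 : ℝ) ∈ Icc (0 : ℝ) 4 := by norm_num
  have hi4 : (4 : ℝ) ∈ Icc (0 : ℝ) 4 := by norm_num
  have hu0 : (0 : ℝ) ∈ Icc (0 : ℝ) 1 := by norm_num
  have hu1 : (1 : ℝ) ∈ Icc (0 : ℝ) 1 := by norm_num
  have e1 : f (4, 1) - f (0, 1) = l 4 - l 0 := by
    apply log_diff_const (f := fun s => f (s, 1)) (by norm_num) (by fun_prop) hl
    intro s hs
    rw [hfexp s hs 1 hu1, hle s hs]
  have e2 : f (4, 1) - f (4, 0) = f (0, 1) - f (0, 0) := by
    apply log_diff_const (f := fun u => f (4, u)) (g := fun u => f (0, u)) (by norm_num)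
      (by fun_prop) (by fun_prop)
    intro u hu
    rw [hfexp 4 hi4 u hu, hfexp 0 hi0 u hu, hper u hu]
  refine ⟨fun s => f (s, 0), by fun_prop, fun s hs => hfexp s hs 0 hu0, ?_⟩
  rw [hl0, sub_self] at e1
  change f (0, 0) = f (4, 0)
  linear_combination e2 - e1

lemma closedLog_const {c : ℂ} (hc : c ≠ 0) : ClosedLog fun _ => c :=
  ⟨fun _ => Complex.log c, continuousOn_const, fun _ _ => Complex.exp_log hc, rfl⟩

/-- one side of a square loop -/
lemma side_change {a b : ℝ} (hab : a ≤ b) {l : ℝ → ℂ} (hl : ContinuousOn l (Icc a b)) {w : ℂ}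
    (hw : w ≠ 0) {y : ℝ → ℝ} (hy : ContinuousOn y (Icc a b)) (hya : y a = -1) (hyb : y b = 1)
    (h : ∀ s ∈ Icc a b, Complex.exp (l s) = w * (1 - Complex.I * y s)) :
    l b - l a = Complex.log (1 - Complex.I) - Complex.log (1 + Complex.I) := by
  have hsl : ∀ s, (1 - Complex.I * (y s : ℂ)) ∈ Complex.slitPlane := by
    intro s
    left
    simp
  have h1 := log_diff_const (f := l) (g := fun s => Complex.log w + Complex.log (1 - Complex.I * y s))
    hab hl (by
      apply continuousOn_const.add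
      apply ContinuousOn.clog
      · apply continuousOn_const.sub
        exact continuousOn_const.mul (Complex.continuous_ofReal.comp_continuousOn hy)
      · intro s _; exact hsl s) (by
      intro s hs
      rw [h s hs, Complex.exp_add, Complex.exp_log hw, Complex.exp_log (Complex.slitPlane_ne_zero (hsl s))])
  rw [h1, hya, hyb]
  push_cast
  ring_nf

/-- a loop going around the boundary of the square has no closed logarithm -/
lemma not_closedLog_square {P : ℝ → ℂ} {y : ℕ → ℝ → ℝ} {w : ℕ → ℂ} (hw : ∀ k : ℕ, k < 4 → w k ≠ 0)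
    (hy : ∀ k : ℕ, k < 4 → ContinuousOn (y k) (Icc (k : ℝ) (k + 1)))
    (hya : ∀ k : ℕ, k < 4 → y k k = -1) (hyb : ∀ k : ℕ, k < 4 → y k (k + 1) = 1)
    (hP : ∀ k : ℕ, k < 4 → ∀ s ∈ Icc (k : ℝ) (k + 1), P s = w k * (1 - Complex.I * y k s)) :
    ¬ ClosedLog P := by
  rintro ⟨l, hl, hle, hl0⟩
  set κ := Complex.log (1 - Complex.I) - Complex.log (1 + Complex.I) with hκ
  have hκ0 : κ ≠ 0 := by
    intro h
    have h1 : Complex.log (1 - Complex.I) = Complex.log (1 + Complex.I) := sub_eq_zero.mp h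
    have h2 : (1 : ℂ) - Complex.I ≠ 0 := by
      intro h; have := congrArg Complex.re h; simp at this
    have h3 : (1 : ℂ) + Complex.I ≠ 0 := by
      intro h; have := congrArg Complex.re h; simp at this
    have h4 := congrArg Complex.exp h1
    rw [Complex.exp_log h2, Complex.exp_log h3] at h4
    have := congrArg Complex.im h4
    simp at this
    linarith
  have hstep : ∀ k : ℕ, k < 4 → l ((k : ℝ) + 1) - l k = κ := by
    intro k hk
    have hk' : (k : ℝ) + 1 ≤ 4 := by exact_mod_cast hk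
    have hsub : Icc (k : ℝ) (k + 1) ⊆ Icc 0 4 := Icc_subset_Icc (by positivity) hk'
    apply side_change (by linarith) (hl.mono hsub) (hw k hk) (hy k hk) (hya k hk) (hyb k hk)
    intro s hs
    rw [hle s (hsub hs), hP k hk s hs]
  have h0 := hstep 0 (by norm_num)
  have h1 := hstep 1 (by norm_num)
  have h2 := hstep 2 (by norm_num)
  have h3 := hstep 3 (by norm_num)
  norm_num at h0 h1 h2 h3
  have : 4 * κ = 0 := by
    have : l 4 - l 0 = 4 * κ := by linear_combination h0 + h1 + h2 + h3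
    rw [← this, hl0, sub_self]
  exact hκ0 (by simpa using this)

/-- variation of a continuous logarithm along a curve of controlled variation -/
lemma log_variation {a b ρ : ℝ} (hab : a ≤ b) (hρ : 0 < ρ) {z l : ℝ → ℂ} {V : ℝ → ℝ}
    (hl : ContinuousOn l (Icc a b)) (hV : ContinuousOn V (Icc a b))
    (hz : ∀ s ∈ Icc a b, ρ ≤ ‖z s‖)
    (hzV : ∀ s ∈ Icc a b, ∀ t ∈ Icc a b, s ≤ t → ‖z t - z s‖ ≤ V t - V s)
    (hle : ∀ s ∈ Icc a b, Complex.exp (l s) = z s) :
    ‖l b - l a‖ ≤ 2 / ρ * (V b - V a) := by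
  set S : Set ℝ := {s | s ∈ Icc a b ∧ ‖l s - l a‖ ≤ 2 / ρ * (V s - V a)} with hS
  have hclosed : IsClosed (S ∩ Icc a b) := by
    have : S ∩ Icc a b = Icc a b ∩ (fun s => 2 / ρ * (V s - V a) - ‖l s - l a‖) ⁻¹' Ici 0 := by
      ext s
      simp only [hS, mem_inter_iff, mem_preimage, mem_Ici, sub_nonneg]
      constructor
      · rintro ⟨⟨h1, h2⟩, h3⟩; exact ⟨h1, h2⟩
      · rintro ⟨h1, h2⟩; exact ⟨⟨h1, h2⟩, h1⟩
    rw [this]
    apply ContinuousOn.preimage_isClosed_of_isClosed _ isClosed_Icc isClosed_Ici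
    apply ContinuousOn.sub
    · exact continuousOn_const.mul (hV.sub continuousOn_const)
    · exact (hl.sub continuousOn_const).norm
  have hsub : Icc a b ⊆ S := by
    apply IsClosed.Icc_subset_of_forall_mem_nhdsWithin hclosed
    · exact ⟨left_mem_Icc.mpr hab, by simp⟩
    · rintro s ⟨⟨hs, hsle⟩, hsb⟩
      have hcont : ContinuousWithinAt l (Icc a b) s := hl s hs
      have h1 : ∀ᶠ t in 𝓝[Icc a b] s, ‖l t - l s‖ < 1 / 2 := by
        have := hcont.tendsto
        have h2 : Tendsto (fun t => ‖l t - l s‖) (𝓝[Icc a b] s) (𝓝 ‖l s - l s‖) :=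
          (this.sub tendsto_const_nhds).norm
        rw [sub_self, norm_zero] at h2
        exact h2.eventually_lt_const (by norm_num)
      have h2 : 𝓝[>] s ≤ 𝓝[Icc a b] s := by
        have : 𝓝[>] s = 𝓝[Ioc s b] s := (nhdsWithin_Ioc_eq_nhdsGT hsb.2).symm
        rw [this]
        exact nhdsWithin_mono s fun t ht => ⟨hs.1.trans ht.1.le, ht.2⟩
      have h3 : ∀ᶠ t in 𝓝[>] s, t ∈ Ioc s b := Ioc_mem_nhdsGT hsb.2
      filter_upwards [h2 h1, h3] with t ht1 ht2
      have htm : t ∈ Icc a b := ⟨hs.1.trans ht2.1.le, ht2.2⟩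
      refine ⟨htm, ?_⟩
      set u := l t - l s with hu
      have hu2 : ‖u‖ ≤ 2 * ‖Complex.exp u - 1‖ := by
        have h4 := Complex.norm_exp_sub_one_sub_id_le (x := u) (by linarith)
        have h5 : ‖u‖ ≤ ‖Complex.exp u - 1‖ + ‖Complex.exp u - 1 - u‖ := by
          calc ‖u‖ = ‖(Complex.exp u - 1) - (Complex.exp u - 1 - u)‖ := by congr 1; ring
            _ ≤ _ := norm_sub_le _ _
        nlinarith [norm_nonneg u]
      have hzs : z s ≠ 0 := by
        intro h0
        have := hz s hs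
        rw [h0, norm_zero] at this
        linarith
      have hexp : Complex.exp u - 1 = (z t - z s) / z s := by
        rw [hu, Complex.exp_sub, hle t htm, hle s hs]
        field_simp
      have hb : ‖Complex.exp u - 1‖ ≤ (V t - V s) / ρ := by
        rw [hexp, norm_div]
        have := hzV s hs t htm ht2.1.le
        calc ‖z t - z s‖ / ‖z s‖ ≤ (V t - V s) / ‖z s‖ := by gcongr
          _ ≤ (V t - V s) / ρ := by
              apply div_le_div_of_nonneg_left _ hρ (hz s hs)
              exact (norm_nonneg _).trans this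
      calc ‖l t - l a‖ = ‖u + (l s - l a)‖ := by rw [hu]; congr 1; ring
        _ ≤ ‖u‖ + ‖l s - l a‖ := norm_add_le _ _
        _ ≤ 2 * ((V t - V s) / ρ) + 2 / ρ * (V s - V a) := by
            have := hu2.trans (mul_le_mul_of_nonneg_left hb (by norm_num : (0:ℝ) ≤ 2))
            linarith
        _ = 2 / ρ * (V t - V a) := by ring
  exact (hsub (right_mem_Icc.mpr hab)).2




variable {n : ℕ}

lemma int_bdd_smul {α F : Type*} {mα : MeasurableSpace α} {μ : Measure α} [NormedAddCommGroup F]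
    [NormedSpace ℝ F] {f : α → F} {φ : α → ℝ} (hf : Integrable f μ) (C : ℝ)
    (h1 : AEStronglyMeasurable φ μ) (h2 : ∀ a, ‖φ a‖ ≤ C) :
    Integrable (fun x => φ x • f x) μ :=
  hf.bdd_smul C h1 (Filter.Eventually.of_forall h2)

/-- joint integrability of the translated differential -/
lemma integrable_shear {G : Eu n → (Eu n →L[ℝ] Eu n)} (hGm : StronglyMeasurable G)
    (hGi : Integrable G) (v : Eu n) (s : Set ℝ) (hs : volume s ≠ ⊤) :
    Integrable (fun p : Eu n × ℝ => G (p.1 + p.2 • v) v) (volume.prod (volume.restrict s)) := by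
  have : IsFiniteMeasure ((volume : Measure ℝ).restrict s) :=
    ⟨by rw [Measure.restrict_apply_univ]; exact lt_top_iff_ne_top.mpr hs⟩
  have hm : AEStronglyMeasurable (fun p : Eu n × ℝ => G (p.1 + p.2 • v) v)
      ((volume : Measure (Eu n)).prod (volume.restrict s)) := by
    have h1 : StronglyMeasurable (fun p : Eu n × ℝ => G (p.1 + p.2 • v)) :=
      hGm.comp_measurable (by fun_prop)
    exact (h1.aestronglyMeasurable).apply_continuousLinearMap v
  rw [integrable_prod_iff' hm]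
  have hGv : Integrable (fun x => G x v) := hGi.apply_continuousLinearMap v
  constructor
  · filter_upwards with t
    exact hGv.comp_add_right (t • v)
  · have : (fun y : ℝ => ∫ x : Eu n, ‖G ((x, y).1 + (x, y).2 • v) v‖) = fun _ => ∫ x : Eu n, ‖G x v‖ := by
      ext y
      exact integral_add_right_eq_self (μ := (volume : Measure (Eu n))) (fun x => ‖G x v‖) (y • v)
    rw [this]
    exact integrable_const _

/-- tested version of absolute continuity along lines -/
lemma acl_test {Ω B : Set (Eu n)} {g : Eu n → Eu n}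
    (hg : ContinuousOn g Ω) {G : Eu n → (Eu n →L[ℝ] Eu n)} (hGm : StronglyMeasurable G)
    (hGi : Integrable G) (hw : IsWeakDiff Ω g G) (v : Eu n)
    (hBv : ∀ x ∈ B, ∀ t ∈ Icc (0 : ℝ) 1, x + t • v ∈ Ω) {h : ℝ} (hh : h ∈ Icc (0 : ℝ) 1)
    {φ : Eu n → ℝ} (hφ : ContDiff ℝ ((⊤ : ℕ∞) : WithTop ℕ∞) φ) (hc : HasCompactSupport φ)
    (hs : tsupport φ ⊆ B) :
    (∫ x, φ x • g (x + h • v)) - (∫ x, φ x • g x) =
      ∫ x, φ x • ∫ t in Ioc 0 h, G (x + t • v) v := by
  -- compact sweep
  set K : Set (Eu n) := (fun p : Eu n × ℝ => p.1 + p.2 • v) '' (tsupport φ ×ˢ Icc (0 : ℝ) 1) with hK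
  have hKc : IsCompact K := by
    apply IsCompact.image
    · exact hc.isCompact.prod isCompact_Icc
    · fun_prop
  have hKΩ : K ⊆ Ω := by
    rintro _ ⟨⟨x, t⟩, ⟨hx, ht⟩, rfl⟩
    exact hBv x (hs hx) t ht
  have hmem : ∀ x ∈ tsupport φ, ∀ t ∈ Icc (0 : ℝ) 1, x + t • v ∈ K := fun x hx t ht =>
    ⟨(x, t), ⟨hx, ht⟩, rfl⟩
  set g0 : Eu n → Eu n := K.indicator g with hg0
  have hg0i : Integrable g0 := by
    rw [hg0, integrable_indicator_iff hKc.measurableSet]
    exact (hg.mono hKΩ).integrableOn_compact hKc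
  have hφz : ∀ x, x ∉ tsupport φ → φ x = 0 := fun x hx => image_eq_zero_of_notMem_tsupport hx
  -- first identity
  have e1 : ∀ t ∈ Icc (0 : ℝ) 1, ∫ x, φ x • g (x + t • v) = ∫ x, φ (x - t • v) • g0 x := by
    intro t ht
    have a1 : ∫ x, φ x • g (x + t • v) = ∫ x, φ x • g0 (x + t • v) := by
      congr 1; ext1 x
      by_cases hx : x ∈ tsupport φ
      · rw [hg0, indicator_of_mem (hmem x hx t ht)]
      · rw [hφz x hx, zero_smul, zero_smul]
    rw [a1]
    have a2 := integral_add_right_eq_self (μ := (volume : Measure (Eu n)))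
      (fun x => φ (x - t • v) • g0 x) (t • v)
    rw [← a2]
    simp
  have e10 := e1 0 (by norm_num)
  simp only [zero_smul, add_zero, sub_zero] at e10
  have hφb : ∃ C, ∀ x, ‖φ x‖ ≤ C := hc.exists_bound_of_continuous hφ.continuous
  obtain ⟨C, hC⟩ := hφb
  have hφ'c : Continuous (fun x => fderiv ℝ φ x v) :=
    (hφ.continuous_fderiv (by simp)).clm_apply continuous_const
  have hφ's : HasCompactSupport (fun x => fderiv ℝ φ x v) := hc.fderiv_apply (𝕜 := ℝ) v
  obtain ⟨C', hC'⟩ := hφ's.exists_bound_of_continuous hφ'c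
  have hint : ∀ t : ℝ, Integrable (fun x => φ (x - t • v) • g0 x) := by
    intro t
    exact int_bdd_smul hg0i C
      (hφ.continuous.comp (by fun_prop : Continuous fun x : Eu n => x - t • v)).aestronglyMeasurable
      (fun x => hC _)
  have ftc : ∀ x : Eu n, φ (x - h • v) - φ x = - ∫ t in Ioc 0 h, fderiv ℝ φ (x - t • v) v := by
    intro x
    have hd : ∀ t ∈ uIcc 0 h, HasDerivAt (fun t : ℝ => φ (x - t • v)) (-(fderiv ℝ φ (x - t • v) v)) t := by
      intro t _
      have a1 : HasDerivAt (fun t : ℝ => x - t • v) (-v) t := by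
        simpa using ((hasDerivAt_id t).smul_const v).const_sub x
      have a2 : HasFDerivAt φ (fderiv ℝ φ (x - t • v)) (x - t • v) :=
        (hφ.differentiable (by simp) _).hasFDerivAt
      have a3 := a2.comp_hasDerivAt t a1
      rw [map_neg] at a3
      exact a3
    have hi : IntervalIntegrable (fun t : ℝ => -(fderiv ℝ φ (x - t • v) v)) volume 0 h := by
      apply Continuous.intervalIntegrable
      exact (hφ'c.comp (by fun_prop : Continuous fun t : ℝ => x - t • v)).neg
    have := intervalIntegral.integral_eq_sub_of_hasDerivAt hd hi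
    rw [intervalIntegral.integral_of_le hh.1] at this
    simp only [zero_smul, sub_zero, integral_neg] at this
    rw [← this]
  rw [e1 h hh, e10, ← integral_sub (hint h) (by simpa using hint 0)]
  have e2 : ∀ x, φ (x - h • v) • g0 x - φ x • g0 x =
      - ∫ t in Ioc 0 h, (fderiv ℝ φ (x - t • v) v) • g0 x := by
    intro x
    rw [← sub_smul, ftc x, neg_smul, integral_smul_const]
  simp only [e2]
  rw [integral_neg]
  have hfin : IsFiniteMeasure ((volume : Measure ℝ).restrict (Ioc 0 h)) := by infer_instance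
  have hprod1 : Integrable (fun p : Eu n × ℝ => (fderiv ℝ φ (p.1 - p.2 • v) v) • g0 p.1)
      ((volume : Measure (Eu n)).prod (volume.restrict (Ioc 0 h))) := by
    have a1 : Integrable (fun p : Eu n × ℝ => g0 p.1)
      ((volume : Measure (Eu n)).prod (volume.restrict (Ioc 0 h))) := hg0i.comp_fst _
    exact int_bdd_smul a1 C'
      (hφ'c.comp (by fun_prop : Continuous fun p : Eu n × ℝ => p.1 - p.2 • v)).aestronglyMeasurable
      (fun p => hC' _)
  rw [integral_integral_swap (f := fun x t => (fderiv ℝ φ (x - t • v) v) • g0 x) hprod1]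
  have e3 : ∀ t ∈ Ioc 0 h, ∫ x, (fderiv ℝ φ (x - t • v) v) • g0 x = - ∫ x, φ x • (G (x + t • v) v) := by
    intro t ht
    have ht1 : t ∈ Icc (0 : ℝ) 1 := ⟨ht.1.le, ht.2.trans hh.2⟩
    set ψ : Eu n → ℝ := fun x => φ (x - t • v) with hψ
    have hψc : ContDiff ℝ ((⊤ : ℕ∞) : WithTop ℕ∞) ψ := hφ.comp (by fun_prop)
    have hψd : ∀ x, fderiv ℝ ψ x = fderiv ℝ φ (x - t • v) := by
      intro x
      have a1 : HasFDerivAt φ (fderiv ℝ φ (x - t • v)) (x - t • v) :=
        (hφ.differentiable (by simp) _).hasFDerivAt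
      have a2 : HasFDerivAt (fun x : Eu n => x - t • v) (ContinuousLinearMap.id ℝ (Eu n)) x :=
        (hasFDerivAt_id x).sub_const _
      have a3 := a1.comp x a2
      rw [ContinuousLinearMap.comp_id] at a3
      exact a3.fderiv
    have htsub : tsupport ψ ⊆ K := by
      have : tsupport ψ ⊆ (fun x => x + t • v) '' tsupport φ := by
        have hcl : IsClosed ((fun x => x + t • v) '' tsupport φ) :=
          (hc.isCompact.image (by fun_prop)).isClosed
        apply closure_minimal _ hcl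
        intro x hx
        exact ⟨x - t • v, subset_tsupport _ hx, by simp⟩
      exact this.trans (by rintro _ ⟨x, hx, rfl⟩; exact hmem x hx t ht1)
    have hψcs : HasCompactSupport ψ := hKc.of_isClosed_subset (isClosed_tsupport _) htsub
    have a1 := hw ψ hψc hψcs (htsub.trans hKΩ) v
    have a2 : ∫ x in Ω, (fderiv ℝ ψ x v) • g x = ∫ x, (fderiv ℝ ψ x v) • g0 x := by
      have b1 : ∀ x, (fderiv ℝ ψ x v) • g0 x = K.indicator (fun x => (fderiv ℝ ψ x v) • g x) x := by
        intro x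
        by_cases hx : x ∈ K
        · rw [indicator_of_mem hx, hg0, indicator_of_mem hx]
        · rw [indicator_of_notMem hx, hg0, indicator_of_notMem hx, smul_zero]
      simp only [b1]
      rw [integral_indicator hKc.measurableSet]
      have b2 : ∀ x, x ∉ K → fderiv ℝ ψ x v = 0 := by
        intro x hx
        have : x ∉ tsupport (fun x => fderiv ℝ ψ x v) := fun h' =>
          hx (htsub (tsupport_fderiv_apply_subset ℝ v h'))
        exact image_eq_zero_of_notMem_tsupport (f := fun x => fderiv ℝ ψ x v) this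
      rw [setIntegral_eq_integral_of_forall_compl_eq_zero, setIntegral_eq_integral_of_forall_compl_eq_zero]
      · intro x hx; rw [b2 x hx, zero_smul]
      · intro x hx; rw [b2 x (fun h' => hx (hKΩ h')), zero_smul]
    have a3 : ∫ x in Ω, ψ x • (G x v) = ∫ x, ψ x • (G x v) := by
      apply setIntegral_eq_integral_of_forall_compl_eq_zero
      intro x hx
      have : x ∉ tsupport ψ := fun h' => hx (hKΩ (htsub h'))
      rw [image_eq_zero_of_notMem_tsupport this, zero_smul]
    have a4 : ∫ x, ψ x • (G x v) = ∫ x, φ x • (G (x + t • v) v) := by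
      have := integral_add_right_eq_self (μ := (volume : Measure (Eu n)))
        (fun x => ψ x • (G x v)) (t • v)
      rw [← this]
      simp [hψ]
    simp only [← hψd]
    rw [← a2, a1, a3, a4]
  rw [setIntegral_congr_fun measurableSet_Ioc e3, integral_neg, neg_neg]
  have hprod2 : Integrable (fun p : Eu n × ℝ => φ p.1 • (G (p.1 + p.2 • v) v))
      ((volume : Measure (Eu n)).prod (volume.restrict (Ioc 0 h))) := by
    have a1 := integrable_shear hGm hGi v (Ioc 0 h) (by simp)
    exact int_bdd_smul a1 C (hφ.continuous.comp continuous_fst).aestronglyMeasurable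
      (fun p => hC _)
  rw [← integral_integral_swap (f := fun x t => φ x • (G (x + t • v) v)) hprod2]
  congr 1; ext1 x
  rw [integral_smul]

lemma integrable_smul_of_locallyIntegrableOn {Ω : Set (Eu n)} {G : Type*} [NormedAddCommGroup G]
    [NormedSpace ℝ G] {g : Eu n → G} (hg : LocallyIntegrableOn g Ω) {φ : Eu n → ℝ}
    (hφ : Continuous φ) (hc : HasCompactSupport φ) (hs : tsupport φ ⊆ Ω) :
    Integrable (fun x => φ x • g x) := by
  have h1 : IntegrableOn g (tsupport φ) := hg.integrableOn_compact_subset hs hc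
  have h2 : IntegrableOn (fun x => φ x • g x) (tsupport φ) :=
    h1.continuousOn_smul hφ.continuousOn hc
  rwa [integrableOn_iff_integrable_of_support_subset] at h2
  intro x hx
  by_contra h
  exact hx (by simp [image_eq_zero_of_notMem_tsupport h])

/-- Absolute continuity along almost every segment in direction `v`. -/
lemma acl {Ω B : Set (Eu n)} (hB : IsOpen B) {g : Eu n → Eu n}
    (hg : ContinuousOn g Ω) {G : Eu n → (Eu n →L[ℝ] Eu n)} (hGm : StronglyMeasurable G)
    (hGi : Integrable G) (hw : IsWeakDiff Ω g G) (v : Eu n)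
    (hBv : ∀ x ∈ B, ∀ t ∈ Icc (0 : ℝ) 1, x + t • v ∈ Ω) :
    ∀ᵐ x : Eu n, x ∈ B → (IntegrableOn (fun t : ℝ => G (x + t • v) v) (Ioc 0 1) ∧
      ∀ h ∈ Icc (0 : ℝ) 1, g (x + h • v) - g x = ∫ t in Ioc 0 h, G (x + t • v) v) := by
  -- fixed `h`
  have hfix : ∀ h ∈ Icc (0 : ℝ) 1, ∀ᵐ x : Eu n, x ∈ B →
      g (x + h • v) - g x - ∫ t in Ioc 0 h, G (x + t • v) v = 0 := by
    intro h hh
    have c1 : ContinuousOn (fun x => g (x + h • v)) B := by
      apply hg.comp (by fun_prop)
      intro x hx; exact hBv x hx h hh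
    have c2 : ContinuousOn g B := hg.mono fun x hx => by simpa using hBv x hx 0 (by norm_num)
    have i1 := c1.locallyIntegrableOn (μ := volume) hB.measurableSet
    have i2 := c2.locallyIntegrableOn (μ := volume) hB.measurableSet
    have i3 : Integrable (fun x => ∫ t in Ioc 0 h, G (x + t • v) v) :=
      (integrable_shear hGm hGi v (Ioc 0 h) (by simp)).integral_prod_left
    have i3' : LocallyIntegrableOn (fun x => ∫ t in Ioc 0 h, G (x + t • v) v) B :=
      i3.locallyIntegrable.locallyIntegrableOn B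
    apply hB.ae_eq_zero_of_integral_contDiff_smul_eq_zero ((i1.sub i2).sub i3')
    intro φ hφ hc hs
    have key := acl_test hg hGm hGi hw v hBv hh hφ hc hs
    have j1 := integrable_smul_of_locallyIntegrableOn i1 hφ.continuous hc hs
    have j2 := integrable_smul_of_locallyIntegrableOn i2 hφ.continuous hc hs
    have j3 := integrable_smul_of_locallyIntegrableOn i3' hφ.continuous hc hs
    simp only [Pi.sub_apply, smul_sub]
    rw [integral_sub (f := fun x => φ x • g (x + h • v) - φ x • g x) (j1.sub j2) j3,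
      integral_sub j1 j2, key, sub_self]
  -- all rational `h`
  have hrat : ∀ᵐ x : Eu n, ∀ q : ℚ, (q : ℝ) ∈ Icc (0 : ℝ) 1 → x ∈ B →
      g (x + (q : ℝ) • v) - g x - ∫ t in Ioc 0 (q : ℝ), G (x + t • v) v = 0 := by
    rw [ae_all_iff]
    intro q
    by_cases hq : (q : ℝ) ∈ Icc (0 : ℝ) 1
    · filter_upwards [hfix q hq] with x hx _ using hx
    · filter_upwards with x h; exact absurd h hq
  have hae : ∀ᵐ x : Eu n, Integrable (fun t : ℝ => G (x + t • v) v) (volume.restrict (Ioc 0 1)) :=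
    (integrable_shear hGm hGi v (Ioc 0 1) (by simp)).prod_right_ae
  filter_upwards [hrat, hae] with x hx hxi hxB
  refine ⟨hxi, ?_⟩
  -- continuity in `h`
  have hii : IntegrableOn (fun t : ℝ => G (x + t • v) v) (Icc 0 1) :=
    (integrableOn_Icc_iff_integrableOn_Ioc).mpr hxi
  have c1 : ContinuousOn (fun h : ℝ => g (x + h • v) - g x) (Icc 0 1) := by
    apply ContinuousOn.sub _ continuousOn_const
    apply hg.comp (by fun_prop)
    intro h hh; exact hBv x hxB h hh
  have c2 : ContinuousOn (fun h : ℝ => ∫ t in Ioc 0 h, G (x + t • v) v) (Icc 0 1) := by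
    have := intervalIntegral.continuousOn_primitive (f := fun t : ℝ => G (x + t • v) v) hii
    exact this
  have heq : EqOn (fun h : ℝ => g (x + h • v) - g x) (fun h : ℝ => ∫ t in Ioc 0 h, G (x + t • v) v)
      (Icc 0 1) := by
    have hcl : Icc (0 : ℝ) 1 ⊆ closure (Ioo (0 : ℝ) 1 ∩ range ((↑) : ℚ → ℝ)) := by
      have h1 : Ioo (0 : ℝ) 1 ⊆ closure (Ioo (0 : ℝ) 1 ∩ range ((↑) : ℚ → ℝ)) :=
        Dense.open_subset_closure_inter (Rat.denseRange_cast (𝕜 := ℝ)) isOpen_Ioo
      rw [← closure_Ioo (zero_ne_one' ℝ)]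
      exact closure_minimal h1 isClosed_closure
    refine EqOn.of_subset_closure ?_ c1 c2 (inter_subset_left.trans Ioo_subset_Icc_self) hcl
    rintro h ⟨hh, ⟨q, rfl⟩⟩
    have := hx q (Ioo_subset_Icc_self hh) hxB
    exact sub_eq_zero.mp this
  exact heq

/-- clamping to `[0,1]` -/
def cl (s : ℝ) : ℝ := max 0 (min s 1)

lemma cl_continuous : Continuous cl := by unfold cl; fun_prop

lemma cl_mem (s : ℝ) : cl s ∈ Icc (0 : ℝ) 1 :=
  ⟨le_max_left _ _, max_le (by norm_num) (min_le_right _ _)⟩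

lemma cl_mono {s t : ℝ} (h : s ≤ t) : cl s ≤ cl t := by
  unfold cl; gcongr

lemma cl_of_mem {s : ℝ} (h0 : 0 ≤ s) (h1 : s ≤ 1) : cl s = s := by
  unfold cl; rw [min_eq_left h1, max_eq_right h0]

lemma cl_of_nonpos {s : ℝ} (h0 : s ≤ 0) : cl s = 0 := by
  unfold cl
  rw [min_eq_left (by linarith), max_eq_left h0]

lemma cl_of_one_le {s : ℝ} (h1 : 1 ≤ s) : cl s = 1 := by
  unfold cl; rw [min_eq_right h1, max_eq_right (by norm_num)]

/-- the rectangular loop based at `x` -/
def rloop (v1 v2 x : Eu n) (s : ℝ) : Eu n :=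
  x + cl s • v2 + cl (s - 1) • v1 + cl (s - 2) • (-v2) + cl (s - 3) • (-v1)

lemma rloop_continuous (v1 v2 x : Eu n) : Continuous (rloop v1 v2 x) := by
  have := cl_continuous
  unfold rloop; fun_prop

lemma rloop_0 (v1 v2 x : Eu n) {s : ℝ} (h0 : 0 ≤ s) (h1 : s ≤ 1) :
    rloop v1 v2 x s = x + s • v2 := by
  unfold rloop
  rw [cl_of_mem h0 h1, cl_of_nonpos (by linarith : s - 1 ≤ 0), cl_of_nonpos (by linarith : s - 2 ≤ 0),
    cl_of_nonpos (by linarith : s - 3 ≤ 0)]
  simp

lemma rloop_1 (v1 v2 x : Eu n) {s : ℝ} (h0 : 1 ≤ s) (h1 : s ≤ 2) :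
    rloop v1 v2 x s = (x + v2) + (s - 1) • v1 := by
  unfold rloop
  rw [cl_of_one_le h0, cl_of_mem (by linarith) (by linarith), cl_of_nonpos (by linarith : s - 2 ≤ 0),
    cl_of_nonpos (by linarith : s - 3 ≤ 0)]
  simp

lemma rloop_2 (v1 v2 x : Eu n) {s : ℝ} (h0 : 2 ≤ s) (h1 : s ≤ 3) :
    rloop v1 v2 x s = (x + v2 + v1) + (s - 2) • (-v2) := by
  unfold rloop
  rw [cl_of_one_le (by linarith : 1 ≤ s), cl_of_one_le (by linarith : 1 ≤ s - 1),
    cl_of_mem (by linarith) (by linarith), cl_of_nonpos (by linarith : s - 3 ≤ 0)]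
  simp

lemma rloop_3 (v1 v2 x : Eu n) {s : ℝ} (h0 : 3 ≤ s) (h1 : s ≤ 4) :
    rloop v1 v2 x s = (x + v1) + (s - 3) • (-v1) := by
  unfold rloop
  rw [cl_of_one_le (by linarith : 1 ≤ s), cl_of_one_le (by linarith : 1 ≤ s - 1),
    cl_of_one_le (by linarith : 1 ≤ s - 2), cl_of_mem (by linarith) (by linarith)]
  simp
  abel

/-- one side: increment bound -/
lemma side_bound {g : Eu n → Eu n} {G : Eu n → (Eu n →L[ℝ] Eu n)} {y d : Eu n}
    (hi : IntegrableOn (fun t : ℝ => G (y + t • d) d) (Ioc 0 1))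
    (he : ∀ h ∈ Icc (0 : ℝ) 1, g (y + h • d) - g y = ∫ t in Ioc 0 h, G (y + t • d) d)
    {a b : ℝ} (ha : 0 ≤ a) (hab : a ≤ b) (hb : b ≤ 1) :
    ‖g (y + b • d) - g (y + a • d)‖ ≤
      (∫ t in Ioc 0 b, ‖G (y + t • d) d‖) - ∫ t in Ioc 0 a, ‖G (y + t • d) d‖ := by
  have ii : ∀ u v : ℝ, 0 ≤ u → u ≤ 1 → 0 ≤ v → v ≤ 1 →
      IntervalIntegrable (fun t : ℝ => G (y + t • d) d) volume u v := by
    intro u v hu0 hu1 hv0 hv1
    rw [intervalIntegrable_iff]
    apply hi.mono_set
    intro t ht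
    rcases le_total u v with h | h
    · rw [uIoc_of_le h] at ht; exact ⟨lt_of_le_of_lt hu0 ht.1, ht.2.trans hv1⟩
    · rw [uIoc_of_ge h] at ht; exact ⟨lt_of_le_of_lt hv0 ht.1, ht.2.trans hu1⟩
  have hb0 : 0 ≤ b := ha.trans hab
  have ha1 : a ≤ 1 := hab.trans hb
  have h1 : g (y + b • d) - g (y + a • d) =
      (∫ t in (0 : ℝ)..b, G (y + t • d) d) - ∫ t in (0 : ℝ)..a, G (y + t • d) d := by
    rw [intervalIntegral.integral_of_le hb0, intervalIntegral.integral_of_le ha,
      ← he b ⟨hb0, hb⟩, ← he a ⟨ha, ha1⟩]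
    abel
  rw [h1, intervalIntegral.integral_interval_sub_left (ii 0 b le_rfl zero_le_one hb0 hb)
    (ii 0 a le_rfl zero_le_one ha ha1)]
  rw [← intervalIntegral.integral_of_le hb0, ← intervalIntegral.integral_of_le ha,
    intervalIntegral.integral_interval_sub_left (ii 0 b le_rfl zero_le_one hb0 hb).norm
    (ii 0 a le_rfl zero_le_one ha ha1).norm]
  exact intervalIntegral.norm_integral_le_integral_norm hab

/-- the good event along one side -/
def Good (g : Eu n → Eu n) (G : Eu n → (Eu n →L[ℝ] Eu n)) (y d : Eu n) : Prop :=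
  IntegrableOn (fun t : ℝ => G (y + t • d) d) (Ioc 0 1) ∧
    ∀ h ∈ Icc (0 : ℝ) 1, g (y + h • d) - g y = ∫ t in Ioc 0 h, G (y + t • d) d

lemma good_ae {Ω B : Set (Eu n)} (hB : IsOpen B) {g : Eu n → Eu n}
    (hg : ContinuousOn g Ω) {G : Eu n → (Eu n →L[ℝ] Eu n)} (hGm : StronglyMeasurable G)
    (hGi : Integrable G) (hw : IsWeakDiff Ω g G) (c d : Eu n)
    (hBv : ∀ x ∈ B, ∀ t ∈ Icc (0 : ℝ) 1, x + c + t • d ∈ Ω) :
    ∀ᵐ x : Eu n, x ∈ B → Good g G (x + c) d := by
  set B' : Set (Eu n) := (fun y => y - c) ⁻¹' B with hB'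
  have hB'o : IsOpen B' := hB.preimage (by fun_prop)
  have h := acl (Ω := Ω) hB'o hg hGm hGi hw d (by
    intro y hy t ht
    have := hBv (y - c) hy t ht
    simpa using this)
  have hq : Measure.QuasiMeasurePreserving (fun x : Eu n => x + c) volume volume :=
    (measurePreserving_add_right volume c).quasiMeasurePreserving
  filter_upwards [hq.ae h] with x hx hxB
  exact hx (by simpa [hB'] using hxB)

/-- The variation function of the loop. -/
def Vf (G : Eu n → (Eu n →L[ℝ] Eu n)) (v1 v2 x : Eu n) (s : ℝ) : ℝ :=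
  (∫ t in Ioc 0 (cl s), ‖G (x + 0 + t • v2) v2‖) + (∫ t in Ioc 0 (cl (s - 1)), ‖G (x + v2 + t • v1) v1‖) +
  (∫ t in Ioc 0 (cl (s - 2)), ‖G (x + (v2 + v1) + t • (-v2)) (-v2)‖) +
  (∫ t in Ioc 0 (cl (s - 3)), ‖G (x + v1 + t • (-v1)) (-v1)‖)

lemma Vf_continuousOn {g : Eu n → Eu n} {G : Eu n → (Eu n →L[ℝ] Eu n)} {v1 v2 x : Eu n}
    (h0 : Good g G (x + 0) v2) (h1 : Good g G (x + v2) v1) (h2 : Good g G (x + (v2 + v1)) (-v2))
    (h3 : Good g G (x + v1) (-v1)) : Continuous (Vf G v1 v2 x) := by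
  have key : ∀ (y d : Eu n) (r : ℝ), Good g G y d →
      Continuous (fun s : ℝ => ∫ t in Ioc 0 (cl (s - r)), ‖G (y + t • d) d‖) := by
    intro y d r hG
    have hii : IntegrableOn (fun t : ℝ => ‖G (y + t • d) d‖) (Icc 0 1) :=
      (integrableOn_Icc_iff_integrableOn_Ioc).mpr hG.1.norm
    have := intervalIntegral.continuousOn_primitive hii
    have hc : Continuous (fun s : ℝ => cl (s - r)) := cl_continuous.comp (by fun_prop)
    exact this.comp_continuous hc fun s => cl_mem _
  have k0 := key _ _ 0 h0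
  simp only [sub_zero] at k0
  exact ((k0.add (key _ _ 1 h1)).add (key _ _ 2 h2)).add (key _ _ 3 h3)

lemma loop_increment {g : Eu n → Eu n} {G : Eu n → (Eu n →L[ℝ] Eu n)} {v1 v2 x : Eu n}
    (h0 : Good g G (x + 0) v2) (h1 : Good g G (x + v2) v1) (h2 : Good g G (x + (v2 + v1)) (-v2))
    (h3 : Good g G (x + v1) (-v1)) {s t : ℝ} (hs : s ∈ Icc (0 : ℝ) 4) (ht : t ∈ Icc (0 : ℝ) 4)
    (hst : s ≤ t) :
    ‖g (rloop v1 v2 x t) - g (rloop v1 v2 x s)‖ ≤ Vf G v1 v2 x t - Vf G v1 v2 x s := by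
  -- telescoping representation
  have rep : ∀ r ∈ Icc (0 : ℝ) 4, g (rloop v1 v2 x r) = g x +
      (g (x + 0 + cl r • v2) - g (x + 0 + (0 : ℝ) • v2)) +
      (g (x + v2 + cl (r - 1) • v1) - g (x + v2 + (0 : ℝ) • v1)) +
      (g (x + (v2 + v1) + cl (r - 2) • (-v2)) - g (x + (v2 + v1) + (0 : ℝ) • (-v2))) +
      (g (x + v1 + cl (r - 3) • (-v1)) - g (x + v1 + (0 : ℝ) • (-v1))) := by
    intro r hr
    rcases le_total r 1 with c1 | c1
    · rw [rloop_0 _ _ _ hr.1 c1, cl_of_mem hr.1 c1, cl_of_nonpos (by linarith : r - 1 ≤ 0),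
        cl_of_nonpos (by linarith : r - 2 ≤ 0), cl_of_nonpos (by linarith : r - 3 ≤ 0)]
      simp
    · rcases le_total r 2 with c2 | c2
      · rw [rloop_1 _ _ _ c1 c2, cl_of_one_le c1, cl_of_mem (by linarith) (by linarith),
          cl_of_nonpos (by linarith : r - 2 ≤ 0), cl_of_nonpos (by linarith : r - 3 ≤ 0)]
        simp
      · rcases le_total r 3 with c3 | c3
        · rw [rloop_2 _ _ _ c2 c3, cl_of_one_le c1, cl_of_one_le (by linarith : 1 ≤ r - 1),
            cl_of_mem (by linarith) (by linarith), cl_of_nonpos (by linarith : r - 3 ≤ 0)]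
          simp [add_assoc]
        · rw [rloop_3 _ _ _ c3 hr.2, cl_of_one_le c1, cl_of_one_le (by linarith : 1 ≤ r - 1),
            cl_of_one_le (by linarith : 1 ≤ r - 2), cl_of_mem (by linarith) (by linarith [hr.2])]
          have e1 : x + (v2 + v1) + (1 : ℝ) • -v2 = x + v1 := by rw [one_smul]; abel
          rw [e1]
          simp [add_assoc]
  have b0 := side_bound h0.1 h0.2 (cl_mem s).1 (cl_mono hst) (cl_mem t).2
  have b1 := side_bound h1.1 h1.2 (cl_mem (s - 1)).1 (cl_mono (by linarith : s - 1 ≤ t - 1)) (cl_mem (t - 1)).2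
  have b2 := side_bound h2.1 h2.2 (cl_mem (s - 2)).1 (cl_mono (by linarith : s - 2 ≤ t - 2)) (cl_mem (t - 2)).2
  have b3 := side_bound h3.1 h3.2 (cl_mem (s - 3)).1 (cl_mono (by linarith : s - 3 ≤ t - 3)) (cl_mem (t - 3)).2
  rw [rep t ht, rep s hs]
  have e : (g x +
      (g (x + 0 + cl t • v2) - g (x + 0 + (0 : ℝ) • v2)) +
      (g (x + v2 + cl (t - 1) • v1) - g (x + v2 + (0 : ℝ) • v1)) +
      (g (x + (v2 + v1) + cl (t - 2) • (-v2)) - g (x + (v2 + v1) + (0 : ℝ) • (-v2))) +
      (g (x + v1 + cl (t - 3) • (-v1)) - g (x + v1 + (0 : ℝ) • (-v1)))) - (g x +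
      (g (x + 0 + cl s • v2) - g (x + 0 + (0 : ℝ) • v2)) +
      (g (x + v2 + cl (s - 1) • v1) - g (x + v2 + (0 : ℝ) • v1)) +
      (g (x + (v2 + v1) + cl (s - 2) • (-v2)) - g (x + (v2 + v1) + (0 : ℝ) • (-v2))) +
      (g (x + v1 + cl (s - 3) • (-v1)) - g (x + v1 + (0 : ℝ) • (-v1)))) =
      (g (x + 0 + cl t • v2) - g (x + 0 + cl s • v2)) +
      (g (x + v2 + cl (t - 1) • v1) - g (x + v2 + cl (s - 1) • v1)) +
      (g (x + (v2 + v1) + cl (t - 2) • (-v2)) - g (x + (v2 + v1) + cl (s - 2) • (-v2))) +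
      (g (x + v1 + cl (t - 3) • (-v1)) - g (x + v1 + cl (s - 3) • (-v1))) := by abel
  rw [e]
  have n1 := norm_add₄_le (a := g (x + 0 + cl t • v2) - g (x + 0 + cl s • v2))
    (b := g (x + v2 + cl (t - 1) • v1) - g (x + v2 + cl (s - 1) • v1))
    (c := g (x + (v2 + v1) + cl (t - 2) • (-v2)) - g (x + (v2 + v1) + cl (s - 2) • (-v2)))
    (d := g (x + v1 + cl (t - 3) • (-v1)) - g (x + v1 + cl (s - 3) • (-v1)))
  unfold Vf
  linarith

/-- total length of one side as a function of the base point -/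
def psi (G : Eu n → (Eu n →L[ℝ] Eu n)) (d y : Eu n) : ℝ := ∫ t in Ioc (0 : ℝ) 1, ‖G (y + t • d) d‖

lemma psi_integrable {G : Eu n → (Eu n →L[ℝ] Eu n)} (hGm : StronglyMeasurable G)
    (hGi : Integrable G) (d : Eu n) : Integrable (psi G d) :=
  (integrable_shear hGm hGi d (Ioc 0 1) (by simp)).norm.integral_prod_left

lemma integral_psi {G : Eu n → (Eu n →L[ℝ] Eu n)} (hGm : StronglyMeasurable G)
    (hGi : Integrable G) (d : Eu n) : ∫ y, psi G d y = ∫ x, ‖G x d‖ := by
  have h := (integrable_shear hGm hGi d (Ioc 0 1) (by simp)).norm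
  unfold psi
  rw [integral_integral_swap (f := fun (y : Eu n) (t : ℝ) => ‖G (y + t • d) d‖) h]
  have e : ∀ t : ℝ, ∫ x : Eu n, ‖G (x + t • d) d‖ = ∫ x, ‖G x d‖ := fun t =>
    integral_add_right_eq_self (μ := (volume : Measure (Eu n))) (fun x => ‖G x d‖) (t • d)
  simp only [e]
  simp

/-- a short loop exists if the differential is small -/
lemma exists_loop {Ω B : Set (Eu n)} (hB : IsOpen B) (hBfin : volume B ≠ ⊤) {g : Eu n → Eu n}
    (hg : ContinuousOn g Ω) {G : Eu n → (Eu n →L[ℝ] Eu n)} (hGm : StronglyMeasurable G)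
    (hGi : Integrable G) (hw : IsWeakDiff Ω g G) (v1 v2 : Eu n)
    (hBv : ∀ x ∈ B, ∀ s ∈ Icc (0 : ℝ) 4, rloop v1 v2 x s ∈ Ω) (ε : ℝ)
    (hsmall : 2 * (∫ x, ‖G x v1‖) + 2 * (∫ x, ‖G x v2‖) < ε * (volume B).toReal) :
    ∃ x ∈ B, (Good g G (x + 0) v2 ∧ Good g G (x + v2) v1 ∧ Good g G (x + (v2 + v1)) (-v2) ∧
      Good g G (x + v1) (-v1)) ∧ Vf G v1 v2 x 4 - Vf G v1 v2 x 0 < ε := by
  have g0 := good_ae hB hg hGm hGi hw 0 v2 (by
    intro x hx t ht
    have := hBv x hx t ⟨ht.1, by linarith [ht.2]⟩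
    rw [rloop_0 _ _ _ ht.1 ht.2] at this
    simpa using this)
  have g1 := good_ae hB hg hGm hGi hw v2 v1 (by
    intro x hx t ht
    have := hBv x hx (1 + t) ⟨by linarith [ht.1], by linarith [ht.2]⟩
    rw [rloop_1 _ _ _ (by linarith [ht.1]) (by linarith [ht.2])] at this
    simpa using this)
  have g2 := good_ae hB hg hGm hGi hw (v2 + v1) (-v2) (by
    intro x hx t ht
    have := hBv x hx (2 + t) ⟨by linarith [ht.1], by linarith [ht.2]⟩
    rw [rloop_2 _ _ _ (by linarith [ht.1]) (by linarith [ht.2])] at this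
    simpa [add_assoc] using this)
  have g3 := good_ae hB hg hGm hGi hw v1 (-v1) (by
    intro x hx t ht
    have := hBv x hx (3 + t) ⟨by linarith [ht.1], by linarith [ht.2]⟩
    rw [rloop_3 _ _ _ (by linarith [ht.1]) (by linarith [ht.2])] at this
    simpa [add_assoc] using this)
  by_contra hcon
  push Not at hcon
  have hlen : ∀ x, Vf G v1 v2 x 4 - Vf G v1 v2 x 0 =
      psi G v2 (x + 0) + psi G v1 (x + v2) + psi G (-v2) (x + (v2 + v1)) + psi G (-v1) (x + v1) := by
    intro x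
    unfold Vf psi
    rw [cl_of_one_le (by norm_num : (1 : ℝ) ≤ 4), cl_of_one_le (by norm_num : (1 : ℝ) ≤ 4 - 1),
      cl_of_one_le (by norm_num : (1 : ℝ) ≤ 4 - 2), cl_of_one_le (by norm_num : (1 : ℝ) ≤ 4 - 3),
      cl_of_nonpos (le_refl (0:ℝ)), cl_of_nonpos (by norm_num : (0 : ℝ) - 1 ≤ 0),
      cl_of_nonpos (by norm_num : (0 : ℝ) - 2 ≤ 0), cl_of_nonpos (by norm_num : (0 : ℝ) - 3 ≤ 0)]
    simp
  set L : Eu n → ℝ := fun x =>
      psi G v2 (x + 0) + psi G v1 (x + v2) + psi G (-v2) (x + (v2 + v1)) + psi G (-v1) (x + v1) with hL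
  have i0 : Integrable (fun x => psi G v2 (x + 0)) := (psi_integrable hGm hGi v2).comp_add_right 0
  have i1 : Integrable (fun x => psi G v1 (x + v2)) := (psi_integrable hGm hGi v1).comp_add_right v2
  have i2 : Integrable (fun x => psi G (-v2) (x + (v2 + v1))) :=
    (psi_integrable hGm hGi (-v2)).comp_add_right (v2 + v1)
  have i3 : Integrable (fun x => psi G (-v1) (x + v1)) := (psi_integrable hGm hGi (-v1)).comp_add_right v1
  have i01 : Integrable (fun x => psi G v2 (x + 0) + psi G v1 (x + v2)) := i0.add i1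
  have i012 : Integrable (fun x => psi G v2 (x + 0) + psi G v1 (x + v2) + psi G (-v2) (x + (v2 + v1))) :=
    i01.add i2
  have hLi : Integrable L := i012.add i3
  have hLint : ∫ x, L x = 2 * (∫ x, ‖G x v1‖) + 2 * (∫ x, ‖G x v2‖) := by
    have t : ∀ (d c : Eu n), ∫ x, psi G d (x + c) = ∫ x, ‖G x d‖ := by
      intro d c
      rw [integral_add_right_eq_self (μ := (volume : Measure (Eu n))) (fun x => psi G d x) c,
        integral_psi hGm hGi d]
    simp only [hL]
    rw [integral_add i012 i3, integral_add i01 i2, integral_add i0 i1, t, t, t, t]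
    simp only [map_neg, norm_neg]
    ring
  have hLnn : ∀ x, 0 ≤ L x := by
    intro x
    have : ∀ d y, 0 ≤ psi G d y := fun d y => integral_nonneg fun _ => norm_nonneg _
    simp only [hL]
    linarith [this v2 (x + 0), this v1 (x + v2), this (-v2) (x + (v2 + v1)), this (-v1) (x + v1)]
  have hge : ∀ᵐ x : Eu n, x ∈ B → ε ≤ L x := by
    filter_upwards [g0, g1, g2, g3] with x h0 h1 h2 h3 hx
    have := hcon x hx ⟨h0 hx, h1 hx, h2 hx, h3 hx⟩
    rw [hlen x] at this
    exact this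
  have h1 : ε * (volume B).toReal ≤ ∫ x in B, L x := by
    have : ∫ x in B, ε ≤ ∫ x in B, L x := by
      apply setIntegral_mono_on_ae (integrableOn_const hBfin) hLi.integrableOn hB.measurableSet
      exact hge
    rw [setIntegral_const, smul_eq_mul, mul_comm] at this
    exact this
  have h2 : ∫ x in B, L x ≤ ∫ x, L x := setIntegral_le_integral hLi (Filter.Eventually.of_forall hLnn)
  linarith






lemma exists_cutoff {K Ω : Set (Eu n)} (hK : IsCompact K) (hΩ : IsOpen Ω) (hKΩ : K ⊆ Ω) :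
    ∃ χ : Eu n → ℝ, ContDiff ℝ ((⊤ : ℕ∞) : WithTop ℕ∞) χ ∧ HasCompactSupport χ ∧ tsupport χ ⊆ Ω ∧
      (∀ x, 0 ≤ χ x ∧ χ x ≤ 1) ∧ ∀ x ∈ K, χ x = 1 := by
  obtain ⟨δ, hδ, hδs⟩ := hK.exists_cthickening_subset_open hΩ hKΩ
  have hcomp : IsCompact (cthickening δ K) := by
    apply Metric.isCompact_of_isClosed_isBounded isClosed_cthickening
    exact hK.isBounded.cthickening
  obtain ⟨g, g_smooth, g_range, g_supp, hg⟩ :=
    exists_contMDiff_support_eq_eq_one_iff (modelWithCornersSelf ℝ (Eu n)) (isOpen_thickening (δ := δ) (E := K)) hK.isClosed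
      (self_subset_thickening hδ K)
  have hts : tsupport g ⊆ cthickening δ K := by
    rw [tsupport, g_supp]
    exact closure_thickening_subset_cthickening δ K
  refine ⟨g, g_smooth.contDiff, hcomp.of_isClosed_subset (isClosed_tsupport _) hts,
    hts.trans hδs, fun x => g_range (mem_range_self x), fun x hx => (hg x).1 hx⟩

/-- Smooth compactly supported fields in `Ω` are dense in `L¹(Ω)`. -/
lemma dense_test {Ω : Set (Eu n)} (hΩ : IsOpen Ω) (hfin : volume Ω ≠ ⊤) {h : Eu n → Eu n}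
    (hh : MemLp h 1 (volume.restrict Ω)) {δ : ℝ} (hδ : 0 < δ) :
    ∃ k : Eu n → Eu n, ContDiff ℝ ((⊤ : ℕ∞) : WithTop ℕ∞) k ∧ HasCompactSupport k ∧ tsupport k ⊆ Ω ∧
      ∫ x in Ω, ‖h x - k x‖ ≤ δ := by
  have hfm : IsFiniteMeasure (volume.restrict Ω) :=
    ⟨by rw [Measure.restrict_apply_univ]; exact lt_top_iff_ne_top.mpr hfin⟩
  obtain ⟨g, hgc, hgs, hgn⟩ := hh.exist_eLpNorm_sub_le ENNReal.one_ne_top le_rfl (half_pos hδ)
  obtain ⟨M, hM⟩ := hgc.exists_bound_of_continuous hgs.continuous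
  have hM0 : 0 ≤ M := (norm_nonneg _).trans (hM 0)
  -- a compact subset of almost full measure
  obtain ⟨K, hKΩ, hK, hKm⟩ : ∃ K ⊆ Ω, IsCompact K ∧ volume (Ω \ K) < ENNReal.ofReal (δ / 2 / (M + 1)) := by
    have := hΩ.measurableSet.exists_isCompact_sdiff_lt hfin (ε := ENNReal.ofReal (δ / 2 / (M + 1))) (by
      have : 0 < δ / 2 / (M + 1) := by positivity
      simpa using this)
    exact this
  obtain ⟨χ, hχ, hχc, hχs, hχr, hχ1⟩ := exists_cutoff hK hΩ hKΩ
  have hg1 : MemLp g 1 (volume.restrict Ω) := hgs.continuous.memLp_of_hasCompactSupport hgc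
  have hgi : Integrable g (volume.restrict Ω) := memLp_one_iff_integrable.mp hg1
  have hhi : Integrable h (volume.restrict Ω) := memLp_one_iff_integrable.mp hh
  set k : Eu n → Eu n := fun x => χ x • g x with hk
  have hkc : Continuous k := hχ.continuous.smul hgs.continuous
  have hkcs : HasCompactSupport k := hχc.smul_right
  have hki : Integrable k (volume.restrict Ω) :=
    (hkc.integrable_of_hasCompactSupport hkcs)
  refine ⟨k, hχ.smul hgs, hkcs, (tsupport_smul_subset_left χ g).trans hχs, ?_⟩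
  have ihg : Integrable (fun x => ‖h x - g x‖) (volume.restrict Ω) := (hhi.sub hgi).norm
  have igk : Integrable (fun x => ‖g x - k x‖) (volume.restrict Ω) := (hgi.sub hki).norm
  have ihk : Integrable (fun x => ‖h x - k x‖) (volume.restrict Ω) := (hhi.sub hki).norm
  have e1 : ∫ x in Ω, ‖h x - k x‖ ≤ (∫ x in Ω, ‖h x - g x‖) + ∫ x in Ω, ‖g x - k x‖ := by
    rw [← integral_add ihg igk]
    apply integral_mono ihk (ihg.add igk)
    intro x
    change ‖h x - k x‖ ≤ ‖h x - g x‖ + ‖g x - k x‖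
    calc ‖h x - k x‖ = ‖(h x - g x) + (g x - k x)‖ := by congr 1; abel
      _ ≤ _ := norm_add_le _ _
  have e2 : ∫ x in Ω, ‖h x - g x‖ ≤ δ / 2 := by
    have : eLpNorm (h - g) 1 (volume.restrict Ω) = ENNReal.ofReal (∫ x in Ω, ‖h x - g x‖) := by
      rw [eLpNorm_one_eq_lintegral_enorm]
      exact (ofReal_integral_norm_eq_lintegral_enorm (hhi.sub hgi)).symm
    rw [this] at hgn
    exact (ENNReal.ofReal_le_ofReal_iff (by positivity)).mp hgn
  have e3 : ∫ x in Ω, ‖g x - k x‖ ≤ δ / 2 := by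
    have b1 : ∀ x, ‖g x - k x‖ ≤ (Kᶜ).indicator (fun _ => M) x := by
      intro x
      by_cases hx : x ∈ K
      · rw [indicator_of_notMem (by simpa using hx)]
        simp [hk, hχ1 x hx]
      · rw [indicator_of_mem hx]
        have : g x - k x = (1 - χ x) • g x := by simp [hk, sub_smul]
        rw [this, norm_smul, Real.norm_eq_abs, abs_of_nonneg (by linarith [(hχr x).2])]
        calc (1 - χ x) * ‖g x‖ ≤ 1 * M := by
              gcongr
              · linarith [(hχr x).1]
              · exact hM x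
          _ = M := one_mul M
    have hmK : MeasurableSet (Kᶜ) := hK.measurableSet.compl
    calc ∫ x in Ω, ‖g x - k x‖ ≤ ∫ x in Ω, (Kᶜ).indicator (fun _ => M) x := by
          apply integral_mono (hgi.sub hki).norm _ b1
          exact (integrable_const M).indicator hmK
      _ = (volume (Ω \ K)).toReal * M := by
          rw [integral_indicator hmK, setIntegral_const, smul_eq_mul, measureReal_def,
            Measure.restrict_apply hmK, inter_comm, ← sdiff_eq]
      _ ≤ (δ / 2 / (M + 1)) * M := by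
          gcongr
          exact ENNReal.toReal_le_of_le_ofReal (by positivity) hKm.le
      _ ≤ δ / 2 := by
          rw [div_mul_eq_mul_div, div_le_iff₀ (by positivity)]
          nlinarith
  linarith

/-- Uniformly bounded fields converging in the sense of distributions converge against `L¹`. -/
lemma weak_of_test {Ω : Set (Eu n)} (hΩ : IsOpen Ω) (hfin : volume Ω ≠ ⊤)
    {u : ℕ → Eu n → Eu n} {v : Eu n → Eu n} {C : ℝ}
    (hu : ∀ k, AEStronglyMeasurable (u k) (volume.restrict Ω))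
    (hv : AEStronglyMeasurable v (volume.restrict Ω))
    (huC : ∀ k, ∀ᵐ x ∂(volume.restrict Ω), ‖u k x‖ ≤ C) (hvC : ∀ᵐ x ∂(volume.restrict Ω), ‖v x‖ ≤ C)
    (htest : ∀ φ : Eu n → ℝ, ContDiff ℝ ((⊤ : ℕ∞) : WithTop ℕ∞) φ → HasCompactSupport φ →
      tsupport φ ⊆ Ω → Tendsto (fun k => ∫ x in Ω, φ x • u k x) atTop (𝓝 (∫ x in Ω, φ x • v x)))
    {h : Eu n → Eu n} (hh : MemLp h 1 (volume.restrict Ω)) :
    Tendsto (fun k => ∫ x in Ω, ⟪h x, u k x⟫_ℝ) atTop (𝓝 (∫ x in Ω, ⟪h x, v x⟫_ℝ)) := by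
  have hfm : IsFiniteMeasure (volume.restrict Ω) :=
    ⟨by rw [Measure.restrict_apply_univ]; exact lt_top_iff_ne_top.mpr hfin⟩
  have hC0 : 0 ≤ |C| := abs_nonneg C
  -- integrability of pairings
  have hpair : ∀ (a b : Eu n → Eu n), MemLp a 1 (volume.restrict Ω) →
      AEStronglyMeasurable b (volume.restrict Ω) → (∀ᵐ x ∂(volume.restrict Ω), ‖b x‖ ≤ C) →
      Integrable (fun x => ⟪a x, b x⟫_ℝ) (volume.restrict Ω) := by
    intro a b ha hb hbC
    have hai : Integrable a (volume.restrict Ω) := memLp_one_iff_integrable.mp ha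
    refine (hai.norm.mul_const |C|).mono' (ha.1.inner hb) ?_
    filter_upwards [hbC] with x hx
    calc ‖⟪a x, b x⟫_ℝ‖ ≤ ‖a x‖ * ‖b x‖ := norm_inner_le_norm _ _
      _ ≤ ‖a x‖ * |C| := by gcongr; exact hx.trans (le_abs_self C)
  -- convergence for test fields
  have htf : ∀ k : Eu n → Eu n, ContDiff ℝ ((⊤ : ℕ∞) : WithTop ℕ∞) k → HasCompactSupport k →
      tsupport k ⊆ Ω → Tendsto (fun j => ∫ x in Ω, ⟪k x, u j x⟫_ℝ) atTop (𝓝 (∫ x in Ω, ⟪k x, v x⟫_ℝ)) := by
    intro k hk hkc hks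
    have comp : ∀ (w : Eu n → Eu n), AEStronglyMeasurable w (volume.restrict Ω) →
        (∀ᵐ x ∂(volume.restrict Ω), ‖w x‖ ≤ C) →
        ∫ x in Ω, ⟪k x, w x⟫_ℝ = ∑ i : Fin n, (∫ x in Ω, (k x i) • w x) i := by
      intro w hw hwC
      have hsm : ∀ i : Fin n, Integrable (fun x => (k x i) • w x) (volume.restrict Ω) := by
        intro i
        have hki : Continuous (fun x => k x i) := by
          have := hk.continuous
          fun_prop
        have hb : Integrable (fun x => k x i) (volume.restrict Ω) := by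
          apply hki.integrable_of_hasCompactSupport
          exact hkc.comp_left (g := fun y : Eu n => y i) rfl
        refine (hb.norm.mul_const |C|).mono' (hki.aestronglyMeasurable.smul hw) ?_
        filter_upwards [hwC] with x hx
        rw [norm_smul]
        gcongr
        exact hx.trans (le_abs_self C)
      have e1 : ∀ i : Fin n, (∫ x in Ω, (k x i) • w x) i = ∫ x in Ω, (k x i) * (w x i) := by
        intro i
        have := (EuclideanSpace.proj (𝕜 := ℝ) i).integral_comp_comm (hsm i)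
        simpa using this.symm
      simp only [e1]
      rw [← integral_finsetSum]
      · congr 1; ext1 x
        simp [PiLp.inner_apply, mul_comm]
      · intro i _
        have := (EuclideanSpace.proj (𝕜 := ℝ) i).integrable_comp (hsm i)
        simpa using this
    rw [comp v hv hvC]
    have : (fun j => ∫ x in Ω, ⟪k x, u j x⟫_ℝ) = fun j => ∑ i : Fin n, (∫ x in Ω, (k x i) • u j x) i := by
      ext j; exact comp (u j) (hu j) (huC j)
    rw [this]
    apply tendsto_finsetSum
    intro i _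
    have hki : ContDiff ℝ ((⊤ : ℕ∞) : WithTop ℕ∞) (fun x => k x i) := by
      exact (EuclideanSpace.proj (𝕜 := ℝ) i).contDiff.comp hk
    have hts : tsupport (fun x => k x i) ⊆ tsupport k := by
      apply closure_mono
      intro x hx
      simp only [Function.mem_support] at hx ⊢
      intro h0; rw [h0] at hx; simp at hx
    have h1 := htest (fun x => k x i) hki (hkc.comp_left (g := fun y : Eu n => y i) rfl) (hts.trans hks)
    exact ((EuclideanSpace.proj (𝕜 := ℝ) i).continuous.tendsto _).comp h1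
  -- approximation
  rw [Metric.tendsto_atTop]
  intro ε hε
  set δ : ℝ := ε / (4 * (|C| + 1)) with hδ
  have hδ0 : 0 < δ := by positivity
  obtain ⟨k, hk, hkc, hks, hkn⟩ := dense_test hΩ hfin hh hδ0
  have hkL : MemLp k 1 (volume.restrict Ω) := hk.continuous.memLp_of_hasCompactSupport hkc
  have hdi : Integrable (fun x => h x - k x) (volume.restrict Ω) :=
    (memLp_one_iff_integrable.mp hh).sub (memLp_one_iff_integrable.mp hkL)
  have err : ∀ (w : Eu n → Eu n), AEStronglyMeasurable w (volume.restrict Ω) →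
      (∀ᵐ x ∂(volume.restrict Ω), ‖w x‖ ≤ C) →
      |(∫ x in Ω, ⟪h x, w x⟫_ℝ) - ∫ x in Ω, ⟪k x, w x⟫_ℝ| ≤ δ * |C| := by
    intro w hw hwC
    rw [← integral_sub (hpair h w hh hw hwC) (hpair k w hkL hw hwC)]
    calc |∫ x in Ω, (⟪h x, w x⟫_ℝ - ⟪k x, w x⟫_ℝ)| ≤ ∫ x in Ω, ‖⟪h x, w x⟫_ℝ - ⟪k x, w x⟫_ℝ‖ :=
          norm_integral_le_integral_norm (fun x => ⟪h x, w x⟫_ℝ - ⟪k x, w x⟫_ℝ)
      _ ≤ ∫ x in Ω, ‖h x - k x‖ * |C| := by
          apply integral_mono_of_nonneg (Filter.Eventually.of_forall fun _ => norm_nonneg _)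
            (hdi.norm.mul_const _)
          filter_upwards [hwC] with x hx
          rw [← inner_sub_left]
          calc ‖⟪h x - k x, w x⟫_ℝ‖ ≤ ‖h x - k x‖ * ‖w x‖ := norm_inner_le_norm _ _
            _ ≤ ‖h x - k x‖ * |C| := by gcongr; exact hx.trans (le_abs_self C)
      _ = (∫ x in Ω, ‖h x - k x‖) * |C| := integral_mul_const _ _
      _ ≤ δ * |C| := by gcongr
  obtain ⟨N, hN⟩ := Metric.tendsto_atTop.mp (htf k hk hkc hks) (ε / 2) (half_pos hε)
  refine ⟨N, fun j hj => ?_⟩
  have h1 := err (u j) (hu j) (huC j)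
  have h2 := err v hv hvC
  have h3 := hN j hj
  rw [Real.dist_eq] at h3 ⊢
  have h4 : δ * |C| ≤ ε / 4 := by
    rw [hδ, div_mul_eq_mul_div, div_le_div_iff₀ (by positivity) (by norm_num)]
    nlinarith
  have h5 : (∫ x in Ω, ⟪h x, u j x⟫_ℝ) - ∫ x in Ω, ⟪h x, v x⟫_ℝ =
      ((∫ x in Ω, ⟪h x, u j x⟫_ℝ) - ∫ x in Ω, ⟪k x, u j x⟫_ℝ) +
      ((∫ x in Ω, ⟪k x, u j x⟫_ℝ) - ∫ x in Ω, ⟪k x, v x⟫_ℝ) -
      ((∫ x in Ω, ⟪h x, v x⟫_ℝ) - ∫ x in Ω, ⟪k x, v x⟫_ℝ) := by ring
  rw [h5]
  have a1 := abs_le.mp h1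
  have a2 := abs_le.mp h2
  have a3 := abs_lt.mp h3
  rw [abs_lt]
  constructor <;> linarith [a1.1, a1.2, a2.1, a2.2, a3.1, a3.2]






/-- locally Lipschitz with a uniform constant -/
def LocLip (L : ℝ≥0) (Ω : Set (Eu n)) (f : Eu n → Eu n) : Prop :=
  ∀ x ∈ Ω, ∃ s ∈ 𝓝 x, LipschitzOnWith L f s

lemma LocLip.continuousOn {L : ℝ≥0} {Ω : Set (Eu n)} {f : Eu n → Eu n} (h : LocLip L Ω f) :
    ContinuousOn f Ω := by
  intro x hx
  obtain ⟨s, hs, hl⟩ := h x hx
  exact ((hl.continuousOn).continuousAt hs).continuousWithinAt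

lemma LocLip.norm_fderiv_le {L : ℝ≥0} {Ω : Set (Eu n)} {f : Eu n → Eu n} (h : LocLip L Ω f)
    {x : Eu n} (hx : x ∈ Ω) : ‖fderiv ℝ f x‖ ≤ L := by
  obtain ⟨s, hs, hl⟩ := h x hx
  exact norm_fderiv_le_of_lipschitzOn ℝ hs hl

lemma LocLip.mono {L : ℝ≥0} {Ω Ω₁ : Set (Eu n)} {f : Eu n → Eu n} (h : LocLip L Ω f)
    (h1 : Ω₁ ⊆ Ω) : LocLip L Ω₁ f := fun x hx => h x (h1 hx)

lemma weakDiff_of_lipschitz {C : ℝ≥0} {F : Eu n → Eu n} (hF : LipschitzWith C F) {φ : Eu n → ℝ}
    (hφ : ContDiff ℝ ((⊤ : ℕ∞) : WithTop ℕ∞) φ) (hc : HasCompactSupport φ) (v : Eu n) :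
    ∫ x, (fderiv ℝ φ x v) • F x = - ∫ x, φ x • (fderiv ℝ F x v) := by
  have hφ'c : Continuous (fun x => fderiv ℝ φ x v) :=
    (hφ.continuous_fderiv (by simp)).clm_apply continuous_const
  have hφ's : HasCompactSupport (fun x => fderiv ℝ φ x v) := hc.fderiv_apply (𝕜 := ℝ) v
  have i1 : Integrable (fun x => (fderiv ℝ φ x v) • F x) :=
    (hφ'c.smul hF.continuous).integrable_of_hasCompactSupport hφ's.smul_right
  have i2 : Integrable (fun x => φ x • (fderiv ℝ F x v)) := by
    have hφi : Integrable φ := hφ.continuous.integrable_of_hasCompactSupport hc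
    refine (hφi.norm.mul_const (C * ‖v‖)).mono'
      (hφ.continuous.aestronglyMeasurable.smul (measurable_fderiv_apply_const ℝ F v).aestronglyMeasurable) ?_
    filter_upwards with x
    rw [norm_smul]
    gcongr
    exact (ContinuousLinearMap.le_opNorm _ _).trans (by
      gcongr; exact norm_fderiv_le_of_lipschitz ℝ hF)
  obtain ⟨D, hD⟩ : ∃ D, LipschitzWith D φ := by
    have := hφ.of_le (m := 1) (by exact_mod_cast le_top)
    exact this.lipschitzWith_of_hasCompactSupport hc (by norm_num)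
  ext i
  have e1 : (∫ x, (fderiv ℝ φ x v) • F x) i = ∫ x, (fderiv ℝ φ x v) * F x i := by
    have := (EuclideanSpace.proj (𝕜 := ℝ) i).integral_comp_comm i1
    simpa using this.symm
  have e2 : (∫ x, φ x • (fderiv ℝ F x v)) i = ∫ x, φ x * (fderiv ℝ F x v) i := by
    have := (EuclideanSpace.proj (𝕜 := ℝ) i).integral_comp_comm i2
    simpa using this.symm
  have hFi : LipschitzWith C (fun x => F x i) := by
    apply LipschitzWith.of_dist_le_mul
    intro x y
    calc dist (F x i) (F y i) = ‖(F x - F y) i‖ := by rw [Real.dist_eq]; simp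
      _ ≤ ‖F x - F y‖ := PiLp.norm_apply_le (F x - F y) i
      _ = dist (F x) (F y) := (dist_eq_norm _ _).symm
      _ ≤ C * dist x y := hF.dist_le_mul x y
  have key := hFi.integral_lineDeriv_mul_eq (μ := (volume : Measure (Eu n))) hD hc v
  rw [PiLp.neg_apply, e1, e2]
  have e3 : ∫ x, lineDeriv ℝ φ x (-v) * F x i = - ∫ x, (fderiv ℝ φ x v) * F x i := by
    rw [← integral_neg]
    congr 1; ext1 x
    have : lineDeriv ℝ φ x (-v) = - (fderiv ℝ φ x v) := by
      rw [(hφ.differentiable (by simp) x).lineDeriv_eq_fderiv, map_neg]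
    rw [this]; ring
  have e4 : ∫ x, lineDeriv ℝ (fun x => F x i) x v * φ x = ∫ x, φ x * (fderiv ℝ F x v) i := by
    apply integral_congr_ae
    filter_upwards [hF.ae_differentiableAt (μ := (volume : Measure (Eu n)))] with x hx
    have h1 : HasFDerivAt (fun x => F x i) ((EuclideanSpace.proj (𝕜 := ℝ) i).comp (fderiv ℝ F x)) x :=
      (EuclideanSpace.proj (𝕜 := ℝ) i).hasFDerivAt.comp x hx.hasFDerivAt
    rw [h1.differentiableAt.lineDeriv_eq_fderiv, h1.fderiv]
    simp [mul_comm]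
  rw [← e4, key, e3, neg_neg]

lemma LocLip.isWeakDiff {L : ℝ≥0} {Ω : Set (Eu n)} (hΩ : IsOpen Ω) {f : Eu n → Eu n}
    (h : LocLip L Ω f) : IsWeakDiff Ω f (fderiv ℝ f) := by
  intro φ hφ hc hs v
  obtain ⟨δ, hδ, hδs⟩ := hc.isCompact.exists_cthickening_subset_open hΩ hs
  have hcomp : IsCompact (cthickening δ (tsupport φ)) := by
    apply Metric.isCompact_of_isClosed_isBounded isClosed_cthickening
    exact hc.isCompact.isBounded.cthickening
  have hll : LocallyLipschitzOn (cthickening δ (tsupport φ)) f := by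
    intro x hx
    obtain ⟨s, hs', hl⟩ := h x (hδs hx)
    exact ⟨L, s, mem_nhdsWithin_of_mem_nhds hs', hl⟩
  obtain ⟨C, hC⟩ := hll.exists_lipschitzOnWith_of_compact hcomp
  obtain ⟨F, hF, hFe⟩ := hC.extend_finite_dimension
  have hzero : ∀ x, x ∉ tsupport φ → φ x = 0 := fun x hx => image_eq_zero_of_notMem_tsupport hx
  have hdzero : ∀ x, x ∉ tsupport φ → fderiv ℝ φ x v = 0 := by
    intro x hx
    have : x ∉ tsupport (fderiv ℝ φ) := fun h => hx (tsupport_fderiv_subset ℝ h)
    rw [image_eq_zero_of_notMem_tsupport this]; rfl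
  have hsub : tsupport φ ⊆ cthickening δ (tsupport φ) := self_subset_cthickening _
  have heq : ∀ x ∈ tsupport φ, f =ᶠ[𝓝 x] F := by
    intro x hx
    have : cthickening δ (tsupport φ) ∈ 𝓝 x := by
      refine mem_of_superset (isOpen_thickening.mem_nhds (self_subset_thickening hδ _ hx)) ?_
      exact thickening_subset_cthickening _ _
    filter_upwards [this] with y hy using hFe hy
  have e1 : ∫ x in Ω, (fderiv ℝ φ x v) • f x = ∫ x, (fderiv ℝ φ x v) • F x := by
    rw [setIntegral_eq_integral_of_forall_compl_eq_zero]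
    · congr 1; ext1 x
      by_cases hx : x ∈ tsupport φ
      · rw [hFe (hsub hx)]
      · rw [hdzero x hx, zero_smul, zero_smul]
    · intro x hx
      rw [hdzero x (fun h' => hx (hs h')), zero_smul]
  have e2 : ∫ x in Ω, φ x • (fderiv ℝ f x v) = ∫ x, φ x • (fderiv ℝ F x v) := by
    rw [setIntegral_eq_integral_of_forall_compl_eq_zero]
    · congr 1; ext1 x
      by_cases hx : x ∈ tsupport φ
      · rw [(heq x hx).fderiv_eq]
      · rw [hzero x hx, zero_smul, zero_smul]
    · intro x hx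
      rw [hzero x (fun h' => hx (hs h')), zero_smul]
  rw [e1, e2]
  exact weakDiff_of_lipschitz hF hφ hc v






/-- a bounded locally Lipschitz map is Sobolev -/
lemma LocLip.isSobolev {L : ℝ≥0} {Ω : Set (Eu n)} (hΩ : IsOpen Ω) (hfin : volume Ω ≠ ⊤)
    {f : Eu n → Eu n} (h : LocLip L Ω f) {M : ℝ} (hM : ∀ x ∈ Ω, ‖f x‖ ≤ M) (p : ℝ≥0∞) :
    IsSobolev p Ω f (fderiv ℝ f) := by
  have hfm : IsFiniteMeasure (volume.restrict Ω) :=
    ⟨by rw [Measure.restrict_apply_univ]; exact lt_top_iff_ne_top.mpr hfin⟩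
  refine ⟨?_, ?_, h.isWeakDiff hΩ⟩
  · apply MemLp.of_bound (h.continuousOn.aestronglyMeasurable hΩ.measurableSet) M
    filter_upwards [ae_restrict_mem hΩ.measurableSet] with x hx using hM x hx
  · apply MemLp.of_bound (measurable_fderiv ℝ f).aestronglyMeasurable L
    filter_upwards [ae_restrict_mem hΩ.measurableSet] with x hx using h.norm_fderiv_le hx

lemma weakConv_of_locLip {L : ℝ≥0} {Ω : Set (Eu n)} (hΩ : IsOpen Ω) (hfin : volume Ω ≠ ⊤)
    {F : ℕ → Eu n → Eu n} {f : Eu n → Eu n} (hF : ∀ k, LocLip L Ω (F k)) (hf : LocLip L Ω f)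
    {M : ℝ} (hFM : ∀ k, ∀ x ∈ Ω, ‖F k x‖ ≤ M) (hfM : ∀ x ∈ Ω, ‖f x‖ ≤ M)
    (hlim : ∀ x ∈ Ω, Tendsto (fun k => F k x) atTop (𝓝 (f x))) {p : ℝ≥0∞} :
    WeakConv p Ω F (fun k => fderiv ℝ (F k)) f (fderiv ℝ f) := by
  have hfm : IsFiniteMeasure (volume.restrict Ω) :=
    ⟨by rw [Measure.restrict_apply_univ]; exact lt_top_iff_ne_top.mpr hfin⟩
  have hmeas : ∀ {g : Eu n → Eu n}, LocLip L Ω g → AEStronglyMeasurable g (volume.restrict Ω) :=
    fun h => h.continuousOn.aestronglyMeasurable hΩ.measurableSet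
  have hq1 : ∀ q : ℝ≥0∞, p⁻¹ + q⁻¹ = 1 → 1 ≤ q := by
    intro q h
    have : q⁻¹ ≤ 1 := by rw [← h]; exact le_add_self
    exact ENNReal.inv_le_one.mp this
  -- test convergence of the maps
  have t1 : ∀ ψ : Eu n → ℝ, Continuous ψ → HasCompactSupport ψ →
      Tendsto (fun k => ∫ x in Ω, ψ x • F k x) atTop (𝓝 (∫ x in Ω, ψ x • f x)) := by
    intro ψ hψ hψc
    obtain ⟨C, hC⟩ := hψc.exists_bound_of_continuous hψ
    apply tendsto_integral_of_dominated_convergence (fun _ => C * M)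
    · intro k; exact hψ.aestronglyMeasurable.smul (hmeas (hF k))
    · exact integrable_const _
    · intro k
      filter_upwards [ae_restrict_mem hΩ.measurableSet] with x hx
      rw [norm_smul]
      have := hC x
      have := hFM k x hx
      gcongr
      exact (norm_nonneg _).trans (hC x)
    · filter_upwards [ae_restrict_mem hΩ.measurableSet] with x hx
      exact (hlim x hx).const_smul _
  constructor
  · intro q hq h hh
    have hh1 : MemLp h 1 (volume.restrict Ω) := hh.mono_exponent (hq1 q hq)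
    apply weak_of_test hΩ hfin (C := M) (fun k => hmeas (hF k)) (hmeas hf) _ _ _ hh1
    · intro k
      filter_upwards [ae_restrict_mem hΩ.measurableSet] with x hx using hFM k x hx
    · filter_upwards [ae_restrict_mem hΩ.measurableSet] with x hx using hfM x hx
    · intro φ hφ hc _
      exact t1 φ hφ.continuous hc
  · intro v q hq h hh
    have hh1 : MemLp h 1 (volume.restrict Ω) := hh.mono_exponent (hq1 q hq)
    apply weak_of_test hΩ hfin (C := L * ‖v‖) (fun k => (measurable_fderiv_apply_const ℝ (F k) v).aestronglyMeasurable)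
      ((measurable_fderiv_apply_const ℝ f v).aestronglyMeasurable) _ _ _ hh1
    · intro k
      filter_upwards [ae_restrict_mem hΩ.measurableSet] with x hx
      exact (ContinuousLinearMap.le_opNorm _ _).trans (by gcongr; exact (hF k).norm_fderiv_le hx)
    · filter_upwards [ae_restrict_mem hΩ.measurableSet] with x hx
      exact (ContinuousLinearMap.le_opNorm _ _).trans (by gcongr; exact hf.norm_fderiv_le hx)
    · intro φ hφ hc hs
      have hφ'c : Continuous (fun x => fderiv ℝ φ x v) :=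
        (hφ.continuous_fderiv (by simp)).clm_apply continuous_const
      have hφ's : HasCompactSupport (fun x => fderiv ℝ φ x v) := hc.fderiv_apply (𝕜 := ℝ) v
      have h1 := t1 _ hφ'c hφ's
      have h2 : ∀ k, ∫ x in Ω, φ x • (fderiv ℝ (F k) x v) = - ∫ x in Ω, (fderiv ℝ φ x v) • F k x := by
        intro k; rw [(hF k).isWeakDiff hΩ φ hφ hc hs v, neg_neg]
      have h3 : ∫ x in Ω, φ x • (fderiv ℝ f x v) = - ∫ x in Ω, (fderiv ℝ φ x v) • f x := by
        rw [hf.isWeakDiff hΩ φ hφ hc hs v, neg_neg]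
      simp only [h2, h3]
      exact h1.neg

end base

section uniq
variable {n : ℕ}

/-- uniqueness of the weak differential -/
lemma weakDiff_unique {Ω : Set (Eu n)} (hΩ : IsOpen Ω) {f : Eu n → Eu n}
    {G H : Eu n → (Eu n →L[ℝ] Eu n)} (hG : IsWeakDiff Ω f G) (hH : IsWeakDiff Ω f H)
    (hGl : LocallyIntegrableOn G Ω) (hHl : LocallyIntegrableOn H Ω) :
    ∀ᵐ x ∂(volume.restrict Ω), G x = H x := by
  have key : ∀ v : Eu n, ∀ᵐ x ∂(volume : Measure (Eu n)), x ∈ Ω → G x v - H x v = 0 := by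
    intro v
    have hGv : LocallyIntegrableOn (fun x => G x v) Ω := by
      intro x hx
      obtain ⟨t, ht, hti⟩ := hGl x hx
      exact ⟨t, ht, hti.apply_continuousLinearMap v⟩
    have hfv : LocallyIntegrableOn (fun x => H x v) Ω := by
      intro x hx
      obtain ⟨t, ht, hti⟩ := hHl x hx
      exact ⟨t, ht, hti.apply_continuousLinearMap v⟩
    apply hΩ.ae_eq_zero_of_integral_contDiff_smul_eq_zero (hGv.sub hfv)
    intro φ hφ hc hs
    have hzero : ∀ x, x ∉ Ω → φ x = 0 := fun x hx =>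
      image_eq_zero_of_notMem_tsupport fun h => hx (hs h)
    have e1 := hG φ hφ hc hs v
    have e2 := hH φ hφ hc hs v
    rw [e1] at e2
    have e3 : ∫ x in Ω, φ x • (G x v) = ∫ x in Ω, φ x • (H x v) := neg_inj.mp e2
    have hi : ∀ (g : Eu n → Eu n), LocallyIntegrableOn g Ω →
        Integrable (fun x => φ x • g x) := by
      intro g hg
      exact integrable_smul_of_locallyIntegrableOn hg hφ.continuous hc hs
    have e4 : ∀ (g : Eu n → Eu n), ∫ x in Ω, φ x • g x = ∫ x, φ x • g x := by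
      intro g
      apply setIntegral_eq_integral_of_forall_compl_eq_zero
      intro x hx; simp [hzero x hx]
    rw [e4 (fun x => G x v), e4 (fun x => H x v)] at e3
    simp only [Pi.sub_apply, smul_sub]
    rw [integral_sub (hi _ hGv) (hi _ hfv), e3, sub_self]
  rw [ae_restrict_iff' hΩ.measurableSet]
  have hall : ∀ᵐ x ∂(volume : Measure (Eu n)), ∀ i : Fin n,
      x ∈ Ω → G x (EuclideanSpace.single i 1) - H x (EuclideanSpace.single i 1) = 0 :=
    ae_all_iff.mpr fun i => key _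
  filter_upwards [hall] with x hx hxΩ
  apply ContinuousLinearMap.coe_injective
  apply (EuclideanSpace.basisFun (Fin n) ℝ).toBasis.ext
  intro i
  have := hx i hxΩ
  simpa [sub_eq_zero] using this

end uniq

section misc

lemma ind_int {α F : Type*} [MeasurableSpace α] {μ : Measure α} [NormedAddCommGroup F] {W : Set α}
    (hW : MeasurableSet W) {G : α → F}
    (h : IntegrableOn G W μ) : Integrable (W.indicator G) μ := h.integrable_indicator hW


/-- clamping to `[-1,1]` -/
def c1 (t : ℝ) : ℝ := max (-1) (min t 1)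

lemma c1_continuous : Continuous c1 := by unfold c1; fun_prop

lemma c1_of_le {t : ℝ} (h : t ≤ -1) : c1 t = -1 := by
  unfold c1; rw [min_eq_left (by linarith), max_eq_left h]

lemma c1_of_ge {t : ℝ} (h : 1 ≤ t) : c1 t = 1 := by
  unfold c1; rw [min_eq_right h, max_eq_right (by norm_num)]

lemma c1_eq_zero {t : ℝ} (h : c1 t = 0) : t = 0 := by
  unfold c1 at h
  rcases le_total t (-1) with h1 | h1
  · rw [min_eq_left (by linarith), max_eq_left h1] at h; linarith
  · rcases le_total t 1 with h2 | h2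
    · rw [min_eq_left h2, max_eq_right h1] at h; exact h
    · rw [min_eq_right h2, max_eq_right (by norm_num)] at h; linarith


end misc

end

end Pool.Agent.KS6_69.WS.Base
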