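import Pool.Agent.KS6_69.WS.Loops

/-!
# The limit map is not in the strong closure
-/

set_option autoImplicit false

open MeasureTheory Set Filter Topology Metric
open scoped ENNReal NNReal
open Pool.Agent.KS6_69.WS.SobDefs Pool.Agent.KS6_69.WS.Base Pool.Agent.KS6_69.WS.Horn
open Pool.Agent.KS6_69.WS.Lift3 Pool.Agent.KS6_69.WS.Maps Pool.Agent.KS6_69.WS.Loops

namespace Pool.Agent.KS6_69.WS.Final

noncomputable section

variable {m : ℕ}

lemma not_strong {p : ℝ≥0∞} (hp : 1 ≤ p) : Flim m ∉ strongClosureHom p (cyl m D3) (cyl m D3') := by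
  rintro ⟨-, Df, F, DF, hf, hF, hconv⟩
  set Ω := cyl m D3 with hΩ
  set W := cyl m W0 with hW
  have hWΩ : W ⊆ Ω := cyl_mono W0_sub
  have hΩo : IsOpen Ω := cyl_isOpen D3_isOpen
  have hWo : IsOpen W := cyl_isOpen W0_isOpen
  have hfin : volume Ω ≠ ⊤ := cylD3_bdd.measure_lt_top.ne
  have hfm : IsFiniteMeasure (volume.restrict Ω) :=
    ⟨by rw [Measure.restrict_apply_univ]; exact lt_top_iff_ne_top.mpr hfin⟩
  have h1 : Tendsto (fun k => eLpNorm (fun x => DF k x - Df x) p (volume.restrict Ω)) atTop (𝓝 0) :=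
    tendsto_of_tendsto_of_tendsto_of_le_of_le tendsto_const_nhds hconv (fun _ => zero_le)
      (fun _ => le_add_self)
  set C : ℝ≥0∞ := (volume.restrict Ω) univ ^ (1 / (1 : ℝ≥0∞).toReal - 1 / p.toReal) with hC
  have hCtop : C ≠ ⊤ := by
    apply ENNReal.rpow_ne_top_of_nonneg
    · simp only [ENNReal.toReal_one]
      rcases eq_or_ne p ⊤ with h | h
      · rw [h]; simp
      · have : 1 ≤ p.toReal := by
          rw [← ENNReal.toReal_one]
          exact ENNReal.toReal_mono h hp
        have h2 : 1 / p.toReal ≤ 1 := by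
          rw [div_le_one (by linarith)]; exact this
        linarith
    · exact measure_ne_top _ _
  have hdm : ∀ k, AEStronglyMeasurable (fun x => DF k x - Df x) (volume.restrict Ω) := fun k =>
    (hF k).2.2.1.1.sub hf.2.1.1
  have h2 : Tendsto (fun k => eLpNorm (fun x => DF k x - Df x) 1 (volume.restrict Ω)) atTop (𝓝 0) := by
    have h3 : Tendsto (fun k => eLpNorm (fun x => DF k x - Df x) p (volume.restrict Ω) * C) atTop (𝓝 (0 * C)) :=
      ENNReal.Tendsto.mul_const h1 (Or.inr hCtop)
    rw [zero_mul] at h3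
    exact tendsto_of_tendsto_of_tendsto_of_le_of_le tendsto_const_nhds h3 (fun _ => zero_le)
      (fun k => eLpNorm_le_eLpNorm_mul_rpow_measure_univ hp (hdm k))
  have hDfi : Integrable Df (volume.restrict Ω) := hf.2.1.integrable hp
  have hDFi : ∀ k, Integrable (DF k) (volume.restrict Ω) := fun k => (hF k).2.2.1.integrable hp
  -- the differential of the limit
  have hDf : ∀ᵐ x ∂(volume.restrict Ω), Df x = fderiv ℝ (Flim m) x := by
    apply weakDiff_unique hΩo hf.2.2 (Flim_locLip.isWeakDiff hΩo)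
      (locallyIntegrableOn_of_locallyIntegrable_restrict hDfi.locallyIntegrable)
    apply locallyIntegrableOn_of_locallyIntegrable_restrict
    apply Integrable.locallyIntegrable
    apply Integrable.of_bound (measurable_fderiv ℝ (Flim m)).aestronglyMeasurable (22 : ℝ≥0)
    filter_upwards [ae_restrict_mem hΩo.measurableSet] with x hx
    exact Flim_locLip.norm_fderiv_le hx
  -- directional estimates
  have hdir : ∀ (k : ℕ) (q : ℝ × ℝ × ℝ), ∫ x in W, ‖DF k x (im m q)‖ ≤
      ‖im m q‖ * (eLpNorm (fun x => DF k x - Df x) 1 (volume.restrict Ω)).toReal := by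
    intro k q
    have hdi : Integrable (fun x => DF k x - Df x) (volume.restrict Ω) := (hDFi k).sub hDfi
    have e1 : (eLpNorm (fun x => DF k x - Df x) 1 (volume.restrict Ω)).toReal =
        ∫ x in Ω, ‖DF k x - Df x‖ := by
      rw [eLpNorm_one_eq_lintegral_enorm, integral_norm_eq_lintegral_enorm (hdm k)]
    rw [e1]
    calc ∫ x in W, ‖DF k x (im m q)‖ ≤ ∫ x in W, ‖im m q‖ * ‖DF k x - Df x‖ := by
          apply integral_mono_ae
          · exact (((hDFi k).mono_measure (Measure.restrict_mono hWΩ le_rfl)).apply_continuousLinearMap _).norm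
          · exact ((hdi.mono_measure (Measure.restrict_mono hWΩ le_rfl)).norm).const_mul _
          · have := ae_restrict_of_ae_restrict_of_subset hWΩ hDf
            filter_upwards [this, ae_restrict_mem hWo.measurableSet] with x hx hxW
            have h3 : Df x (im m q) = 0 := by rw [hx, Flim_fderiv hxW]
            calc ‖DF k x (im m q)‖ = ‖(DF k x - Df x) (im m q)‖ := by
                  rw [sub_apply, h3, sub_zero]
              _ ≤ ‖DF k x - Df x‖ * ‖im m q‖ := ContinuousLinearMap.le_opNorm _ _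
              _ = ‖im m q‖ * ‖DF k x - Df x‖ := mul_comm _ _
      _ = ‖im m q‖ * ∫ x in W, ‖DF k x - Df x‖ := integral_const_mul _ _
      _ ≤ ‖im m q‖ * ∫ x in Ω, ‖DF k x - Df x‖ := by
          apply mul_le_mul_of_nonneg_left _ (norm_nonneg _)
          exact setIntegral_mono_set hdi.norm (Filter.Eventually.of_forall fun _ => norm_nonneg _)
            (LE.le.eventuallyLE hWΩ)
  have h4 : Tendsto (fun k => (eLpNorm (fun x => DF k x - Df x) 1 (volume.restrict Ω)).toReal) atTop (𝓝 0) := by
    have := (ENNReal.tendsto_toReal ENNReal.zero_ne_top).comp h2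
    rw [ENNReal.toReal_zero] at this
    exact this
  have hBopen : IsOpen (cyl m Bx) := cyl_isOpen Bx_isOpen
  have hBne : (cyl m Bx).Nonempty := by
    refine ⟨pt m (-(3 / 4), -(3 / 4), 1 / 4), ?_, ?_⟩
    · rw [Pm_pt]; refine ⟨?_, ?_, ?_, ?_⟩ <;> norm_num
    · intro i hi; rw [pt_coord _ hi]; norm_num
  have hBfin : volume (cyl m Bx) ≠ ⊤ := by
    have : cyl m Bx ⊆ Ω := by
      intro x hx
      have := rloop_mem hx (s := 0) (by norm_num)
      rw [rloop_0 _ _ _ le_rfl zero_le_one, zero_smul, add_zero] at this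
      exact hWΩ this
    exact ((measure_mono this).trans_lt (lt_top_iff_ne_top.mpr hfin)).ne
  have hBpos : 0 < (volume (cyl m Bx)).toReal :=
    ENNReal.toReal_pos (hBopen.measure_pos volume hBne).ne' hBfin
  have h5 : ∀ᶠ k in atTop, (2 * ‖e1 m‖ + 2 * ‖e2 m‖) *
      (eLpNorm (fun x => DF k x - Df x) 1 (volume.restrict Ω)).toReal < 1 / 1024 * (volume (cyl m Bx)).toReal := by
    have h6 := h4.const_mul (2 * ‖e1 m‖ + 2 * ‖e2 m‖)
    rw [mul_zero] at h6
    exact h6.eventually_lt_const (by positivity)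
  obtain ⟨k, hk⟩ := h5.exists
  -- measurable representative
  have hm := (hF k).2.2.1.1
  set G : Eu (m + 3) → (Eu (m + 3) →L[ℝ] Eu (m + 3)) := W.indicator (hm.mk (DF k)) with hG
  have hGm : StronglyMeasurable G := hm.stronglyMeasurable_mk.indicator hWo.measurableSet
  have haeW : ∀ᵐ x ∂(volume.restrict W), DF k x = hm.mk (DF k) x :=
    ae_restrict_of_ae_restrict_of_subset hWΩ hm.ae_eq_mk
  have hGi0 : IntegrableOn (hm.mk (DF k)) W volume :=
    ((hDFi k).mono_measure (Measure.restrict_mono hWΩ le_rfl)).congr haeW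
  have hGi : Integrable G := ind_int hWo.measurableSet hGi0
  have hGw : IsWeakDiff W (F k) G := by
    intro φ hφ hc hs v
    have e1 := (hF k).2.2.2 φ hφ hc (hs.trans hWΩ) v
    have hz : ∀ x, x ∉ W → φ x = 0 := fun x hx => image_eq_zero_of_notMem_tsupport fun h => hx (hs h)
    have hdz : ∀ x, x ∉ W → fderiv ℝ φ x = 0 := by
      intro x hx
      have : x ∉ tsupport (fderiv ℝ φ) := fun h => hx (hs (tsupport_fderiv_subset ℝ h))
      exact image_eq_zero_of_notMem_tsupport this
    have e2 : ∫ x in W, (fderiv ℝ φ x v) • F k x = ∫ x in Ω, (fderiv ℝ φ x v) • F k x := by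
      symm
      apply setIntegral_eq_of_subset_of_forall_sdiff_eq_zero hΩo.measurableSet hWΩ
      intro x hx
      rw [hdz x hx.2]; simp
    have e3 : ∫ x in W, φ x • G x v = ∫ x in Ω, φ x • DF k x v := by
      have e4 : ∫ x in W, φ x • DF k x v = ∫ x in Ω, φ x • DF k x v := by
        symm
        apply setIntegral_eq_of_subset_of_forall_sdiff_eq_zero hΩo.measurableSet hWΩ
        intro x hx
        rw [hz x hx.2]; simp
      rw [← e4]
      apply integral_congr_ae
      filter_upwards [haeW, ae_restrict_mem hWo.measurableSet] with x hx hxW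
      rw [hG, indicator_of_mem hxW, hx]
    rw [e2, e3, e1]
  have hGint : ∀ q : ℝ × ℝ × ℝ, ∫ x, ‖G x (im m q)‖ = ∫ x in W, ‖DF k x (im m q)‖ := by
    intro q
    have e1 : ∀ x, ‖G x (im m q)‖ = W.indicator (fun x => ‖hm.mk (DF k) x (im m q)‖) x := by
      intro x
      by_cases hx : x ∈ W
      · rw [hG, indicator_of_mem hx, indicator_of_mem hx]
      · rw [hG, indicator_of_notMem hx, indicator_of_notMem hx]; simp
    simp only [e1]
    rw [integral_indicator hWo.measurableSet]
    apply integral_congr_ae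
    filter_upwards [haeW] with x hx
    rw [hx]
  have hgc : ContinuousOn (F k) W := (hF k).1.2.1.mono hWΩ
  obtain ⟨x, hxB, ⟨g0, g1, g2, g3⟩, hsm⟩ := exists_loop hBopen hBfin hgc hGm hGi hGw (e1 m) (e2 m)
    (fun x hx s hs => rloop_mem hx hs) (1 / 1024) (by
      have d1 := hdir k (3 / 2, 0, 0)
      have d2 := hdir k (0, 3 / 2, 0)
      unfold e1 e2
      rw [hGint, hGint]
      unfold e1 e2 at hk
      linarith)
  have := loop_long (hF k).1 hxB (V := Vf G (e1 m) (e2 m) x) (fun s hs t ht hst =>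
    loop_increment g0 g1 g2 g3 hs ht hst)
  linarith


end

end Pool.Agent.KS6_69.WS.Final
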