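import Pool.Agent.KS6_69.WS.Base

/-!
# The horn

A uniformly Lipschitz family of planar embeddings whose images shrink while crossings stay long.
-/

set_option autoImplicit false

open MeasureTheory Set Filter Topology Metric
open scoped ENNReal NNReal

namespace Pool.Agent.KS6_69.WS.Horn

noncomputable section

/-- the set of zeros of the displacement: the lower half plane, and over it vertical segments whose
spacing is proportional to the height -/
def E0 : Set (ℝ × ℝ) :=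
  {p | p.2 ≤ 0 ∨ ∃ (j : ℕ) (i : ℤ), p.1 = 8 * (1 / 2) ^ j * i ∧ (1 / 2) ^ (j + 1) ≤ p.2 ∧
    p.2 ≤ (1 / 2) ^ j}

lemma E0_nonempty : E0.Nonempty := ⟨(0, 0), Or.inl le_rfl⟩

/-- the displacement -/
def A (v w : ℝ) : ℝ := infDist (v, w / 64) E0

lemma A_lip (v w v' w' : ℝ) : |A v w - A v' w'| ≤ |v - v'| + |w - w'| / 64 := by
  have h := (lipschitz_infDist_pt E0).dist_le_mul (v, w / 64) (v', w' / 64)
  rw [Real.dist_eq] at h
  refine h.trans ?_
  rw [Prod.dist_eq, Real.dist_eq, Real.dist_eq]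
  simp only [NNReal.coe_one, one_mul]
  have e : w / 64 - w' / 64 = (w - w') / 64 := by ring
  rw [e, abs_div, abs_of_pos (by norm_num : (0 : ℝ) < 64)]
  have h1 := abs_nonneg (v - v')
  have h2 := abs_nonneg (w - w')
  apply max_le <;> linarith

lemma A_nonneg (v w : ℝ) : 0 ≤ A v w := infDist_nonneg

lemma A_le {v w : ℝ} (hw : 0 ≤ w) : A v w ≤ w / 64 := by
  have h := infDist_le_dist_of_mem (x := ((v, w / 64) : ℝ × ℝ)) (y := (v, 0)) (s := E0)
    (Or.inl le_rfl)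
  refine h.trans ?_
  rw [Prod.dist_eq, Real.dist_eq, Real.dist_eq]
  simp only [sub_self, abs_zero, sub_zero]
  rw [abs_of_nonneg (by positivity)]
  exact max_le (by positivity) le_rfl

lemma A_zero {v w : ℝ} (hw : w ≤ 0) : A v w = 0 :=
  infDist_zero_of_mem (Or.inl (by show w / 64 ≤ 0; linarith))

lemma half_int (N : ℤ) : (1 / 2 : ℝ) ≤ |(N : ℝ) + 1 / 2| := by
  rcases le_or_gt 0 N with h | h
  · have : (0 : ℝ) ≤ N := by exact_mod_cast h
    rw [abs_of_nonneg (by linarith)]; linarith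
  · have h2 : N ≤ -1 := by omega
    have : (N : ℝ) ≤ -1 := by exact_mod_cast h2
    rw [abs_of_nonpos (by linarith)]; linarith

/-- the displacement oscillates at the scale of the height -/
lemma osc {w : ℝ} (h0 : 0 < w) (h1 : w ≤ 1) (α : ℝ) : ∃ v1 v3 : ℝ, α ≤ v1 ∧ v1 ≤ α + w / 2 ∧
    α ≤ v3 ∧ v3 ≤ α + w / 2 ∧ A v1 w = 0 ∧ w / 256 ≤ A v3 w := by
  obtain ⟨j, hj1, hj2⟩ := exists_nat_pow_near_of_lt_one (x := w / 64) (y := (1 / 2 : ℝ))
    (by positivity) (by linarith) (by norm_num) (by norm_num)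
  set q : ℝ := (1 / 2) ^ j with hq
  have hq0 : 0 < q := by positivity
  have hq1 : (1 / 2 : ℝ) ^ (j + 1) = q / 2 := by rw [pow_succ, ← hq]; ring
  rw [hq1] at hj1
  set i : ℤ := ⌈α / (8 * q)⌉ with hi
  have hi1 : α ≤ 8 * q * i := by
    have := Int.le_ceil (α / (8 * q))
    rw [div_le_iff₀ (by positivity)] at this
    linarith
  have hi2 : 8 * q * i < α + 8 * q := by
    have h := Int.ceil_lt_add_one (α / (8 * q))
    have h' : (i : ℝ) * (8 * q) < (α / (8 * q) + 1) * (8 * q) :=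
      mul_lt_mul_of_pos_right h (by positivity)
    have e : (α / (8 * q) + 1) * (8 * q) = α + 8 * q := by field_simp
    linarith
  refine ⟨8 * q * i, 8 * q * i + 2 * q, hi1, by linarith, by linarith, by linarith, ?_, ?_⟩
  · apply infDist_zero_of_mem
    right
    refine ⟨j, i, rfl, ?_, hj2⟩
    rw [hq1]; exact hj1.le
  · refine le_trans (b := q / 4) (by linarith) ?_
    unfold A
    rw [le_infDist E0_nonempty]
    intro e he
    rw [Prod.dist_eq, Real.dist_eq, Real.dist_eq]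
    rcases he with he | ⟨j', i', he1, he2, he3⟩
    · refine le_trans ?_ (le_max_right _ _)
      refine le_trans ?_ (le_abs_self _)
      simp only
      linarith
    · rcases le_or_gt (j + 2) j' with hjj | hjj
      · refine le_trans ?_ (le_max_right _ _)
        refine le_trans ?_ (le_abs_self _)
        have h3 : (1 / 2 : ℝ) ^ j' ≤ (1 / 2) ^ (j + 2) :=
          pow_le_pow_of_le_one (by norm_num) (by norm_num) hjj
        have h4 : (1 / 2 : ℝ) ^ (j + 2) = q / 4 := by rw [pow_add, ← hq]; ring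
        simp only
        linarith
      · refine le_trans ?_ (le_max_left _ _)
        obtain ⟨d, hd⟩ : ∃ d : ℕ, j + 1 = j' + d := ⟨j + 1 - j', by omega⟩
        have h3 : (1 / 2 : ℝ) ^ j' = q / 2 * 2 ^ d := by
          rw [← hq1, hd, pow_add]
          rw [mul_assoc, ← mul_pow]; norm_num
        have h4 : 8 * q * i + 2 * q - e.1 = 4 * q * (((2 * i - 2 ^ d * i' : ℤ) : ℝ) + 1 / 2) := by
          rw [he1, h3]; push_cast; ring
        simp only
        rw [h4, abs_mul, abs_of_pos (by positivity)]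
        have h5 := half_int (2 * i - 2 ^ d * i')
        nlinarith

/-- the embedding -/
def Th (p : ℝ × ℝ × ℝ) : ℝ × ℝ × ℝ := (p.2.2 * p.1 / 4096 + A p.2.1 p.2.2, p.2.2 * p.2.1, p.2.2)

/-- its inverse -/
def Ti (q : ℝ × ℝ × ℝ) : ℝ × ℝ × ℝ :=
  ((q.1 - A (q.2.1 / q.2.2) q.2.2) * 4096 / q.2.2, q.2.1 / q.2.2, q.2.2)

lemma Th_Ti {q : ℝ × ℝ × ℝ} (h : 0 < q.2.2) : Th (Ti q) = q := by
  obtain ⟨X, Y, w⟩ := q
  have h' : w ≠ 0 := ne_of_gt h
  simp only [Th, Ti]
  refine Prod.ext ?_ (Prod.ext ?_ rfl)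
  · simp only; field_simp; ring
  · simp only; field_simp

lemma Ti_Th {p : ℝ × ℝ × ℝ} (h : 0 < p.2.2) : Ti (Th p) = p := by
  obtain ⟨u, v, w⟩ := p
  have h' : w ≠ 0 := ne_of_gt h
  simp only [Th, Ti]
  have e : w * v / w = v := by field_simp
  refine Prod.ext ?_ (Prod.ext ?_ rfl)
  · simp only; rw [e]; field_simp; ring
  · simp only; exact e

lemma continuous_A : Continuous fun p : ℝ × ℝ => A p.1 p.2 := by
  unfold A
  have h1 : Continuous fun p : ℝ × ℝ => (p.1, p.2 / 64) := by fun_prop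
  exact (continuous_infDist_pt E0).comp h1

lemma Th_continuous : Continuous Th := by
  unfold Th
  have h1 : Continuous fun p : ℝ × ℝ × ℝ => A p.2.1 p.2.2 := continuous_A.comp continuous_snd
  fun_prop

lemma ti1 : ∀ q ∈ {q : ℝ × ℝ × ℝ | 0 < q.2.2}, q.2.2 ≠ 0 := by
  intro q hq
  have h : 0 < q.2.2 := hq
  exact h.ne'

lemma ti2 : ContinuousOn (fun q : ℝ × ℝ × ℝ => q.2.1 / q.2.2) {q | 0 < q.2.2} := by
  have c2 : ContinuousOn (fun q : ℝ × ℝ × ℝ => q.2.1) {q | 0 < q.2.2} :=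
    (continuous_fst.comp continuous_snd).continuousOn
  have c3 : ContinuousOn (fun q : ℝ × ℝ × ℝ => q.2.2) {q | 0 < q.2.2} :=
    (continuous_snd.comp continuous_snd).continuousOn
  exact c2.div c3 ti1

lemma ti3 : ContinuousOn (fun q : ℝ × ℝ × ℝ => (q.2.1 / q.2.2, q.2.2)) {q | 0 < q.2.2} := by
  have c3 : ContinuousOn (fun q : ℝ × ℝ × ℝ => q.2.2) {q | 0 < q.2.2} :=
    (continuous_snd.comp continuous_snd).continuousOn
  exact ti2.prodMk c3

lemma ti4 : ContinuousOn (fun q : ℝ × ℝ × ℝ => A (q.2.1 / q.2.2) q.2.2) {q | 0 < q.2.2} := by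
  have h := Continuous.comp_continuousOn (g := fun p : ℝ × ℝ => A p.1 p.2) continuous_A ti3
  exact h

lemma ti5 : ContinuousOn (fun q : ℝ × ℝ × ℝ =>
    (q.1 - A (q.2.1 / q.2.2) q.2.2) * 4096 / q.2.2) {q | 0 < q.2.2} := by
  have c1 : ContinuousOn (fun q : ℝ × ℝ × ℝ => q.1) {q | 0 < q.2.2} := continuous_fst.continuousOn
  have c3 : ContinuousOn (fun q : ℝ × ℝ × ℝ => q.2.2) {q | 0 < q.2.2} :=
    (continuous_snd.comp continuous_snd).continuousOn
  exact ((c1.sub ti4).mul continuousOn_const).div c3 ti1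

lemma Ti_continuousOn : ContinuousOn Ti {q | 0 < q.2.2} := by
  exact ti5.prodMk ti3

/-- the basic box with a square hole -/
def D3 : Set (ℝ × ℝ × ℝ) :=
  {p | |p.1| < 1 ∧ |p.2.1| < 1 ∧ 0 < p.2.2 ∧ p.2.2 < 1 ∧ ¬ (|p.1| ≤ 1 / 2 ∧ |p.2.1| ≤ 1 / 2)}

/-- the horn -/
def D3' : Set (ℝ × ℝ × ℝ) := {q | 0 < q.2.2 ∧ Ti q ∈ D3}

lemma D3_isOpen : IsOpen D3 := by
  have h1 : IsOpen {p : ℝ × ℝ × ℝ | |p.1| < 1} := isOpen_lt (by fun_prop) continuous_const
  have h2 : IsOpen {p : ℝ × ℝ × ℝ | |p.2.1| < 1} := isOpen_lt (by fun_prop) continuous_const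
  have h3 : IsOpen {p : ℝ × ℝ × ℝ | 0 < p.2.2} := isOpen_lt continuous_const (by fun_prop)
  have h4 : IsOpen {p : ℝ × ℝ × ℝ | p.2.2 < 1} := isOpen_lt (by fun_prop) continuous_const
  have h5 : IsClosed {p : ℝ × ℝ × ℝ | |p.1| ≤ 1 / 2} := isClosed_le (by fun_prop) continuous_const
  have h6 : IsClosed {p : ℝ × ℝ × ℝ | |p.2.1| ≤ 1 / 2} := isClosed_le (by fun_prop) continuous_const
  exact h1.inter (h2.inter (h3.inter (h4.inter (h5.inter h6).isOpen_compl)))

lemma D3'_isOpen : IsOpen D3' := by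
  have h1 : IsOpen {q : ℝ × ℝ × ℝ | 0 < q.2.2} := isOpen_lt continuous_const (by fun_prop)
  exact Ti_continuousOn.isOpen_inter_preimage h1 D3_isOpen

lemma Th_mapsTo : MapsTo Th D3 D3' := by
  intro p hp
  refine ⟨hp.2.2.1, ?_⟩
  rw [Ti_Th hp.2.2.1]; exact hp

lemma Ti_mapsTo : MapsTo Ti D3' D3 := fun q hq => hq.2

/-- the embedding is Lipschitz -/
lemma Th_lip {p q : ℝ × ℝ × ℝ} (hp1 : |p.1| ≤ 1) (hp2 : |p.2.1| ≤ 1)
    (hq3 : 0 ≤ q.2.2) (hq3' : q.2.2 ≤ 1) :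
    dist (Th p) (Th q) ≤ 3 * dist p q := by
  have d1 : |p.1 - q.1| ≤ dist p q := by rw [← Real.dist_eq]; exact le_max_left _ _
  have d2 : |p.2.1 - q.2.1| ≤ dist p q := by
    rw [← Real.dist_eq]; exact (le_max_left _ _).trans (le_max_right _ _)
  have d3 : |p.2.2 - q.2.2| ≤ dist p q := by
    rw [← Real.dist_eq]; exact (le_max_right _ _).trans (le_max_right _ _)
  have hd : 0 ≤ dist p q := dist_nonneg
  have key : ∀ a b c e : ℝ, |a| ≤ 1 → 0 ≤ e → e ≤ 1 → |a - b| ≤ dist p q → |c - e| ≤ dist p q →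
      |c * a - e * b| ≤ 2 * dist p q := by
    intro a b c e ha he0 he1 h1 h2
    have e1 : c * a - e * b = (c - e) * a + e * (a - b) := by ring
    rw [e1]
    refine (abs_add_le _ _).trans ?_
    rw [abs_mul, abs_mul, abs_of_nonneg he0]
    have m1 : |c - e| * |a| ≤ dist p q * 1 := mul_le_mul h2 ha (abs_nonneg _) hd
    have m2 : e * |a - b| ≤ 1 * dist p q := mul_le_mul he1 h1 (abs_nonneg _) (by norm_num)
    linarith
  have k1 := key p.1 q.1 p.2.2 q.2.2 hp1 hq3 hq3' d1 d3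
  have k2 := key p.2.1 q.2.1 p.2.2 q.2.2 hp2 hq3 hq3' d2 d3
  have k3 := A_lip p.2.1 p.2.2 q.2.1 q.2.2
  rw [Prod.dist_eq]
  refine max_le ?_ ?_
  · rw [Real.dist_eq]
    have e1 : (Th p).1 - (Th q).1 = (p.2.2 * p.1 - q.2.2 * q.1) / 4096 +
        (A p.2.1 p.2.2 - A q.2.1 q.2.2) := by unfold Th; ring
    rw [e1]
    refine (abs_add_le _ _).trans ?_
    rw [abs_div, abs_of_pos (by norm_num : (0 : ℝ) < 4096)]
    linarith
  · rw [Prod.dist_eq]
    refine max_le ?_ ?_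
    · rw [Real.dist_eq]
      refine (le_of_eq ?_).trans (k2.trans (by linarith))
      rfl
    · rw [Real.dist_eq]
      exact d3.trans (by linarith)

/-- one piece of a crossing is long -/
lemma piece {a b : ℝ} (hab : a ≤ b) {p : ℝ → ℝ × ℝ × ℝ} {V : ℝ → ℝ}
    (hv : ContinuousOn (fun s => (p s).2.1) (Icc a b))
    (hu : ∀ s ∈ Icc a b, |(p s).1| < 1)
    (hw0 : 0 < (p a).2.2) (hw1 : (p a).2.2 ≤ 1) (hwp : ∀ s ∈ Icc a b, 0 < (p s).2.2)
    (hV : ∀ s ∈ Icc a b, ∀ t ∈ Icc a b, s ≤ t → ‖Th (p t) - Th (p s)‖ ≤ V t - V s)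
    (hlen : (p a).2.2 / 2 ≤ |(p b).2.1 - (p a).2.1|) : (p a).2.2 / 1024 ≤ V b - V a := by
  by_contra hcon
  push Not at hcon
  set w := (p a).2.2 with hw
  have ha : a ∈ Icc a b := left_mem_Icc.2 hab
  have hmono : ∀ s ∈ Icc a b, ∀ t ∈ Icc a b, s ≤ t → V s ≤ V t := by
    intro s hs t ht hst
    have := (norm_nonneg _).trans (hV s hs t ht hst)
    linarith
  have hb : b ∈ Icc a b := right_mem_Icc.2 hab
  have hcost : ∀ s ∈ Icc a b, ∀ t ∈ Icc a b, ‖Th (p t) - Th (p s)‖ < w / 1024 := by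
    have h1 : ∀ s ∈ Icc a b, ∀ t ∈ Icc a b, s ≤ t → ‖Th (p t) - Th (p s)‖ < w / 1024 := by
      intro s hs t ht hst
      have m1 := hmono a ha s hs hs.1
      have m2 := hmono t ht b hb ht.2
      exact (hV s hs t ht hst).trans_lt (by linarith)
    intro s hs t ht
    rcases le_total s t with h | h
    · exact h1 s hs t ht h
    · rw [norm_sub_rev]; exact h1 t ht s hs h
  have hwv : ∀ s ∈ Icc a b, |(p s).2.2 - w| < w / 1024 := by
    intro s hs
    have h1 := hcost a ha s hs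
    have h2 : |(Th (p s) - Th (p a)).2.2| ≤ ‖Th (p s) - Th (p a)‖ := by
      rw [← Real.norm_eq_abs]
      exact (norm_snd_le _).trans (norm_snd_le _)
    have h3 : (Th (p s) - Th (p a)).2.2 = (p s).2.2 - w := rfl
    rw [h3] at h2
    exact h2.trans_lt h1
  -- values of the displacement
  have hX : ∀ s ∈ Icc a b, ∀ t ∈ Icc a b, |A (p s).2.1 w - A (p t).2.1 w| < w / 256 := by
    intro s hs t ht
    have h1 := hcost s hs t ht
    have h2 : |(Th (p t) - Th (p s)).1| ≤ ‖Th (p t) - Th (p s)‖ := by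
      rw [← Real.norm_eq_abs]
      exact norm_fst_le _
    have h3 : (Th (p t) - Th (p s)).1 = ((p t).2.2 * (p t).1 / 4096 + A (p t).2.1 (p t).2.2) -
        ((p s).2.2 * (p s).1 / 4096 + A (p s).2.1 (p s).2.2) := rfl
    have b1 : ∀ r ∈ Icc a b, |(p r).2.2 * (p r).1 / 4096| ≤ w / 4000 := by
      intro r hr
      have c1 := hwv r hr
      rw [abs_lt] at c1
      have c2 := (hu r hr).le
      have c3 := hwp r hr
      rw [abs_div, abs_mul, abs_of_pos c3, abs_of_pos (by norm_num : (0 : ℝ) < 4096)]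
      have c4 : (p r).2.2 * |(p r).1| ≤ (w + w / 1024) * 1 :=
        mul_le_mul (by linarith) c2 (abs_nonneg _) (by positivity)
      rw [div_le_iff₀ (by norm_num)]
      linarith
    have b2 : ∀ r ∈ Icc a b, |A (p r).2.1 (p r).2.2 - A (p r).2.1 w| ≤ w / 65536 := by
      intro r hr
      have c1 := hwv r hr
      have c2 := A_lip (p r).2.1 (p r).2.2 (p r).2.1 w
      rw [sub_self, abs_zero, zero_add] at c2
      linarith
    have s1 := b1 s hs
    have s2 := b1 t ht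
    have s3 := b2 s hs
    have s4 := b2 t ht
    have s5 := h2.trans_lt h1
    rw [h3] at s5
    rw [abs_le] at s1 s2 s3 s4
    rw [abs_lt] at s5 ⊢
    constructor <;> linarith [s1.1, s1.2, s2.1, s2.2, s3.1, s3.2, s4.1, s4.2, s5.1, s5.2]
  have hfin : ∀ α : ℝ, (∀ y, α ≤ y → y ≤ α + w / 2 → ∃ s ∈ Icc a b, (p s).2.1 = y) → False := by
    intro α hα
    obtain ⟨v1, v3, k1, k2, k3, k4, k5, k6⟩ := osc hw0 hw1 α
    obtain ⟨s, hs, hs'⟩ := hα v1 k1 k2
    obtain ⟨t, ht, ht'⟩ := hα v3 k3 k4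
    have h1 := hX t ht s hs
    rw [hs', ht', k5, sub_zero] at h1
    exact absurd ((le_abs_self _).trans_lt h1) (not_lt.2 k6)
  rcases le_total (p a).2.1 (p b).2.1 with h | h
  · rw [abs_of_nonneg (by linarith)] at hlen
    refine hfin (p a).2.1 fun y hy1 hy2 => ?_
    obtain ⟨s, hs, hse⟩ := intermediate_value_Icc hab hv ⟨hy1, by linarith⟩
    exact ⟨s, hs, hse⟩
  · rw [abs_of_nonpos (by linarith)] at hlen
    refine hfin (p b).2.1 fun y hy1 hy2 => ?_
    obtain ⟨s, hs, hse⟩ := intermediate_value_Icc' hab hv ⟨hy1, by linarith⟩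
    exact ⟨s, hs, hse⟩

/-- crossings are long -/
lemma crossing {p : ℝ → ℝ × ℝ × ℝ} {V : ℝ → ℝ} {δ : ℝ} (hδ : 0 < δ) (N : ℕ) :
    ∀ {a b : ℝ}, a ≤ b → ContinuousOn (fun s => (p s).2.1) (Icc a b) →
    (∀ s ∈ Icc a b, |(p s).1| < 1) → (∀ s ∈ Icc a b, δ ≤ (p s).2.2) →
    (∀ s ∈ Icc a b, (p s).2.2 ≤ 1) →
    (∀ s ∈ Icc a b, ∀ t ∈ Icc a b, s ≤ t → ‖Th (p t) - Th (p s)‖ ≤ V t - V s) →
    |(p b).2.1 - (p a).2.1| ≤ N * (δ / 2) →
    |(p b).2.1 - (p a).2.1| ≤ 512 * (V b - V a) + 1 / 2 := by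
  induction N with
  | zero =>
    intro a b hab _ _ _ _ hV hN
    have h1 := (norm_nonneg _).trans (hV a (left_mem_Icc.2 hab) b (right_mem_Icc.2 hab) hab)
    simp only [Nat.cast_zero, zero_mul] at hN
    linarith
  | succ N ih =>
    intro a b hab hv hu hw hw1 hV hN
    have ha : a ∈ Icc a b := left_mem_Icc.2 hab
    have hb : b ∈ Icc a b := right_mem_Icc.2 hab
    have hVab := (norm_nonneg _).trans (hV a ha b hb hab)
    set w := (p a).2.2 with hwd
    have hwa := hw a ha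
    have hwa1 := hw1 a ha
    by_cases hshort : |(p b).2.1 - (p a).2.1| ≤ w / 2
    · have : w / 2 ≤ 1 / 2 := by linarith
      linarith
    push Not at hshort
    obtain ⟨s, hs, hs1, hs2⟩ : ∃ s ∈ Icc a b, |(p s).2.1 - (p a).2.1| = w / 2 ∧
        |(p b).2.1 - (p a).2.1| = w / 2 + |(p b).2.1 - (p s).2.1| := by
      rcases le_total (p a).2.1 (p b).2.1 with h | h
      · rw [abs_of_nonneg (by linarith)] at hshort
        obtain ⟨s, hs, hse⟩ := intermediate_value_Icc hab hv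
          (show (p a).2.1 + w / 2 ∈ Icc (p a).2.1 (p b).2.1 from ⟨by linarith, by linarith⟩)
        simp only at hse
        refine ⟨s, hs, ?_, ?_⟩
        · rw [hse, add_sub_cancel_left, abs_of_pos (by linarith)]
        · rw [hse, abs_of_nonneg (by linarith), abs_of_nonneg (by linarith)]; ring
      · rw [abs_of_nonpos (by linarith)] at hshort
        obtain ⟨s, hs, hse⟩ := intermediate_value_Icc' hab hv
          (show (p a).2.1 - w / 2 ∈ Icc (p b).2.1 (p a).2.1 from ⟨by linarith, by linarith⟩)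
        simp only at hse
        refine ⟨s, hs, ?_, ?_⟩
        · rw [hse, sub_sub_cancel_left, abs_neg, abs_of_pos (by linarith)]
        · rw [hse, abs_of_nonpos (by linarith), abs_of_nonpos (by linarith)]; ring
    have hsub1 : Icc a s ⊆ Icc a b := Icc_subset_Icc_right hs.2
    have hsub2 : Icc s b ⊆ Icc a b := Icc_subset_Icc_left hs.1
    have k1 := piece hs.1 (hv.mono hsub1) (fun r hr => hu r (hsub1 hr)) (by linarith) hwa1
      (fun r hr => lt_of_lt_of_le hδ (hw r (hsub1 hr)))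
      (fun r hr t ht => hV r (hsub1 hr) t (hsub1 ht)) (le_of_eq hs1.symm)
    have k2 := ih hs.2 (hv.mono hsub2) (fun r hr => hu r (hsub2 hr)) (fun r hr => hw r (hsub2 hr))
      (fun r hr => hw1 r (hsub2 hr)) (fun r hr t ht => hV r (hsub2 hr) t (hsub2 ht)) (by
        push_cast at hN
        linarith)
    rw [hs2]
    linarith

/-- a short curve does not cross -/
lemma dichotomy {p : ℝ → ℝ × ℝ × ℝ} (hp : ContinuousOn p (Icc 0 4))
    (hpO : ∀ s ∈ Icc (0 : ℝ) 4, p s ∈ D3)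
    {V : ℝ → ℝ} (hV : ∀ s ∈ Icc (0 : ℝ) 4, ∀ t ∈ Icc (0 : ℝ) 4, s ≤ t →
      ‖Th (p t) - Th (p s)‖ ≤ V t - V s)
    (hsmall : V 4 - V 0 < 1 / 1024) :
    (∀ s ∈ Icc (0 : ℝ) 4, -(1 / 2) < (p s).2.1) ∨ (∀ s ∈ Icc (0 : ℝ) 4, (p s).2.1 < 1 / 2) := by
  have hv : ContinuousOn (fun s => (p s).2.1) (Icc 0 4) :=
    continuous_fst.comp_continuousOn (continuous_snd.comp_continuousOn hp)
  have hwc : ContinuousOn (fun s => (p s).2.2) (Icc 0 4) :=
    continuous_snd.comp_continuousOn (continuous_snd.comp_continuousOn hp)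
  obtain ⟨s0, hs0, hmin⟩ := isCompact_Icc.exists_isMinOn (⟨0, by norm_num⟩ : (Icc (0 : ℝ) 4).Nonempty)
    hwc
  have hδ : 0 < (p s0).2.2 := (hpO s0 hs0).2.2.1
  have hmono : ∀ s ∈ Icc (0 : ℝ) 4, ∀ t ∈ Icc (0 : ℝ) 4, s ≤ t → V s ≤ V t := by
    intro s hs t ht hst
    have := (norm_nonneg _).trans (hV s hs t ht hst)
    linarith
  have h04 : (0 : ℝ) ∈ Icc (0 : ℝ) 4 := by norm_num
  have h44 : (4 : ℝ) ∈ Icc (0 : ℝ) 4 := by norm_num
  have key : ∀ s ∈ Icc (0 : ℝ) 4, ∀ t ∈ Icc (0 : ℝ) 4, s ≤ t →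
      |(p t).2.1 - (p s).2.1| < 1 := by
    intro s hs t ht hst
    have hsub : Icc s t ⊆ Icc 0 4 := Icc_subset_Icc hs.1 ht.2
    obtain ⟨N, hN⟩ := exists_nat_ge (|(p t).2.1 - (p s).2.1| / ((p s0).2.2 / 2))
    rw [div_le_iff₀ (by positivity)] at hN
    have h1 := crossing hδ N hst (hv.mono hsub) (fun r hr => (hpO r (hsub hr)).1)
      (fun r hr => hmin (hsub hr)) (fun r hr => (hpO r (hsub hr)).2.2.2.1.le)
      (fun r hr r' hr' => hV r (hsub hr) r' (hsub hr')) hN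
    have m1 := hmono 0 h04 s hs hs.1
    have m2 := hmono t ht 4 h44 ht.2
    linarith
  by_contra hcon
  push Not at hcon
  obtain ⟨⟨s1, hs1, h1⟩, ⟨s2, hs2, h2⟩⟩ := hcon
  rcases le_total s1 s2 with h | h
  · have := (le_abs_self _).trans_lt (key s1 hs1 s2 hs2 h)
    linarith
  · have := (neg_abs_le _).trans' (neg_lt_neg (key s2 hs2 s1 hs1 h)).le
    have h3 := key s2 hs2 s1 hs1 h
    rw [abs_lt] at h3
    linarith [h3.1]

end

end Pool.Agent.KS6_69.WS.Horn
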