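import Pool.Agent.KS6_69.WS.Horn

/-!
# Maps acting on the first three coordinates
-/

set_option autoImplicit false

open MeasureTheory Set Filter Topology Metric
open scoped ENNReal NNReal
open Pool.Agent.KS6_69.WS.SobDefs Pool.Agent.KS6_69.WS.Base Pool.Agent.KS6_69.WS.Horn

namespace Pool.Agent.KS6_69.WS.Lift3

noncomputable section

variable {m : ℕ}

/-- projection to the first three coordinates -/
def Pm (m : ℕ) : Eu (m + 3) →L[ℝ] ℝ × ℝ × ℝ :=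
  (EuclideanSpace.proj (0 : Fin (m + 3))).prod
    ((EuclideanSpace.proj (1 : Fin (m + 3))).prod (EuclideanSpace.proj (2 : Fin (m + 3))))

lemma Pm_apply (x : Eu (m + 3)) : Pm m x = (x 0, x 1, x 2) := rfl

/-- inclusion of the first three coordinates -/
def im (m : ℕ) : ℝ × ℝ × ℝ →L[ℝ] Eu (m + 3) :=
  (ContinuousLinearMap.fst ℝ ℝ (ℝ × ℝ)).smulRight (EuclideanSpace.single 0 1) +
    (((ContinuousLinearMap.fst ℝ ℝ ℝ).comp (ContinuousLinearMap.snd ℝ ℝ (ℝ × ℝ))).smulRight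
      (EuclideanSpace.single 1 1) +
    ((ContinuousLinearMap.snd ℝ ℝ ℝ).comp (ContinuousLinearMap.snd ℝ ℝ (ℝ × ℝ))).smulRight
      (EuclideanSpace.single 2 1))

lemma im_eq (p : ℝ × ℝ × ℝ) : im m p = p.1 • EuclideanSpace.single 0 1 +
    (p.2.1 • EuclideanSpace.single 1 1 + p.2.2 • EuclideanSpace.single 2 1) := rfl

lemma val2 : ((2 : Fin (m + 3)) : ℕ) = 2 := Fin.val_two
lemma val1 : ((1 : Fin (m + 3)) : ℕ) = 1 := Fin.val_one (m + 1)
lemma val0 : ((0 : Fin (m + 3)) : ℕ) = 0 := Fin.val_zero (m + 2)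

lemma two_ne0 : (2 : Fin (m + 3)) ≠ 0 := by
  intro h
  have := congrArg Fin.val h
  have e : ((2 : Fin (m + 3)) : ℕ) = 2 := val2
  rw [e] at this
  simp at this

lemma two_ne1 : (2 : Fin (m + 3)) ≠ 1 := by
  intro h
  have := congrArg Fin.val h
  have e : ((2 : Fin (m + 3)) : ℕ) = 2 := val2
  have e1 : ((1 : Fin (m + 3)) : ℕ) = 1 := val1
  rw [e, e1] at this
  omega

lemma im_0 (p : ℝ × ℝ × ℝ) : (im m p) 0 = p.1 := by
  rw [im_eq]
  have h2 := two_ne0 (m := m)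
  simp [h2.symm]

lemma im_1 (p : ℝ × ℝ × ℝ) : (im m p) 1 = p.2.1 := by
  rw [im_eq]
  have h2 := two_ne1 (m := m)
  simp [h2.symm]

lemma im_2 (p : ℝ × ℝ × ℝ) : (im m p) 2 = p.2.2 := by
  rw [im_eq]
  have h2 := two_ne1 (m := m)
  have h0 := two_ne0 (m := m)
  simp [h2, h0]

lemma idx {i : Fin (m + 3)} (hi : 3 ≤ (i : ℕ)) : i ≠ 0 ∧ i ≠ 1 ∧ i ≠ 2 := by
  have e2 : ((2 : Fin (m + 3)) : ℕ) = 2 := val2
  have e1 : ((1 : Fin (m + 3)) : ℕ) = 1 := val1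
  have e0 : ((0 : Fin (m + 3)) : ℕ) = 0 := val0
  refine ⟨?_, ?_, ?_⟩
  · rintro rfl; omega
  · rintro rfl; omega
  · rintro rfl; omega

lemma im_coord (p : ℝ × ℝ × ℝ) {i : Fin (m + 3)} (hi : 3 ≤ (i : ℕ)) : (im m p) i = 0 := by
  rw [im_eq]
  obtain ⟨h0, h1, h2⟩ := idx hi
  simp [h0, h1, h2]

lemma Pm_im (p : ℝ × ℝ × ℝ) : Pm m (im m p) = p := by
  rw [Pm_apply, im_0, im_1, im_2]

lemma norm_Pm_le (x : Eu (m + 3)) : ‖Pm m x‖ ≤ ‖x‖ := by
  rw [Pm_apply, Prod.norm_def, Prod.norm_def]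
  exact max_le (PiLp.norm_apply_le x 0)
    (max_le (PiLp.norm_apply_le x 1) (PiLp.norm_apply_le x 2))

lemma norm_im_le (p : ℝ × ℝ × ℝ) : ‖im m p‖ ≤ 3 * ‖p‖ := by
  rw [im_eq]
  have h2 : ‖p.1‖ ≤ ‖p‖ := norm_fst_le p
  have h3 : ‖p.2.1‖ ≤ ‖p‖ := (norm_fst_le _).trans (norm_snd_le p)
  have h4 : ‖p.2.2‖ ≤ ‖p‖ := (norm_snd_le _).trans (norm_snd_le p)
  calc ‖p.1 • EuclideanSpace.single (0 : Fin (m + 3)) (1 : ℝ) +
        (p.2.1 • EuclideanSpace.single 1 1 + p.2.2 • EuclideanSpace.single 2 1)‖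
      ≤ ‖p.1 • EuclideanSpace.single (0 : Fin (m + 3)) (1 : ℝ)‖ +
        ‖p.2.1 • EuclideanSpace.single (1 : Fin (m + 3)) (1 : ℝ) +
          p.2.2 • EuclideanSpace.single 2 1‖ := norm_add_le _ _
    _ ≤ ‖p.1 • EuclideanSpace.single (0 : Fin (m + 3)) (1 : ℝ)‖ +
        (‖p.2.1 • EuclideanSpace.single (1 : Fin (m + 3)) (1 : ℝ)‖ +
          ‖p.2.2 • EuclideanSpace.single (2 : Fin (m + 3)) (1 : ℝ)‖) := by
        gcongr; exact norm_add_le _ _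
    _ = ‖p.1‖ + (‖p.2.1‖ + ‖p.2.2‖) := by rw [norm_smul, norm_smul, norm_smul]; simp
    _ ≤ 3 * ‖p‖ := by linarith

/-- acting on the first three coordinates -/
def lift (A : ℝ × ℝ × ℝ → ℝ × ℝ × ℝ) (x : Eu (m + 3)) : Eu (m + 3) :=
  x + im m (A (Pm m x) - Pm m x)

lemma Pm_lift (A : ℝ × ℝ × ℝ → ℝ × ℝ × ℝ) (x : Eu (m + 3)) : Pm m (lift A x) = A (Pm m x) := by
  unfold lift
  rw [map_add, Pm_im]; abel

lemma lift_apply (A : ℝ × ℝ × ℝ → ℝ × ℝ × ℝ) (x : Eu (m + 3)) {i : Fin (m + 3)}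
    (hi : 3 ≤ (i : ℕ)) : (lift A x) i = x i := by
  unfold lift
  rw [PiLp.add_apply, im_coord _ hi, add_zero]

lemma lift_lift {A B : ℝ × ℝ × ℝ → ℝ × ℝ × ℝ} {x : Eu (m + 3)} (h : B (A (Pm m x)) = Pm m x) :
    lift B (lift A x) = x := by
  have h1 := Pm_lift A x
  unfold lift at h1 ⊢
  rw [h1, h, map_sub, map_sub]; abel

/-- cylinder -/
def cyl (m : ℕ) (U : Set (ℝ × ℝ × ℝ)) : Set (Eu (m + 3)) :=
  {x | Pm m x ∈ U ∧ ∀ i : Fin (m + 3), 3 ≤ (i : ℕ) → 0 < x i ∧ x i < 1}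

lemma cyl_isOpen {U : Set (ℝ × ℝ × ℝ)} (hU : IsOpen U) : IsOpen (cyl m U) := by
  have h1 : IsOpen {x : Eu (m + 3) | Pm m x ∈ U} := hU.preimage (Pm m).continuous
  have h2 : IsOpen {x : Eu (m + 3) | ∀ i : Fin (m + 3), 3 ≤ (i : ℕ) → 0 < x i ∧ x i < 1} := by
    have : {x : Eu (m + 3) | ∀ i : Fin (m + 3), 3 ≤ (i : ℕ) → 0 < x i ∧ x i < 1} =
        ⋂ i : Fin (m + 3), {x : Eu (m + 3) | 3 ≤ (i : ℕ) → 0 < x i ∧ x i < 1} := by
      ext x; simp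
    rw [this]
    apply isOpen_iInter_of_finite
    intro i
    by_cases hi : 3 ≤ (i : ℕ)
    · simp only [hi, true_imp_iff]
      have a1 : IsOpen {x : Eu (m + 3) | 0 < x i} := isOpen_lt continuous_const (by fun_prop)
      have a2 : IsOpen {x : Eu (m + 3) | x i < 1} := isOpen_lt (by fun_prop) continuous_const
      exact a1.inter a2
    · simp [hi]
  exact h1.inter h2

lemma cyl_mono {U V : Set (ℝ × ℝ × ℝ)} (h : U ⊆ V) : cyl m U ⊆ cyl m V :=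
  fun _ hx => ⟨h hx.1, hx.2⟩

lemma norm_le_of_coord {x : Eu (m + 3)} {C : ℝ} (hC : 0 ≤ C) (h : ∀ i, |x i| ≤ C) :
    ‖x‖ ≤ Real.sqrt (m + 3) * C := by
  rw [EuclideanSpace.norm_eq]
  calc √(∑ i, ‖x i‖ ^ 2) ≤ √(∑ _i : Fin (m + 3), C ^ 2) := by
        apply Real.sqrt_le_sqrt
        apply Finset.sum_le_sum
        intro i _
        have := h i
        rw [Real.norm_eq_abs]
        gcongr
    _ = Real.sqrt (m + 3) * C := by
        rw [Finset.sum_const, Finset.card_univ, Fintype.card_fin, nsmul_eq_mul,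
          Real.sqrt_mul (by positivity), Real.sqrt_sq hC]
        push_cast; rfl

lemma cyl_coord {U : Set (ℝ × ℝ × ℝ)} {C : ℝ} (hC : 1 ≤ C) (hU : ∀ p ∈ U, ‖p‖ ≤ C)
    {x : Eu (m + 3)} (hx : x ∈ cyl m U) (i : Fin (m + 3)) : |x i| ≤ C := by
  have h1 := hU _ hx.1
  rw [Pm_apply, Prod.norm_def, Prod.norm_def] at h1
  by_cases hi : 3 ≤ (i : ℕ)
  · have := hx.2 i hi
    rw [abs_le]; constructor <;> linarith
  · have h2 : i = 0 ∨ i = 1 ∨ i = 2 := by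
      rcases i with ⟨i, hi'⟩
      simp only [not_le] at hi
      interval_cases i
      · left; rfl
      · right; left; rfl
      · right; right
        apply Fin.ext
        exact val2.symm
    rcases h2 with rfl | rfl | rfl
    · exact (le_max_left _ _).trans h1
    · exact ((le_max_left _ _).trans (le_max_right _ _)).trans h1
    · exact ((le_max_right _ _).trans (le_max_right _ _)).trans h1

lemma cyl_bdd {U : Set (ℝ × ℝ × ℝ)} {C : ℝ} (hC : 1 ≤ C) (hU : ∀ p ∈ U, ‖p‖ ≤ C) :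
    ∀ x ∈ cyl m U, ‖x‖ ≤ Real.sqrt (m + 3) * C := fun _ hx =>
  norm_le_of_coord (by linarith) fun i => cyl_coord hC hU hx i

lemma lift_mapsTo {A : ℝ × ℝ × ℝ → ℝ × ℝ × ℝ} {U V : Set (ℝ × ℝ × ℝ)} (h : MapsTo A U V) :
    MapsTo (lift A) (cyl m U) (cyl m V) := by
  intro x hx
  refine ⟨?_, ?_⟩
  · rw [Pm_lift]; exact h hx.1
  · intro i hi
    rw [lift_apply A x hi]; exact hx.2 i hi

lemma lift_continuousOn {A : ℝ × ℝ × ℝ → ℝ × ℝ × ℝ} {U : Set (ℝ × ℝ × ℝ)}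
    (h : ContinuousOn A U) : ContinuousOn (lift A) (cyl m U) := by
  unfold lift
  apply continuousOn_id.add
  apply (im m).continuous.comp_continuousOn
  apply ContinuousOn.sub _ (Pm m).continuous.continuousOn
  exact h.comp (Pm m).continuous.continuousOn fun x hx => hx.1

lemma lift_isHomeo {A B : ℝ × ℝ × ℝ → ℝ × ℝ × ℝ} {U V : Set (ℝ × ℝ × ℝ)} (hA : MapsTo A U V)
    (hB : MapsTo B V U)
    (hBA : ∀ p ∈ U, B (A p) = p) (hAB : ∀ q ∈ V, A (B q) = q) (hAc : ContinuousOn A U)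
    (hBc : ContinuousOn B V) : IsHomeo (cyl m U) (cyl m V) (lift A) := by
  have hinv : InvOn (lift B) (lift A) (cyl m U) (cyl m V) :=
    ⟨fun x hx => lift_lift (hBA _ hx.1), fun x hx => lift_lift (hAB _ hx.1)⟩
  exact ⟨hinv.bijOn (lift_mapsTo hA) (lift_mapsTo hB), lift_continuousOn hAc,
    lift B, hinv, lift_continuousOn hBc⟩

/-- lifts of Lipschitz maps -/
lemma lift_dist {A : ℝ × ℝ × ℝ → ℝ × ℝ × ℝ} {U : Set (ℝ × ℝ × ℝ)}
    (h : ∀ p ∈ U, ∀ q ∈ U, dist (A p) (A q) ≤ 6 * dist p q) {y z : Eu (m + 3)}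
    (hy : Pm m y ∈ U) (hz : Pm m z ∈ U) : dist (lift A y) (lift A z) ≤ (22 : ℝ≥0) * dist y z := by
  rw [dist_eq_norm, dist_eq_norm]
  have h1 : lift A y - lift A z = (y - z) + im m ((A (Pm m y) - A (Pm m z)) - Pm m (y - z)) := by
    unfold lift
    rw [map_sub, map_sub, map_sub, map_sub, map_sub, map_sub]; abel
  have h2 : ‖A (Pm m y) - A (Pm m z)‖ ≤ 6 * ‖y - z‖ := by
    have := h _ hy _ hz
    rw [dist_eq_norm, dist_eq_norm, ← map_sub] at this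
    calc _ ≤ _ := this
      _ ≤ (6 : ℝ) * ‖y - z‖ := by
        gcongr; exact norm_Pm_le _
  rw [h1]
  calc ‖(y - z) + im m ((A (Pm m y) - A (Pm m z)) - Pm m (y - z))‖
      ≤ ‖y - z‖ + ‖im m ((A (Pm m y) - A (Pm m z)) - Pm m (y - z))‖ := norm_add_le _ _
    _ ≤ ‖y - z‖ + 3 * (6 * ‖y - z‖ + ‖y - z‖) := by
        have h3 := norm_im_le (m := m) ((A (Pm m y) - A (Pm m z)) - Pm m (y - z))
        have h4 := norm_sub_le (A (Pm m y) - A (Pm m z)) (Pm m (y - z))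
        have h5 := norm_Pm_le (y - z)
        linarith
    _ = (22 : ℝ≥0) * ‖y - z‖ := by push_cast; ring

lemma lift_locLip {A : ℝ × ℝ × ℝ → ℝ × ℝ × ℝ} {U : Set (ℝ × ℝ × ℝ)} (hU : IsOpen U)
    (h : ∀ p ∈ U, ∀ q ∈ U, dist (A p) (A q) ≤ 6 * dist p q) : LocLip 22 (cyl m U) (lift A) := by
  intro x hx
  refine ⟨cyl m U, (cyl_isOpen hU).mem_nhds hx, ?_⟩
  apply LipschitzOnWith.of_dist_le_mul
  intro y hy z hz
  exact lift_dist h hy.1 hz.1

lemma cyl_convex {U : Set (ℝ × ℝ × ℝ)} (hU : Convex ℝ U) : Convex ℝ (cyl m U) := by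
  intro x hx y hy a b ha hb hab
  refine ⟨?_, ?_⟩
  · rw [map_add, map_smul, map_smul]
    exact hU hx.1 hy.1 ha hb hab
  · intro i hi
    have h1 := hx.2 i hi
    have h2 := hy.2 i hi
    simp only [PiLp.add_apply, PiLp.smul_apply, smul_eq_mul]
    have hb' : b = 1 - a := by linarith
    subst hb'
    constructor
    · rcases ha.eq_or_lt with h | h
      · rw [← h]; linarith
      · nlinarith
    · rcases ha.eq_or_lt with h | h
      · rw [← h]; linarith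
      · nlinarith

/-- a point of the cylinder over `p` -/
def pt (m : ℕ) (p : ℝ × ℝ × ℝ) : Eu (m + 3) :=
  WithLp.toLp 2 (fun i : Fin (m + 3) => if (i : ℕ) < 3 then (im m p) i else 1 / 2)

lemma Pm_pt (p : ℝ × ℝ × ℝ) : Pm m (pt m p) = p := by
  have e2 : ((2 : Fin (m + 3)) : ℕ) = 2 := val2
  have e1 : ((1 : Fin (m + 3)) : ℕ) = 1 := val1
  have e0 : ((0 : Fin (m + 3)) : ℕ) = 0 := val0
  rw [Pm_apply]
  have h0 : (pt m p) 0 = p.1 := by
    show (if ((0 : Fin (m + 3)) : ℕ) < 3 then (im m p) 0 else 1 / 2) = _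
    rw [e0, if_pos (by norm_num), im_0]
  have h1 : (pt m p) 1 = p.2.1 := by
    show (if ((1 : Fin (m + 3)) : ℕ) < 3 then (im m p) 1 else 1 / 2) = _
    rw [e1, if_pos (by norm_num), im_1]
  have h2 : (pt m p) 2 = p.2.2 := by
    show (if ((2 : Fin (m + 3)) : ℕ) < 3 then (im m p) 2 else 1 / 2) = _
    rw [e2, if_pos (by norm_num), im_2]
  rw [h0, h1, h2]

lemma pt_coord (p : ℝ × ℝ × ℝ) {i : Fin (m + 3)} (hi : 3 ≤ (i : ℕ)) : (pt m p) i = 1 / 2 := by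
  show (if (i : ℕ) < 3 then (im m p) i else 1 / 2) = _
  rw [if_neg (by omega)]

lemma pt_mem {U : Set (ℝ × ℝ × ℝ)} {p : ℝ × ℝ × ℝ} (hp : p ∈ U) : pt m p ∈ cyl m U := by
  refine ⟨?_, fun i hi => ?_⟩
  · rw [Pm_pt]; exact hp
  · rw [pt_coord p hi]; norm_num

end

end Pool.Agent.KS6_69.WS.Lift3
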