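import Pool.Agent.KS6_69.WS.Maps

/-!
# Essential loops have long images
-/

set_option autoImplicit false

open MeasureTheory Set Filter Topology Metric
open scoped ENNReal NNReal
open Pool.Agent.KS6_69.WS.SobDefs Pool.Agent.KS6_69.WS.Base Pool.Agent.KS6_69.WS.Horn
open Pool.Agent.KS6_69.WS.Lift3 Pool.Agent.KS6_69.WS.Maps

namespace Pool.Agent.KS6_69.WS.Loops

noncomputable section

variable {m : ℕ}

/-- a straight homotopy inside the cylinder over a set -/
lemma closedLog_straight {σ : ℝ → Eu (m + 3)} (hσ : ContinuousOn σ (Icc 0 4)) (h04 : σ 0 = σ 4)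
    {Q : Eu (m + 3) → ℂ} (hQ : ContinuousOn Q (cyl m D3)) (hQ0 : ∀ x ∈ cyl m D3, Q x ≠ 0)
    (p : ℝ × ℝ × ℝ)
    (hmem : ∀ s ∈ Icc (0 : ℝ) 4, ∀ u ∈ Icc (0 : ℝ) 1, (1 - u) • σ s + u • pt m p ∈ cyl m D3) :
    ClosedLog (fun s => Q (σ s)) := by
  have h1 := closedLog_of_homotopy (fun r => Q ((1 - r.2) • σ r.1 + r.2 • pt m p)) (by
    apply hQ.comp _ (fun r hr => hmem r.1 hr.1 r.2 hr.2)
    have a1 : ContinuousOn (fun r : ℝ × ℝ => σ r.1) (Icc 0 4 ×ˢ Icc 0 1) :=
      hσ.comp continuous_fst.continuousOn fun r hr => hr.1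
    have a2 : ContinuousOn (fun r : ℝ × ℝ => 1 - r.2) (Icc 0 4 ×ˢ Icc 0 1) := by fun_prop
    have a3 : ContinuousOn (fun r : ℝ × ℝ => r.2 • pt m p) (Icc 0 4 ×ˢ Icc 0 1) := by fun_prop
    exact (a2.smul a1).add a3) (fun r hr => hQ0 _ (hmem r.1 hr.1 r.2 hr.2)) (fun u hu => by rw [h04]) (by
    simp only [sub_self, zero_smul, one_smul, zero_add]
    apply closedLog_const
    have := hQ0 _ (hmem 0 (by norm_num) 1 (by norm_num))
    simpa using this)
  simpa using h1

/-- a loop staying above or below can be contracted -/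
lemma closedLog_side {σ : ℝ → Eu (m + 3)} (hσ : ContinuousOn σ (Icc 0 4)) (h04 : σ 0 = σ 4)
    (hσO : ∀ s ∈ Icc (0 : ℝ) 4, σ s ∈ cyl m D3)
    {Q : Eu (m + 3) → ℂ} (hQ : ContinuousOn Q (cyl m D3)) (hQ0 : ∀ x ∈ cyl m D3, Q x ≠ 0)
    (c : ℝ) (hc : |c| = 3 / 4)
    (hd : ∀ s ∈ Icc (0 : ℝ) 4, ∀ r ∈ Icc (0 : ℝ) 1,
      |(Pm m (σ s)).2.1 + r * (c - (Pm m (σ s)).2.1)| ≤ 1 / 2 → |(Pm m (σ s)).2.1| ≤ 1 / 2) :
    ClosedLog (fun s => Q (σ s)) := by
  have hz : ContinuousOn (fun s => (Pm m (σ s)).2.1) (Icc 0 4) :=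
    continuous_fst.comp_continuousOn
      (continuous_snd.comp_continuousOn ((Pm m).continuous.comp_continuousOn hσ))
  set H : ℝ × ℝ → Eu (m + 3) := fun r => σ r.1 + im m (0, r.2 * (c - (Pm m (σ r.1)).2.1), 0)
    with hH
  have hPH : ∀ r, Pm m (H r) = ((Pm m (σ r.1)).1,
      (Pm m (σ r.1)).2.1 + r.2 * (c - (Pm m (σ r.1)).2.1), (Pm m (σ r.1)).2.2) := by
    intro r
    simp only [hH, map_add, Pm_im]
    refine Prod.ext ?_ (Prod.ext ?_ ?_) <;> simp
  have hHc : ContinuousOn H (Icc 0 4 ×ˢ Icc 0 1) := by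
    have a1 : ContinuousOn (fun r : ℝ × ℝ => σ r.1) (Icc 0 4 ×ˢ Icc 0 1) :=
      hσ.comp continuous_fst.continuousOn fun r hr => hr.1
    have a2 : ContinuousOn (fun r : ℝ × ℝ => (Pm m (σ r.1)).2.1) (Icc 0 4 ×ˢ Icc 0 1) :=
      hz.comp continuous_fst.continuousOn fun r hr => hr.1
    apply a1.add
    apply (im m).continuous.comp_continuousOn
    apply ContinuousOn.prodMk continuousOn_const
    apply ContinuousOn.prodMk _ continuousOn_const
    exact continuous_snd.continuousOn.mul (continuousOn_const.sub a2)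
  have hHO : ∀ r ∈ (Icc (0 : ℝ) 4) ×ˢ (Icc (0 : ℝ) 1), H r ∈ cyl m D3 := by
    intro r hr
    have hs := hσO r.1 hr.1
    refine ⟨?_, ?_⟩
    · rw [hPH]
      refine ⟨hs.1.1, ?_, hs.1.2.2.1, hs.1.2.2.2.1, ?_⟩
      · show |(Pm m (σ r.1)).2.1 + r.2 * (c - (Pm m (σ r.1)).2.1)| < 1
        have e : (Pm m (σ r.1)).2.1 + r.2 * (c - (Pm m (σ r.1)).2.1) =
            (1 - r.2) * (Pm m (σ r.1)).2.1 + r.2 * c := by ring
        rw [e]
        have h1 := hs.1.2.1
        have h2 := hr.2.1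
        have h3 := hr.2.2
        have hc1 : |c| < 1 := by rw [hc]; norm_num
        rw [abs_lt] at h1 hc1 ⊢
        constructor
        · rcases h2.eq_or_lt with h | h
          · rw [← h]; linarith [h1.1]
          · nlinarith [h1.1, hc1.1]
        · rcases h2.eq_or_lt with h | h
          · rw [← h]; linarith [h1.2]
          · nlinarith [h1.2, hc1.2]
      · rintro ⟨k1, k2⟩
        exact hs.1.2.2.2.2 ⟨k1, hd r.1 hr.1 r.2 hr.2 k2⟩
    · intro i hi
      have : (H r) i = (σ r.1) i := by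
        simp only [hH, PiLp.add_apply, im_coord _ hi, add_zero]
      rw [this]; exact hs.2 i hi
  have h1 := closedLog_of_homotopy (fun r => Q (H r)) (hQ.comp hHc hHO) (fun r hr => hQ0 _ (hHO r hr))
    (fun u hu => by simp only [hH, h04]) (by
      apply closedLog_straight (σ := fun s => H (s, 1)) _ _ hQ hQ0 (0, c, 1 / 2)
      · intro s hs u hu
        have hs1 := hHO (s, 1) ⟨hs, by norm_num⟩
        have hP1 := hPH (s, 1)
        have e2 : (Pm m (σ s)).2.1 + 1 * (c - (Pm m (σ s)).2.1) = c := by ring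
        simp only [e2] at hP1
        refine ⟨?_, ?_⟩
        · rw [map_add, map_smul, map_smul, Pm_pt, hP1]
          have q1 := hs1.1
          rw [hP1] at q1
          obtain ⟨q2, q3, q4, q5, q6⟩ := q1
          simp only at q2 q3 q4 q5
          have e3 : (1 - u) • ((Pm m (σ s)).1, c, (Pm m (σ s)).2.2) + u • ((0 : ℝ), c, (1 / 2 : ℝ)) =
              ((1 - u) * (Pm m (σ s)).1, c, (1 - u) * (Pm m (σ s)).2.2 + u * (1 / 2)) := by
            refine Prod.ext ?_ (Prod.ext ?_ ?_)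
            · simp
            · simp; ring
            · simp
          rw [e3]
          refine ⟨?_, ?_, ?_, ?_, ?_⟩
          · show |(1 - u) * (Pm m (σ s)).1| < 1
            rw [abs_mul, abs_of_nonneg (by linarith [hu.2])]
            have := abs_nonneg (Pm m (σ s)).1
            nlinarith [hu.1, hu.2]
          · show |c| < 1
            rw [hc]; norm_num
          · show 0 < (1 - u) * (Pm m (σ s)).2.2 + u * (1 / 2)
            rcases hu.1.eq_or_lt with h | h
            · rw [← h]; linarith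
            · nlinarith [hu.2]
          · show (1 - u) * (Pm m (σ s)).2.2 + u * (1 / 2) < 1
            rcases hu.1.eq_or_lt with h | h
            · rw [← h]; linarith
            · nlinarith [hu.2]
          · rintro ⟨-, k2⟩
            simp only at k2
            rw [hc] at k2
            norm_num at k2
        · intro i hi
          have k1 := hs1.2 i hi
          simp only [PiLp.add_apply, PiLp.smul_apply, smul_eq_mul, pt_coord _ hi]
          have hu1 := hu.1
          have hu2 := hu.2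
          constructor <;> nlinarith
      · exact hHc.comp (by fun_prop) fun s hs => ⟨hs, by norm_num⟩
      · simp only [hH, h04])
  have e0 : ∀ s, H (s, 0) = σ s := by
    intro s
    simp only [hH, zero_mul]
    rw [show ((0 : ℝ), (0 : ℝ), (0 : ℝ)) = (0 : ℝ × ℝ × ℝ) from rfl, map_zero, add_zero]
  simpa only [e0] using h1

lemma closedLog_short {σ : ℝ → Eu (m + 3)} (hσ : ContinuousOn σ (Icc 0 4)) (h04 : σ 0 = σ 4)
    (hσO : ∀ s ∈ Icc (0 : ℝ) 4, σ s ∈ cyl m D3)
    {Q : Eu (m + 3) → ℂ} (hQ : ContinuousOn Q (cyl m D3)) (hQ0 : ∀ x ∈ cyl m D3, Q x ≠ 0)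
    (hd : (∀ s ∈ Icc (0 : ℝ) 4, -(1 / 2) < (Pm m (σ s)).2.1) ∨
      (∀ s ∈ Icc (0 : ℝ) 4, (Pm m (σ s)).2.1 < 1 / 2)) :
    ClosedLog (fun s => Q (σ s)) := by
  rcases hd with hd | hd
  · refine closedLog_side hσ h04 hσO hQ hQ0 (3 / 4) (by norm_num) ?_
    intro s hs r hr h
    have h1 := hd s hs
    set v := (Pm m (σ s)).2.1
    have e : v + r * (3 / 4 - v) = (1 - r) * v + r * (3 / 4) := by ring
    rw [e, abs_le] at h
    rw [abs_le]
    refine ⟨by linarith, ?_⟩
    by_contra hcon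
    push Not at hcon
    have : 1 / 2 < (1 - r) * v + r * (3 / 4) := by
      rcases hr.2.eq_or_lt with h2 | h2
      · rw [h2]; norm_num
      · nlinarith [hr.1]
    linarith [h.2]
  · refine closedLog_side hσ h04 hσO hQ hQ0 (-(3 / 4)) (by norm_num) ?_
    intro s hs r hr h
    have h1 := hd s hs
    set v := (Pm m (σ s)).2.1
    have e : v + r * (-(3 / 4) - v) = (1 - r) * v - r * (3 / 4) := by ring
    rw [e, abs_le] at h
    rw [abs_le]
    refine ⟨?_, by linarith⟩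
    by_contra hcon
    push Not at hcon
    have : (1 - r) * v - r * (3 / 4) < -(1 / 2) := by
      rcases hr.2.eq_or_lt with h2 | h2
      · rw [h2]; norm_num
      · nlinarith [hr.1]
    linarith [h.1]

/-- a function winding around the hole -/
def qf (p : ℝ × ℝ × ℝ) : ℂ := (c1 (8 / 5 * p.1) : ℂ) + (c1 (8 / 5 * p.2.1) : ℂ) * Complex.I

lemma qf_continuous : Continuous qf := by
  have := c1_continuous
  unfold qf; fun_prop

lemma qf_ne {p : ℝ × ℝ × ℝ} (hp : p ∈ D3) : qf p ≠ 0 := by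
  intro h
  have h1 := congrArg Complex.re h
  have h2 := congrArg Complex.im h
  simp [qf] at h1 h2
  have h3 := c1_eq_zero h1
  have h4 := c1_eq_zero h2
  have h5 : p.1 = 0 := by linarith
  have h6 : p.2.1 = 0 := by linarith
  apply hp.2.2.2.2
  rw [h5, h6]
  norm_num

def W0 : Set (ℝ × ℝ × ℝ) := D3 ∩ {p | p.2.2 < 1 / 2}

lemma W0_isOpen : IsOpen W0 := D3_isOpen.inter (isOpen_lt (by fun_prop) continuous_const)

lemma W0_sub : W0 ⊆ D3 := fun _ hp => hp.1

def Bx : Set (ℝ × ℝ × ℝ) :=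
  {p | |p.1 + 3 / 4| < 1 / 8 ∧ |p.2.1 + 3 / 4| < 1 / 8 ∧ 0 < p.2.2 ∧ p.2.2 < 1 / 2}

lemma Bx_isOpen : IsOpen Bx := by
  have h1 : IsOpen {p : ℝ × ℝ × ℝ | |p.1 + 3 / 4| < 1 / 8} :=
    isOpen_lt (by fun_prop) continuous_const
  have h2 : IsOpen {p : ℝ × ℝ × ℝ | |p.2.1 + 3 / 4| < 1 / 8} :=
    isOpen_lt (by fun_prop) continuous_const
  have h3 : IsOpen {p : ℝ × ℝ × ℝ | 0 < p.2.2} := isOpen_lt continuous_const (by fun_prop)
  have h4 : IsOpen {p : ℝ × ℝ × ℝ | p.2.2 < 1 / 2} := isOpen_lt (by fun_prop) continuous_const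
  exact h1.inter (h2.inter (h3.inter h4))

def e1 (m : ℕ) : Eu (m + 3) := im m (3 / 2, 0, 0)
def e2 (m : ℕ) : Eu (m + 3) := im m (0, 3 / 2, 0)

lemma Pm_rloop (x : Eu (m + 3)) (s : ℝ) : Pm m (rloop (e1 m) (e2 m) x s) =
    ((Pm m x).1 + 3 / 2 * (cl (s - 1) - cl (s - 3)), (Pm m x).2.1 + 3 / 2 * (cl s - cl (s - 2)),
      (Pm m x).2.2) := by
  unfold rloop e1 e2
  simp only [map_add, map_smul, map_neg, Pm_im]
  refine Prod.ext ?_ (Prod.ext ?_ ?_)
  · simp; ring
  · simp; ring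
  · simp

lemma rloop_coord (x : Eu (m + 3)) (s : ℝ) {i : Fin (m + 3)} (hi : 3 ≤ (i : ℕ)) :
    (rloop (e1 m) (e2 m) x s) i = x i := by
  unfold rloop e1 e2
  simp only [PiLp.add_apply, PiLp.smul_apply, PiLp.neg_apply, im_coord _ hi]
  simp

lemma rloop_closed (x : Eu (m + 3)) : rloop (e1 m) (e2 m) x 0 = rloop (e1 m) (e2 m) x 4 := by
  rw [rloop_0 _ _ _ le_rfl zero_le_one, rloop_3 _ _ _ (by norm_num) le_rfl]
  have : (4 : ℝ) - 3 = 1 := by norm_num
  rw [this, one_smul, zero_smul]; abel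

lemma rloop_mem {x : Eu (m + 3)} (hx : x ∈ cyl m Bx) {s : ℝ} (hs : s ∈ Icc (0 : ℝ) 4) :
    rloop (e1 m) (e2 m) x s ∈ cyl m W0 := by
  refine ⟨?_, fun i hi => by rw [rloop_coord x s hi]; exact hx.2 i hi⟩
  rw [Pm_rloop]
  obtain ⟨h1, h2, h3, h4⟩ := hx.1
  rw [abs_lt] at h1 h2
  set a := (Pm m x).1
  set z := (Pm m x).2.1
  set t := (Pm m x).2.2
  have key : ∀ α β : ℝ, 0 ≤ α → α ≤ 1 → 0 ≤ β → β ≤ 1 → (α = 0 ∨ α = 1 ∨ β = 0 ∨ β = 1) →
      (a + 3 / 2 * α, z + 3 / 2 * β, t) ∈ W0 := by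
    intro α β ha0 ha1 hb0 hb1 hc
    refine ⟨⟨?_, ?_, h3, ?_, ?_⟩, h4⟩
    · show |a + 3 / 2 * α| < 1
      rw [abs_lt]; constructor <;> linarith [h1.1, h1.2]
    · show |z + 3 / 2 * β| < 1
      rw [abs_lt]; constructor <;> linarith [h2.1, h2.2]
    · show t < 1
      linarith
    · rintro ⟨k1, k2⟩
      simp only at k1 k2
      rw [abs_le] at k1 k2
      rcases hc with h | h | h | h
      · rw [h] at k1; linarith [h1.1, h1.2, k1.1]
      · rw [h] at k1; linarith [h1.1, h1.2, k1.2]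
      · rw [h] at k2; linarith [h2.1, h2.2, k2.1]
      · rw [h] at k2; linarith [h2.1, h2.2, k2.2]
  rcases le_total s 1 with c1 | c1
  · rw [cl_of_mem hs.1 c1, cl_of_nonpos (by linarith : s - 1 ≤ 0),
      cl_of_nonpos (by linarith : s - 2 ≤ 0), cl_of_nonpos (by linarith : s - 3 ≤ 0)]
    apply key <;> simp <;> linarith [hs.1]
  · rcases le_total s 2 with c2 | c2
    · rw [cl_of_one_le c1, cl_of_mem (by linarith) (by linarith : s - 1 ≤ 1),
        cl_of_nonpos (by linarith : s - 2 ≤ 0), cl_of_nonpos (by linarith : s - 3 ≤ 0)]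
      apply key <;> simp <;> linarith [hs.1]
    · rcases le_total s 3 with c3 | c3
      · rw [cl_of_one_le c1, cl_of_one_le (by linarith : 1 ≤ s - 1),
          cl_of_mem (by linarith) (by linarith : s - 2 ≤ 1), cl_of_nonpos (by linarith : s - 3 ≤ 0)]
        apply key <;> simp <;> linarith [hs.1]
      · rw [cl_of_one_le c1, cl_of_one_le (by linarith : 1 ≤ s - 1),
          cl_of_one_le (by linarith : 1 ≤ s - 2), cl_of_mem (by linarith) (by linarith [hs.2] : s - 3 ≤ 1)]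
        apply key <;> simp <;> linarith [hs.1, hs.2]

lemma not_closedLog_rloop {x : Eu (m + 3)} (hx : x ∈ cyl m Bx) :
    ¬ ClosedLog (fun s => qf (Pm m (rloop (e1 m) (e2 m) x s))) := by
  obtain ⟨h1, h2, -, -⟩ := hx.1
  rw [abs_lt] at h1 h2
  set a := (Pm m x).1 with ha
  set z := (Pm m x).2.1 with hz
  let y : ℕ → ℝ → ℝ := fun k => match k with
    | 0 => fun s => c1 (8 / 5 * (z + 3 / 2 * s))
    | 1 => fun s => c1 (8 / 5 * (a + 3 / 2 * (s - 1)))
    | 2 => fun s => -c1 (8 / 5 * (z + 3 / 2 * (1 - (s - 2))))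
    | _ => fun s => -c1 (8 / 5 * (a + 3 / 2 * (1 - (s - 3))))
  let w : ℕ → ℂ := fun k => match k with
    | 0 => -1
    | 1 => Complex.I
    | 2 => 1
    | _ => -Complex.I
  have hc := c1_continuous
  apply not_closedLog_square (y := y) (w := w)
  · intro k hk
    interval_cases k <;> simp [w]
  · intro k hk
    interval_cases k
    · exact (by fun_prop : Continuous fun s => c1 (8 / 5 * (z + 3 / 2 * s))).continuousOn
    · exact (by fun_prop : Continuous fun s => c1 (8 / 5 * (a + 3 / 2 * (s - 1)))).continuousOn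
    · exact (by fun_prop : Continuous fun s => -c1 (8 / 5 * (z + 3 / 2 * (1 - (s - 2))))).continuousOn
    · exact (by fun_prop : Continuous fun s => -c1 (8 / 5 * (a + 3 / 2 * (1 - (s - 3))))).continuousOn
  · intro k hk
    interval_cases k
    · change c1 (8 / 5 * (z + 3 / 2 * ((0 : ℕ) : ℝ))) = -1
      push_cast
      exact c1_of_le (by linarith [h2.2])
    · change c1 (8 / 5 * (a + 3 / 2 * (((1 : ℕ) : ℝ) - 1))) = -1
      push_cast
      exact c1_of_le (by linarith [h1.2])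
    · change -c1 (8 / 5 * (z + 3 / 2 * (1 - (((2 : ℕ) : ℝ) - 2)))) = -1
      push_cast
      rw [c1_of_ge (by linarith [h2.1])]
    · change -c1 (8 / 5 * (a + 3 / 2 * (1 - (((3 : ℕ) : ℝ) - 3)))) = -1
      push_cast
      rw [c1_of_ge (by linarith [h1.1])]
  · intro k hk
    interval_cases k
    · change c1 (8 / 5 * (z + 3 / 2 * (((0 : ℕ) : ℝ) + 1))) = 1
      push_cast
      exact c1_of_ge (by linarith [h2.1])
    · change c1 (8 / 5 * (a + 3 / 2 * (((1 : ℕ) : ℝ) + 1 - 1))) = 1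
      push_cast
      exact c1_of_ge (by linarith [h1.1])
    · change -c1 (8 / 5 * (z + 3 / 2 * (1 - (((2 : ℕ) : ℝ) + 1 - 2)))) = 1
      push_cast
      rw [c1_of_le (by linarith [h2.2])]; norm_num
    · change -c1 (8 / 5 * (a + 3 / 2 * (1 - (((3 : ℕ) : ℝ) + 1 - 3)))) = 1
      push_cast
      rw [c1_of_le (by linarith [h1.2])]; norm_num
  · intro k hk s hs
    rw [Pm_rloop, ← ha, ← hz]
    interval_cases k
    · simp only [Nat.cast_zero, zero_add] at hs
      change qf _ = -1 * (1 - Complex.I * (c1 (8 / 5 * (z + 3 / 2 * s)) : ℂ))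
      rw [cl_of_mem hs.1 hs.2, cl_of_nonpos (by linarith [hs.2] : s - 1 ≤ 0),
        cl_of_nonpos (by linarith [hs.2] : s - 2 ≤ 0), cl_of_nonpos (by linarith [hs.2] : s - 3 ≤ 0)]
      unfold qf
      simp only [sub_zero, mul_zero, add_zero]
      rw [c1_of_le (by linarith [h1.2] : 8 / 5 * a ≤ -1)]
      push_cast; ring
    · have h01 : (1 : ℝ) ≤ s := by simpa using hs.1
      have h02 : s ≤ 2 := by have := hs.2; norm_num at this; linarith
      change qf _ = Complex.I * (1 - Complex.I * (c1 (8 / 5 * (a + 3 / 2 * (s - 1))) : ℂ))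
      rw [cl_of_one_le h01, cl_of_mem (by linarith) (by linarith : s - 1 ≤ 1),
        cl_of_nonpos (by linarith : s - 2 ≤ 0), cl_of_nonpos (by linarith : s - 3 ≤ 0)]
      unfold qf
      simp only [sub_zero]
      rw [c1_of_ge (by linarith [h2.1] : 1 ≤ 8 / 5 * (z + 3 / 2 * 1))]
      push_cast
      ring_nf
      rw [Complex.I_sq]; ring
    · have h01 : (2 : ℝ) ≤ s := by simpa using hs.1
      have h02 : s ≤ 3 := by have := hs.2; norm_num at this; linarith
      change qf _ = 1 * (1 - Complex.I * ((-c1 (8 / 5 * (z + 3 / 2 * (1 - (s - 2)))) : ℝ) : ℂ))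
      rw [cl_of_one_le (by linarith : 1 ≤ s), cl_of_one_le (by linarith : 1 ≤ s - 1),
        cl_of_mem (by linarith) (by linarith : s - 2 ≤ 1), cl_of_nonpos (by linarith : s - 3 ≤ 0)]
      unfold qf
      simp only [sub_zero]
      rw [c1_of_ge (by linarith [h1.1] : 1 ≤ 8 / 5 * (a + 3 / 2 * 1))]
      push_cast; ring
    · have h01 : (3 : ℝ) ≤ s := by simpa using hs.1
      have h02 : s ≤ 4 := by have := hs.2; norm_num at this; linarith
      change qf _ = -Complex.I * (1 - Complex.I * ((-c1 (8 / 5 * (a + 3 / 2 * (1 - (s - 3)))) : ℝ) : ℂ))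
      rw [cl_of_one_le (by linarith : 1 ≤ s), cl_of_one_le (by linarith : 1 ≤ s - 1),
        cl_of_one_le (by linarith : 1 ≤ s - 2), cl_of_mem (by linarith) (by linarith : s - 3 ≤ 1)]
      unfold qf
      simp only [sub_self, mul_zero, add_zero]
      rw [c1_of_le (by linarith [h2.2] : 8 / 5 * z ≤ -1)]
      push_cast
      ring_nf
      rw [Complex.I_sq]; ring

/-- the topological core: images of the rectangular loops are long -/
lemma loop_long {g : Eu (m + 3) → Eu (m + 3)} (hg : IsHomeo (cyl m D3) (cyl m D3') g)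
    {x : Eu (m + 3)} (hx : x ∈ cyl m Bx) {V : ℝ → ℝ}
    (hV : ∀ s ∈ Icc (0 : ℝ) 4, ∀ t ∈ Icc (0 : ℝ) 4, s ≤ t →
      ‖g (rloop (e1 m) (e2 m) x t) - g (rloop (e1 m) (e2 m) x s)‖ ≤ V t - V s) :
    1 / 1024 ≤ V 4 - V 0 := by
  by_contra hcon
  push Not at hcon
  obtain ⟨hbij, hgc, h, hinv, hhc⟩ := hg
  set γ : ℝ → Eu (m + 3) := rloop (e1 m) (e2 m) x with hγ
  have hγc : Continuous γ := rloop_continuous _ _ _
  have hγO : ∀ s ∈ Icc (0 : ℝ) 4, γ s ∈ cyl m D3 := fun s hs => cyl_mono W0_sub (rloop_mem hx hs)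
  have hgγ : ContinuousOn (fun s => g (γ s)) (Icc 0 4) := hgc.comp hγc.continuousOn hγO
  have hgO : ∀ s ∈ Icc (0 : ℝ) 4, g (γ s) ∈ cyl m D3' := fun s hs => hbij.mapsTo (hγO s hs)
  set σ : ℝ → Eu (m + 3) := fun s => lift Ti (g (γ s)) with hσ
  have hTic : ContinuousOn Ti D3' := Ti_continuousOn.mono fun q hq => hq.1
  have hσc : ContinuousOn σ (Icc 0 4) := (lift_continuousOn hTic).comp hgγ hgO
  have hσO : ∀ s ∈ Icc (0 : ℝ) 4, σ s ∈ cyl m D3 := fun s hs => lift_mapsTo Ti_mapsTo (hgO s hs)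
  have hPσ : ∀ s, Pm m (σ s) = Ti (Pm m (g (γ s))) := fun s => Pm_lift _ _
  have hd := dichotomy (p := fun s => Pm m (σ s)) ((Pm m).continuous.comp_continuousOn hσc)
    (fun s hs => (hσO s hs).1) (V := V) (by
      intro s hs t ht hst
      rw [hPσ, hPσ, Th_Ti (hgO s hs).1.1, Th_Ti (hgO t ht).1.1, ← map_sub]
      exact (norm_Pm_le _).trans (hV s hs t ht hst)) hcon
  have hThc : ContinuousOn Th D3 := Th_continuous.continuousOn
  have hh : MapsTo h (cyl m D3') (cyl m D3) := by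
    intro y hy
    obtain ⟨z, hz, rfl⟩ := hbij.surjOn hy
    rw [hinv.1 hz]; exact hz
  have key := closedLog_short hσc (by simp only [hσ, hγ, rloop_closed]) hσO
    (Q := fun z => qf (Pm m (h (lift Th z))))
    (by
      apply qf_continuous.comp_continuousOn
      apply (Pm m).continuous.comp_continuousOn
      exact hhc.comp (lift_continuousOn hThc) (lift_mapsTo Th_mapsTo))
    (fun z hz => qf_ne (hh (lift_mapsTo Th_mapsTo hz)).1) hd
  apply not_closedLog_rloop hx
  obtain ⟨l, hl, hle, hl0⟩ := key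
  refine ⟨l, hl, fun s hs => ?_, hl0⟩
  rw [hle s hs]
  simp only [hσ]
  rw [lift_lift (Th_Ti (hgO s hs).1.1), hinv.1 (hγO s hs)]

lemma Flim_eq {x : Eu (m + 3)} (hx : x ∈ cyl m W0) : Flim m x = x - im m (Pm m x) := by
  have hx1 := hx.1
  have h3 : (Pm m x).2.2 < 1 / 2 := hx1.2
  have h5 : phi 0 (Pm m x).2.2 = 0 := by
    unfold phi
    rw [zero_mul]
    apply max_eq_left; linarith
  have h4 : Gm (phi 0) (Pm m x) = 0 := by
    unfold Gm Th ac
    simp only
    rw [h5, A_zero le_rfl]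
    simp
  unfold Flim lift
  rw [h4, zero_sub, map_neg]; abel

lemma Flim_fderiv {x : Eu (m + 3)} (hx : x ∈ cyl m W0) (p : ℝ × ℝ × ℝ) :
    fderiv ℝ (Flim m) x (im m p) = 0 := by
  have h1 : Flim m =ᶠ[𝓝 x] fun y => y - im m (Pm m y) := by
    filter_upwards [(cyl_isOpen W0_isOpen).mem_nhds hx] with y hy using Flim_eq hy
  rw [h1.fderiv_eq]
  have h2 : HasFDerivAt (fun y : Eu (m + 3) => y - im m (Pm m y))
      (ContinuousLinearMap.id ℝ (Eu (m + 3)) - (im m).comp (Pm m)) x :=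
    (hasFDerivAt_id x).sub ((im m).comp (Pm m)).hasFDerivAt
  rw [h2.fderiv]
  simp [Pm_im]

end

end Pool.Agent.KS6_69.WS.Loops
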