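import Pool.Agent.KS6_69.WS.Lift3

/-!
# The maps, and membership in the weak closure
-/

set_option autoImplicit false

open MeasureTheory Set Filter Topology Metric
open scoped ENNReal NNReal
open Pool.Agent.KS6_69.WS.SobDefs Pool.Agent.KS6_69.WS.Base Pool.Agent.KS6_69.WS.Horn
open Pool.Agent.KS6_69.WS.Lift3

namespace Pool.Agent.KS6_69.WS.Maps

noncomputable section

/-- piecewise affine homeomorphisms of the interval -/
def phi (ε x : ℝ) : ℝ := max (ε * x) (2 * x - 1)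

/-- their inverses -/
def psi (ε y : ℝ) : ℝ := min (y / ε) ((y + 1) / 2)

lemma psi_phi {ε : ℝ} (hε : 0 < ε) (x : ℝ) : psi ε (phi ε x) = x := by
  unfold psi phi
  rcases max_cases (ε * x) (2 * x - 1) with ⟨h1, h2⟩ | ⟨h1, h2⟩
  · rw [h1, mul_div_cancel_left₀ _ hε.ne']
    apply min_eq_left; linarith
  · rw [h1]
    rw [min_eq_right]
    · ring
    · rw [le_div_iff₀ hε]
      nlinarith

lemma phi_psi {ε : ℝ} (hε : 0 < ε) (y : ℝ) : phi ε (psi ε y) = y := by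
  unfold psi phi
  rcases min_cases (y / ε) ((y + 1) / 2) with ⟨h1, h2⟩ | ⟨h1, h2⟩
  · rw [h1, mul_div_cancel₀ _ hε.ne']
    apply max_eq_left
    linarith
  · rw [h1, max_eq_right]
    · ring
    · rw [lt_div_iff₀ hε] at h2
      linarith

/-- the factors -/
def ep (k : ℕ) : ℝ := 1 / ((k : ℝ) + 2)

lemma ep_pos (k : ℕ) : 0 < ep k := by unfold ep; positivity

lemma ep_lt (k : ℕ) : ep k < 1 := by
  unfold ep
  rw [div_lt_one (by positivity)]
  have : (0 : ℝ) ≤ k := Nat.cast_nonneg k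
  linarith

lemma ep_tendsto : Tendsto ep atTop (𝓝 0) := by
  have h := (tendsto_one_div_add_atTop_nhds_zero_nat (𝕜 := ℝ))
  have h2 := h.comp (tendsto_add_atTop_nat 1)
  refine h2.congr fun k => ?_
  simp only [Function.comp, ep]
  push_cast
  ring

lemma phi_mem {ε x : ℝ} (h0 : 0 ≤ ε) (h1 : ε < 1) (hx0 : 0 < x) (hx1 : x < 1) :
    0 ≤ phi ε x ∧ phi ε x < 1 := by
  unfold phi
  refine ⟨le_trans (by positivity) (le_max_left _ _), max_lt ?_ (by linarith)⟩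
  nlinarith

lemma phi_pos {ε x : ℝ} (h0 : 0 < ε) (hx0 : 0 < x) : 0 < phi ε x :=
  lt_of_lt_of_le (mul_pos h0 hx0) (le_max_left _ _)

lemma phi_lip {ε : ℝ} (h0 : 0 ≤ ε) (h1 : ε ≤ 1) (x y : ℝ) : |phi ε x - phi ε y| ≤ 2 * |x - y| := by
  unfold phi
  refine (abs_max_sub_max_le_max _ _ _ _).trans (max_le ?_ ?_)
  · rw [← mul_sub, abs_mul, abs_of_nonneg h0]
    have := abs_nonneg (x - y)
    nlinarith
  · have : 2 * x - 1 - (2 * y - 1) = 2 * (x - y) := by ring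
    rw [this, abs_mul, abs_of_pos (by norm_num : (0 : ℝ) < 2)]

lemma phi_continuous (ε : ℝ) : Continuous (phi ε) := by unfold phi; fun_prop

lemma phi_tendsto (x : ℝ) : Tendsto (fun k => phi (ep k) x) atTop (𝓝 (phi 0 x)) := by
  have hc : Continuous (fun ε : ℝ => phi ε x) := by unfold phi; fun_prop
  exact (hc.tendsto 0).comp ep_tendsto

/-- acting on the third coordinate -/
def ac (φ : ℝ → ℝ) (p : ℝ × ℝ × ℝ) : ℝ × ℝ × ℝ := (p.1, p.2.1, φ p.2.2)

lemma ac_continuous {φ : ℝ → ℝ} (h : Continuous φ) : Continuous (ac φ) := by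
  unfold ac; fun_prop

/-- the maps -/
def Gm (φ : ℝ → ℝ) (p : ℝ × ℝ × ℝ) : ℝ × ℝ × ℝ := Th (ac φ p)

lemma Gm_continuous {φ : ℝ → ℝ} (h : Continuous φ) : Continuous (Gm φ) :=
  Th_continuous.comp (ac_continuous h)

lemma Gm_lip {ε : ℝ} (h0 : 0 ≤ ε) (h1 : ε < 1) : ∀ p ∈ D3, ∀ q ∈ D3,
    dist (Gm (phi ε) p) (Gm (phi ε) q) ≤ 6 * dist p q := by
  intro p hp q hq
  have hq3 := phi_mem h0 h1 hq.2.2.1 hq.2.2.2.1
  have k1 := Th_lip (p := ac (phi ε) p) (q := ac (phi ε) q) hp.1.le hp.2.1.le hq3.1 hq3.2.le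
  have d1 : |p.1 - q.1| ≤ dist p q := by rw [← Real.dist_eq]; exact le_max_left _ _
  have d2 : |p.2.1 - q.2.1| ≤ dist p q := by
    rw [← Real.dist_eq]; exact (le_max_left _ _).trans (le_max_right _ _)
  have d3 : |p.2.2 - q.2.2| ≤ dist p q := by
    rw [← Real.dist_eq]; exact (le_max_right _ _).trans (le_max_right _ _)
  have hd : 0 ≤ dist p q := dist_nonneg
  have k2 : dist (ac (phi ε) p) (ac (phi ε) q) ≤ 2 * dist p q := by
    rw [Prod.dist_eq, Prod.dist_eq]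
    refine max_le ?_ (max_le ?_ ?_)
    · rw [Real.dist_eq]; exact d1.trans (by linarith)
    · rw [Real.dist_eq]; exact d2.trans (by linarith)
    · rw [Real.dist_eq]
      exact (phi_lip h0 h1.le _ _).trans (by linarith)
  unfold Gm
  linarith

variable {m : ℕ}

/-- The maps. -/
def Fk (m k : ℕ) : Eu (m + 3) → Eu (m + 3) := lift (Gm (phi (ep k)))
def Flim (m : ℕ) : Eu (m + 3) → Eu (m + 3) := lift (Gm (phi 0))

lemma Fk_isHomeo (k : ℕ) : IsHomeo (cyl m D3) (cyl m D3') (Fk m k) := by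
  refine lift_isHomeo (B := fun q => ac (psi (ep k)) (Ti q)) ?_ ?_ ?_ ?_
    (Gm_continuous (phi_continuous _)).continuousOn ?_
  · intro p hp
    apply Th_mapsTo
    have h1 := phi_mem (ep_pos k).le (ep_lt k) hp.2.2.1 hp.2.2.2.1
    exact ⟨hp.1, hp.2.1, phi_pos (ep_pos k) hp.2.2.1, h1.2, hp.2.2.2.2⟩
  · intro q hq
    have h := Ti_mapsTo hq
    have h3 := h.2.2.1
    have h4 := h.2.2.2.1
    refine ⟨h.1, h.2.1, ?_, ?_, h.2.2.2.2⟩
    · show 0 < psi (ep k) (Ti q).2.2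
      have := ep_pos k
      unfold psi
      apply lt_min
      · positivity
      · linarith
    · show psi (ep k) (Ti q).2.2 < 1
      refine lt_of_le_of_lt (min_le_right _ _) ?_
      linarith
  · intro p hp
    have h1 := phi_pos (ep_pos k) hp.2.2.1
    show ac (psi (ep k)) (Ti (Th (ac (phi (ep k)) p))) = p
    rw [Ti_Th h1]
    unfold ac
    simp only
    rw [psi_phi (ep_pos k)]
  · intro q hq
    show Th (ac (phi (ep k)) (ac (psi (ep k)) (Ti q))) = q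
    have h1 : ac (phi (ep k)) (ac (psi (ep k)) (Ti q)) = Ti q := by
      unfold ac
      simp only
      rw [phi_psi (ep_pos k)]
    rw [h1]
    exact Th_Ti hq.1
  · have h1 : Continuous (ac (psi (ep k))) := by
      apply ac_continuous
      unfold psi
      simp only [div_eq_mul_inv]
      fun_prop
    exact h1.comp_continuousOn (Ti_continuousOn.mono fun q hq => hq.1)

lemma Fk_locLip (k : ℕ) : LocLip 22 (cyl m D3) (Fk m k) :=
  lift_locLip D3_isOpen (Gm_lip (ep_pos k).le (ep_lt k))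

lemma Flim_locLip : LocLip 22 (cyl m D3) (Flim m) :=
  lift_locLip D3_isOpen (Gm_lip le_rfl (by norm_num))

lemma D3_norm {p : ℝ × ℝ × ℝ} (hp : p ∈ D3) : ‖p‖ ≤ 1 := by
  rw [Prod.norm_def, Prod.norm_def]
  refine max_le hp.1.le (max_le hp.2.1.le ?_)
  have h1 := hp.2.2.1
  have h2 := hp.2.2.2.1
  rw [Real.norm_eq_abs, abs_le]; constructor <;> linarith

lemma Th_norm {p : ℝ × ℝ × ℝ} (h1 : |p.1| < 1) (h2 : |p.2.1| < 1) (h3 : 0 ≤ p.2.2)
    (h4 : p.2.2 < 1) : ‖Th p‖ ≤ 2 := by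
  have a1 := A_nonneg p.2.1 p.2.2
  have a2 := A_le (v := p.2.1) h3
  rw [Prod.norm_def, Prod.norm_def]
  refine max_le ?_ (max_le ?_ ?_)
  · show |p.2.2 * p.1 / 4096 + A p.2.1 p.2.2| ≤ 2
    refine (abs_add_le _ _).trans ?_
    rw [abs_div, abs_mul, abs_of_nonneg h3, abs_of_pos (by norm_num : (0 : ℝ) < 4096),
      abs_of_nonneg a1]
    have m1 : p.2.2 * |p.1| ≤ 1 * 1 := mul_le_mul h4.le h1.le (abs_nonneg _) (by norm_num)
    have m2 : p.2.2 * |p.1| / 4096 ≤ 1 := by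
      rw [div_le_one (by norm_num)]; linarith
    linarith
  · show |p.2.2 * p.2.1| ≤ 2
    rw [abs_mul, abs_of_nonneg h3]
    have m1 : p.2.2 * |p.2.1| ≤ 1 * 1 := mul_le_mul h4.le h2.le (abs_nonneg _) (by norm_num)
    linarith
  · show |p.2.2| ≤ 2
    rw [abs_of_nonneg h3]; linarith

lemma D3'_norm {q : ℝ × ℝ × ℝ} (hq : q ∈ D3') : ‖q‖ ≤ 2 := by
  have h := Ti_mapsTo hq
  have h2 := Th_norm h.1 h.2.1 h.2.2.1.le h.2.2.2.1
  rwa [Th_Ti hq.1] at h2

lemma Gm_bound {ε : ℝ} (h0 : 0 ≤ ε) (h1 : ε < 1) {p : ℝ × ℝ × ℝ} (hp : p ∈ D3) :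
    ‖Gm (phi ε) p‖ ≤ 2 := by
  have h3 := phi_mem h0 h1 hp.2.2.1 hp.2.2.2.1
  exact Th_norm hp.1 hp.2.1 h3.1 h3.2

lemma cylD3_bdd : Bornology.IsBounded (cyl m D3) := by
  apply (Metric.isBounded_closedBall (x := (0 : Eu (m + 3))) (r := Real.sqrt (m + 3) * 1)).subset
  intro x hx
  rw [mem_closedBall_zero_iff]
  exact cyl_bdd le_rfl (fun p hp => D3_norm hp) x hx

lemma cylD3'_bdd : Bornology.IsBounded (cyl m D3') := by
  apply (Metric.isBounded_closedBall (x := (0 : Eu (m + 3))) (r := Real.sqrt (m + 3) * 2)).subset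
  intro x hx
  rw [mem_closedBall_zero_iff]
  exact cyl_bdd (by norm_num) (fun p hp => D3'_norm hp) x hx

lemma lift_bound {A : ℝ × ℝ × ℝ → ℝ × ℝ × ℝ} (hA : ∀ p ∈ D3, ‖A p‖ ≤ 2) :
    ∀ x ∈ cyl m D3, ‖lift A x‖ ≤ Real.sqrt (m + 3) * 2 := by
  intro x hx
  have : MapsTo A D3 {q | ‖q‖ ≤ 2} := hA
  exact cyl_bdd (by norm_num) (fun p hp => hp) _ (lift_mapsTo this hx)

lemma Fk_tendsto (x : Eu (m + 3)) : Tendsto (fun k => Fk m k x) atTop (𝓝 (Flim m x)) := by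
  unfold Fk Flim lift
  apply tendsto_const_nhds.add
  apply ((im m).continuous.tendsto _).comp
  refine Tendsto.sub_const ?_ _
  have h1 : Tendsto (fun k => ac (phi (ep k)) (Pm m x)) atTop (𝓝 (ac (phi 0) (Pm m x))) :=
    tendsto_const_nhds.prodMk_nhds (tendsto_const_nhds.prodMk_nhds (phi_tendsto _))
  exact (Th_continuous.tendsto _).comp h1

lemma Flim_mem_weak (p : ℝ≥0∞) : Flim m ∈ weakClosureHom p (cyl m D3) (cyl m D3') := by
  have hopen : IsOpen (cyl m D3) := cyl_isOpen D3_isOpen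
  have hfin : volume (cyl m D3) ≠ ⊤ := cylD3_bdd.measure_lt_top.ne
  have hF : ∀ k, ∀ x ∈ cyl m D3, ‖Fk m k x‖ ≤ Real.sqrt (m + 3) * 2 := fun k =>
    lift_bound fun p hp => Gm_bound (ep_pos k).le (ep_lt k) hp
  have hf : ∀ x ∈ cyl m D3, ‖Flim m x‖ ≤ Real.sqrt (m + 3) * 2 :=
    lift_bound fun p hp => Gm_bound le_rfl (by norm_num) hp
  refine ⟨?_, fderiv ℝ (Flim m), Fk m, fun k => fderiv ℝ (Fk m k), ?_, ?_, ?_⟩
  · filter_upwards [ae_restrict_mem hopen.measurableSet] with x hx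
    apply mem_closure_of_tendsto (Fk_tendsto x)
    filter_upwards with k
    exact (Fk_isHomeo k).1.mapsTo hx
  · exact Flim_locLip.isSobolev hopen hfin hf p
  · exact fun k => ⟨Fk_isHomeo k, (Fk_locLip k).isSobolev hopen hfin (hF k) p⟩
  · exact weakConv_of_locLip hopen hfin Fk_locLip Flim_locLip hF hf fun x _ => Fk_tendsto x

end

end Pool.Agent.KS6_69.WS.Maps
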