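import Pool.Agent.KS6_69.WS.Final

/-!
# The source domain, connectedness, uniform convergence
-/

set_option autoImplicit false

open MeasureTheory Set Filter Topology Metric
open scoped ENNReal NNReal
open Pool.Agent.KS6_69.WS.SobDefs Pool.Agent.KS6_69.WS.Base Pool.Agent.KS6_69.WS.Horn
open Pool.Agent.KS6_69.WS.Lift3 Pool.Agent.KS6_69.WS.Maps Pool.Agent.KS6_69.WS.Loops
open Pool.Agent.KS6_69.WS.Final

namespace Pool.Agent.KS6_69.WS.Top

noncomputable section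

variable {m : ℕ}

lemma annBox_eq : annBox (m + 3) = cyl m D3 := by
  have e2 : ((2 : Fin (m + 3)) : ℕ) = 2 := val2
  have e1 : ((1 : Fin (m + 3)) : ℕ) = 1 := val1
  have e0 : ((0 : Fin (m + 3)) : ℕ) = 0 := val0
  have hcase : ∀ i : Fin (m + 3), (i : ℕ) < 2 → i = 0 ∨ i = 1 := by
    intro i hi
    rcases Nat.lt_or_ge (i : ℕ) 1 with h | h
    · left; apply Fin.ext; rw [e0]; omega
    · right; apply Fin.ext; rw [e1]; omega
  ext x
  constructor
  · rintro ⟨h1, i, hi, h2⟩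
    refine ⟨⟨(h1 0).1 (by rw [e0]; norm_num), (h1 1).1 (by rw [e1]; norm_num),
      ((h1 2).2 (by rw [e2])).1, ((h1 2).2 (by rw [e2])).2, ?_⟩, fun j hj => (h1 j).2 (by omega)⟩
    rintro ⟨k1, k2⟩
    rcases hcase i hi with rfl | rfl
    · exact absurd k1 (not_le.2 h2)
    · exact absurd k2 (not_le.2 h2)
  · rintro ⟨⟨h1, h2, h3, h4, h5⟩, h6⟩
    refine ⟨fun i => ⟨fun hi => ?_, fun hi => ?_⟩, ?_⟩
    · rcases hcase i hi with rfl | rfl
      · exact h1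
      · exact h2
    · rcases Nat.lt_or_ge (i : ℕ) 3 with h | h
      · have : i = 2 := by apply Fin.ext; rw [e2]; omega
        rw [this]; exact ⟨h3, h4⟩
      · exact h6 i h
    · by_contra hcon
      push Not at hcon
      exact h5 ⟨hcon 0 (by rw [e0]; norm_num), hcon 1 (by rw [e1]; norm_num)⟩

/-- open boxes -/
def rect (a b c d : ℝ) : Set (ℝ × ℝ × ℝ) :=
  {p | (a < p.1 ∧ p.1 < b) ∧ (c < p.2.1 ∧ p.2.1 < d) ∧ (0 < p.2.2 ∧ p.2.2 < 1)}

lemma rect_convex (a b c d : ℝ) : Convex ℝ (rect a b c d) := by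
  have : rect a b c d = Ioo a b ×ˢ (Ioo c d ×ˢ Ioo 0 1) := by
    ext p; simp only [rect, mem_ofPred_eq, mem_prod, mem_Ioo]
  rw [this]
  exact (convex_Ioo a b).prod ((convex_Ioo c d).prod (convex_Ioo 0 1))

lemma cyl_rect_pre (a b c d : ℝ) : IsPreconnected (cyl m (rect a b c d)) :=
  (cyl_convex (rect_convex a b c d)).isPreconnected

lemma cyl_union (U V : Set (ℝ × ℝ × ℝ)) : cyl m (U ∪ V) = cyl m U ∪ cyl m V := by
  ext x
  constructor
  · rintro ⟨h1 | h1, h2⟩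
    · exact Or.inl ⟨h1, h2⟩
    · exact Or.inr ⟨h1, h2⟩
  · rintro (⟨h1, h2⟩ | ⟨h1, h2⟩)
    · exact ⟨Or.inl h1, h2⟩
    · exact ⟨Or.inr h1, h2⟩

lemma D3_eq : D3 = ((rect (-1) 1 (1 / 2) 1 ∪ rect (1 / 2) 1 (-1) 1) ∪
    rect (-1) 1 (-1) (-(1 / 2))) ∪ rect (-1) (-(1 / 2)) (-1) 1 := by
  ext p
  simp only [D3, rect, mem_union, mem_ofPred_eq, abs_lt, abs_le]
  constructor
  · rintro ⟨⟨h1, h2⟩, ⟨h3, h4⟩, h5, h6, h7⟩
    by_cases k1 : 1 / 2 < p.2.1
    · left; left; left; exact ⟨⟨h1, h2⟩, ⟨k1, h4⟩, h5, h6⟩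
    · by_cases k2 : 1 / 2 < p.1
      · left; left; right; exact ⟨⟨k2, h2⟩, ⟨h3, h4⟩, h5, h6⟩
      · by_cases k3 : p.2.1 < -(1 / 2)
        · left; right; exact ⟨⟨h1, h2⟩, ⟨h3, k3⟩, h5, h6⟩
        · by_cases k4 : p.1 < -(1 / 2)
          · right; exact ⟨⟨h1, k4⟩, ⟨h3, h4⟩, h5, h6⟩
          · exfalso
            push Not at k1 k2 k3 k4
            exact h7 ⟨⟨k4, k2⟩, k3, k1⟩
  · rintro (((⟨h1, h2, h3⟩ | ⟨h1, h2, h3⟩) | ⟨h1, h2, h3⟩) | ⟨h1, h2, h3⟩)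
    · refine ⟨h1, ⟨by linarith [h2.1], h2.2⟩, h3.1, h3.2, ?_⟩
      rintro ⟨_, _, k⟩; linarith [h2.1]
    · refine ⟨⟨by linarith [h1.1], h1.2⟩, h2, h3.1, h3.2, ?_⟩
      rintro ⟨⟨_, k⟩, _, _⟩; linarith [h1.1]
    · refine ⟨h1, ⟨h2.1, by linarith [h2.2]⟩, h3.1, h3.2, ?_⟩
      rintro ⟨_, k, _⟩; linarith [h2.2]
    · refine ⟨⟨h1.1, by linarith [h1.2]⟩, h2, h3.1, h3.2, ?_⟩
      rintro ⟨⟨k, _⟩, _, _⟩; linarith [h1.2]

lemma cylD3_connected : IsConnected (cyl m D3) := by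
  constructor
  · refine ⟨pt m (3 / 4, 3 / 4, 1 / 2), pt_mem ?_⟩
    refine ⟨?_, ?_, ?_, ?_, ?_⟩
    · show |(3 / 4 : ℝ)| < 1
      rw [abs_of_pos] <;> norm_num
    · show |(3 / 4 : ℝ)| < 1
      rw [abs_of_pos] <;> norm_num
    · show (0 : ℝ) < 1 / 2
      norm_num
    · show (1 / 2 : ℝ) < 1
      norm_num
    · rintro ⟨k, -⟩
      have k' : |(3 / 4 : ℝ)| ≤ 1 / 2 := k
      rw [abs_of_pos (by norm_num)] at k'
      norm_num at k'
  · rw [D3_eq, cyl_union, cyl_union, cyl_union]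
    have hr : ∀ {a b c d u v : ℝ}, a < u → u < b → c < v → v < d →
        pt m (u, v, 1 / 2) ∈ cyl m (rect a b c d) := by
      intro a b c d u v h1 h2 h3 h4
      apply pt_mem
      exact ⟨⟨h1, h2⟩, ⟨h3, h4⟩, by norm_num, by norm_num⟩
    have s1 := IsPreconnected.union (pt m (3 / 4, 3 / 4, 1 / 2))
      (hr (a := -1) (b := 1) (c := 1 / 2) (d := 1) (by norm_num) (by norm_num) (by norm_num)
        (by norm_num))
      (hr (a := 1 / 2) (b := 1) (c := -1) (d := 1) (by norm_num) (by norm_num) (by norm_num)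
        (by norm_num))
      (cyl_rect_pre _ _ _ _) (cyl_rect_pre _ _ _ _)
    have s2 := IsPreconnected.union (pt m (3 / 4, -(3 / 4), 1 / 2))
      (Or.inr (hr (a := 1 / 2) (b := 1) (c := -1) (d := 1) (by norm_num) (by norm_num)
        (by norm_num) (by norm_num)))
      (hr (a := -1) (b := 1) (c := -1) (d := -(1 / 2)) (by norm_num) (by norm_num) (by norm_num)
        (by norm_num))
      s1 (cyl_rect_pre _ _ _ _)
    exact IsPreconnected.union (pt m (-(3 / 4), -(3 / 4), 1 / 2))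
      (Or.inr (hr (a := -1) (b := 1) (c := -1) (d := -(1 / 2)) (by norm_num) (by norm_num)
        (by norm_num) (by norm_num)))
      (hr (a := -1) (b := -(1 / 2)) (c := -1) (d := 1) (by norm_num) (by norm_num) (by norm_num)
        (by norm_num))
      s2 (cyl_rect_pre _ _ _ _)

lemma cylD3'_connected : IsConnected (cyl m D3') := by
  have h := Fk_isHomeo (m := m) 0
  have h1 : Fk m 0 '' (cyl m D3) = cyl m D3' := h.1.image_eq
  rw [← h1]
  exact cylD3_connected.image _ h.2.1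

lemma phi_zero_dist {ε x : ℝ} (h0 : 0 ≤ ε) (hx0 : 0 < x) (hx1 : x < 1) :
    |phi ε x - phi 0 x| ≤ ε := by
  unfold phi
  refine (abs_max_sub_max_le_max _ _ _ _).trans (max_le ?_ ?_)
  · rw [zero_mul, sub_zero, abs_of_nonneg (by positivity)]
    nlinarith
  · rw [sub_self, abs_zero]; exact h0

lemma Fk_dist (k : ℕ) {x : Eu (m + 3)} (hx : x ∈ cyl m D3) :
    ‖Fk m k x - Flim m x‖ ≤ 9 * ep k := by
  have h3 := phi_mem (ep_pos k).le (ep_lt k) hx.1.2.2.1 hx.1.2.2.2.1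
  have h4 := phi_mem le_rfl (by norm_num) hx.1.2.2.1 hx.1.2.2.2.1
  have h1 : Fk m k x - Flim m x =
      im m (Gm (phi (ep k)) (Pm m x) - Gm (phi 0) (Pm m x)) := by
    unfold Fk Flim lift
    rw [map_sub, map_sub, map_sub]; abel
  have h2 : dist (Gm (phi (ep k)) (Pm m x)) (Gm (phi 0) (Pm m x)) ≤ 3 * ep k := by
    have k1 := Th_lip (p := ac (phi (ep k)) (Pm m x)) (q := ac (phi 0) (Pm m x))
      hx.1.1.le hx.1.2.1.le h4.1 h4.2.le
    refine k1.trans ?_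
    have k2 : dist (ac (phi (ep k)) (Pm m x)) (ac (phi 0) (Pm m x)) ≤ ep k := by
      rw [Prod.dist_eq, Prod.dist_eq]
      have k3 := phi_zero_dist (ep_pos k).le hx.1.2.2.1 hx.1.2.2.2.1
      have k4 := (ep_pos k).le
      refine max_le ?_ (max_le ?_ ?_)
      · unfold ac; rw [dist_self]; exact k4
      · unfold ac; rw [dist_self]; exact k4
      · rw [Real.dist_eq]; exact k3
    linarith
  rw [h1]
  refine (norm_im_le _).trans ?_
  rw [dist_eq_norm] at h2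
  linarith

lemma Fk_unif : TendstoUniformlyOn (Fk m) (Flim m) atTop (cyl m D3) := by
  rw [Metric.tendstoUniformlyOn_iff]
  intro ε hε
  have h : Tendsto (fun k => 9 * ep k) atTop (𝓝 (9 * 0)) := ep_tendsto.const_mul 9
  rw [mul_zero] at h
  filter_upwards [h.eventually_lt_const hε] with k hk x hx
  rw [dist_comm, dist_eq_norm]
  exact (Fk_dist k hx).trans_lt hk

lemma Fk_lip (k : ℕ) : LipschitzOnWith 22 (Fk m k) (cyl m D3) := by
  apply LipschitzOnWith.of_dist_le_mul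
  intro y hy z hz
  exact lift_dist (U := D3) (Gm_lip (ep_pos k).le (ep_lt k)) hy.1 hz.1

theorem main (n : ℕ) (hn : 3 ≤ n) :
    IsOpen (annBox n) ∧ Bornology.IsBounded (annBox n) ∧ IsConnected (annBox n) ∧
    ∃ (Ω' : Set (Eu n)) (f : Eu n → Eu n) (F : ℕ → Eu n → Eu n),
      IsOpen Ω' ∧ Bornology.IsBounded Ω' ∧ IsConnected Ω' ∧
      (∀ k, IsHomeo (annBox n) Ω' (F k) ∧ LipschitzOnWith 22 (F k) (annBox n)) ∧
      TendstoUniformlyOn F f atTop (annBox n) ∧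
      ∀ p : ℝ≥0∞, 1 ≤ p →
        f ∈ weakClosureHom p (annBox n) Ω' ∧ f ∉ strongClosureHom p (annBox n) Ω' := by
  obtain ⟨m, rfl⟩ : ∃ m, n = m + 3 := ⟨n - 3, by omega⟩
  rw [annBox_eq]
  exact ⟨cyl_isOpen D3_isOpen, cylD3_bdd, cylD3_connected, cyl m D3', Flim m, Fk m,
    cyl_isOpen D3'_isOpen, cylD3'_bdd, cylD3'_connected, fun k => ⟨Fk_isHomeo k, Fk_lip k⟩,
    Fk_unif, fun p hp => ⟨Flim_mem_weak p, not_strong hp⟩⟩

end

end Pool.Agent.KS6_69.WS.Top
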